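import Pool.Agent.Q109.ITM.Defs

namespace Q109.ITM

open SimpleGraph

variable {V W U : Type}

@[simp] lemma sub_some_some {G : SimpleGraph V} {u v a b : V} :
    (subdivideEdge G u v).Adj (some a) (some b) ↔ G.Adj a b ∧ s(a, b) ≠ s(u, v) := by
  unfold subdivideEdge
  rw [fromRel_adj]
  constructor
  · rintro ⟨_, (⟨a', b', ha, hb, h1, h2⟩ | ⟨h, _⟩) | (⟨a', b', ha, hb, h1, h2⟩ | ⟨h, _⟩)⟩
    · cases ha; cases hb; exact ⟨h1, h2⟩
    · cases h
    · cases ha; cases hb; exact ⟨h1.symm, by rwa [Sym2.eq_swap]⟩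
    · cases h
  · rintro ⟨h1, h2⟩
    exact ⟨fun h => h1.ne (by cases h; rfl), Or.inl (Or.inl ⟨a, b, rfl, rfl, h1, h2⟩)⟩

@[simp] lemma sub_none_some {G : SimpleGraph V} {u v a : V} :
    (subdivideEdge G u v).Adj none (some a) ↔ (a = u ∨ a = v) := by
  unfold subdivideEdge
  rw [fromRel_adj]
  constructor
  · rintro ⟨_, (⟨a', b', ha, hb, h1, h2⟩ | ⟨_, h⟩) | (⟨a', b', ha, hb, h1, h2⟩ | ⟨h, _⟩)⟩
    · cases ha
    · simpa using h
    · cases hb
    · cases h
  · intro h
    exact ⟨by simp, Or.inl (Or.inr ⟨rfl, by simpa using h⟩)⟩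

@[simp] lemma sub_some_none {G : SimpleGraph V} {u v a : V} :
    (subdivideEdge G u v).Adj (some a) none ↔ (a = u ∨ a = v) := by
  rw [SimpleGraph.adj_comm, sub_none_some]

/-- subdivision is functorial for embeddings -/
def subEmb {G : SimpleGraph V} {H : SimpleGraph W} (f : G ↪g H) (u v : V) :
    subdivideEdge G u v ↪g subdivideEdge H (f u) (f v) where
  toFun := Option.map f
  inj' := Option.map_injective f.injective
  map_rel_iff' := by
    rintro (_ | a) (_ | b)
    · simp
    · simp [f.injective.eq_iff]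
    · simp [f.injective.eq_iff]
    · simp [f.map_adj_iff, f.injective.eq_iff]

def subIso {G : SimpleGraph V} {H : SimpleGraph W} (f : G ≃g H) (u v : V) :
    subdivideEdge G u v ≃g subdivideEdge H (f u) (f v) where
  toEquiv := Equiv.optionCongr f.toEquiv
  map_rel_iff' := by
    rintro (_ | a) (_ | b)
    · simp
    · simp [f.injective.eq_iff]
    · simp [f.injective.eq_iff]
    · simp [f.map_adj_iff, f.injective.eq_iff]

lemma IsSubdivision.refl (G : SimpleGraph V) : IsSubdivision G G := .iso (RelIso.refl _)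

lemma IsSubdivision.iso_left {V W : Type} {H : SimpleGraph V} {X : SimpleGraph W}
    (h : IsSubdivision H X) : ∀ {U : Type} {G : SimpleGraph U}, (G ≃g H) → IsSubdivision G X := by
  induction h with
  | iso e => intro U G f; exact .iso (f.trans e)
  | @step V W G0 X0 u v huv _ ih =>
    intro U G f
    have h1 : G.Adj (f.symm u) (f.symm v) := f.symm.map_adj_iff.2 huv
    refine .step h1 (ih ?_)
    have h2 := subIso f (f.symm u) (f.symm v)
    rwa [f.apply_symm_apply, f.apply_symm_apply] at h2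

lemma IsSubdivision.iso_right {V W : Type} {H : SimpleGraph V} {X : SimpleGraph W}
    (h : IsSubdivision H X) : ∀ {U : Type} {Y : SimpleGraph U}, (X ≃g Y) → IsSubdivision H Y := by
  induction h with
  | iso e => intro U G f; exact .iso (e.trans f)
  | step huv _ ih => intro U G f; exact .step huv (ih f)

lemma IsSubdivision.trans {V W : Type} {G : SimpleGraph V} {X : SimpleGraph W}
    (h : IsSubdivision G X) : ∀ {U : Type} {Y : SimpleGraph U}, IsSubdivision X Y →
      IsSubdivision G Y := by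
  induction h with
  | iso e => intro U Y f; exact f.iso_left e
  | step huv _ ih => intro U G f; exact .step huv (ih f)

lemma IsSubdivision.embed {V W : Type} {H : SimpleGraph V} {X : SimpleGraph W}
    (h : IsSubdivision H X) : ∀ {V0 : Type} {H0 : SimpleGraph V0}, (H0 ↪g H) →
      ∃ (U : Type) (X0 : SimpleGraph U), IsSubdivision H0 X0 ∧ Nonempty (X0 ↪g X) := by
  induction h with
  | iso e => intro V0 H0 f; exact ⟨V0, H0, .refl _, ⟨f.trans e.toEmbedding⟩⟩
  | @step V W G0 X0 u v huv _ ih =>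
    intro V0 H0 f
    by_cases hc : (∃ u0, f u0 = u) ∧ ∃ v0, f v0 = v
    · obtain ⟨⟨u0, rfl⟩, ⟨v0, rfl⟩⟩ := hc
      obtain ⟨U, Y, h1, h2⟩ := ih (subEmb f u0 v0)
      exact ⟨U, Y, .step (f.map_adj_iff.1 huv) h1, h2⟩
    · refine ih ⟨⟨fun a => some (f a), fun a b hab => f.injective (by simpa using hab)⟩, ?_⟩
      intro a b
      simp only [Function.Embedding.coeFn_mk, sub_some_some, f.map_adj_iff, and_iff_left_iff_imp]
      intro _ h
      apply hc
      rw [Sym2.eq_iff] at h
      rcases h with ⟨h1, h2⟩ | ⟨h1, h2⟩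
      · exact ⟨⟨a, h1⟩, ⟨b, h2⟩⟩
      · exact ⟨⟨b, h2⟩, ⟨a, h1⟩⟩

lemma IsITM.mono_left {H0 : SimpleGraph U} {H : SimpleGraph W} {G : SimpleGraph V} (f : H0 ↪g H)
    (h : IsITM H G) : IsITM H0 G := by
  obtain ⟨T, X, hX, ⟨g⟩⟩ := h
  obtain ⟨T0, X0, h0, ⟨g0⟩⟩ := hX.embed f
  exact ⟨T0, X0, h0, ⟨g0.trans g⟩⟩

lemma IsITM.mono_right {H : SimpleGraph W} {G : SimpleGraph V} {G' : SimpleGraph U} (f : G ↪g G')
    (h : IsITM H G) : IsITM H G' := by
  obtain ⟨T, X, hX, ⟨g⟩⟩ := h
  exact ⟨T, X, hX, ⟨g.trans f⟩⟩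

lemma IsITM.of_emb {H : SimpleGraph W} {G : SimpleGraph V} (f : H ↪g G) : IsITM H G :=
  ⟨W, H, .refl _, ⟨f⟩⟩

/-- If a property of graphs passes from every graph to all its one-edge subdivisions, then it
passes to all subdivisions. -/
lemma IsSubdivision.invariant (P : ∀ {V : Type}, SimpleGraph V → Prop)
    (hiso : ∀ {V W : Type} {G : SimpleGraph V} {X : SimpleGraph W}, (G ≃g X) → P G → P X)
    (hstep : ∀ {V : Type} (G : SimpleGraph V) (u v : V), G.Adj u v → P G →
      P (subdivideEdge G u v))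
    {V W : Type} {G : SimpleGraph V} {X : SimpleGraph W} (h : IsSubdivision G X) : P G → P X := by
  induction h with
  | iso e => exact hiso e
  | step huv _ ih => exact fun hG => ih (hstep _ _ _ huv hG)

end Q109.ITM
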