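import Pool.Agent.Q109.ITM.Basic
import Pool.Agent.H175R2.Conn

/-! Criteria for subdivisions of the diamond and of the paw. -/

namespace Q109.ITM

open SimpleGraph Finset Classical Pool.Agent.H175R2

variable {V W : Type}

lemma iso_of {m : ℕ} {H : SimpleGraph (Fin m)} {G : SimpleGraph V} {S : Finset V} (g : Fin m → V)
    (hinj : Function.Injective g) (hmem : ∀ i, g i ∈ S) (hcov : ∀ z ∈ S, ∃ i, g i = z)
    (hadj : ∀ i j, G.Adj (g i) (g j) ↔ H.Adj i j) : IsSubdivision H (G.induce (S : Set V)) := by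
  have hb : Function.Bijective (fun i => (⟨g i, by simpa using hmem i⟩ : (S : Set V))) := by
    refine ⟨fun i j hij => hinj (congrArg Subtype.val hij), ?_⟩
    rintro ⟨z, hz⟩
    obtain ⟨i, hi⟩ := hcov z (by simpa using hz)
    exact ⟨i, Subtype.ext hi⟩
  exact .iso ⟨Equiv.ofBijective _ hb, fun {i j} => hadj i j⟩

/-- number of neighbours in `S` -/
noncomputable def dg (G : SimpleGraph V) (S : Finset V) (w : V) : ℕ :=
  (S.filter (fun z => G.Adj w z)).card

/-- add an edge -/
def addE (G : SimpleGraph V) (x y : V) : SimpleGraph V :=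
  SimpleGraph.fromRel (fun a b => G.Adj a b ∨ (a = x ∧ b = y))

lemma addE_adj {G : SimpleGraph V} {x y a b : V} (hxy : x ≠ y) :
    (addE G x y).Adj a b ↔ G.Adj a b ∨ (a = x ∧ b = y) ∨ (a = y ∧ b = x) := by
  unfold addE
  rw [fromRel_adj]
  constructor
  · rintro ⟨_, (h | h) | (h | h)⟩
    · exact Or.inl h
    · exact Or.inr (Or.inl h)
    · exact Or.inl h.symm
    · exact Or.inr (Or.inr ⟨h.2, h.1⟩)
  · rintro (h | h | h)
    · exact ⟨h.ne, Or.inl (Or.inl h)⟩
    · exact ⟨by rw [h.1, h.2]; exact hxy, Or.inl (Or.inr h)⟩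
    · exact ⟨by rw [h.1, h.2]; exact hxy.symm, Or.inr (Or.inr ⟨h.2, h.1⟩)⟩

/-- suppressing a vertex of degree two with nonadjacent neighbours -/
lemma suppress {H : SimpleGraph W} {G : SimpleGraph V} {S : Finset V} {v x y : V} (hv : v ∈ S)
    (hx : x ∈ S) (hy : y ∈ S) (hxy : x ≠ y) (hnb : ∀ z ∈ S, (G.Adj v z ↔ z = x ∨ z = y))
    (hnadj : ¬ G.Adj x y)
    (h : IsSubdivision H ((addE G x y).induce ((S.erase v : Finset V) : Set V))) :
    IsSubdivision H (G.induce (S : Set V)) := by
  have hvx : v ≠ x := ((hnb x hx).2 (Or.inl rfl)).ne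
  have hvy : v ≠ y := ((hnb y hy).2 (Or.inr rfl)).ne
  have hx' : x ∈ ((S.erase v : Finset V) : Set V) := by simp [hx, hvx.symm]
  have hy' : y ∈ ((S.erase v : Finset V) : Set V) := by simp [hy, hvy.symm]
  have hmem : ∀ w, w ∈ ((S.erase v : Finset V) : Set V) ↔ w ≠ v ∧ w ∈ S := by
    intro w; simp [and_comm]
  suffices hs : Nonempty (subdivideEdge ((addE G x y).induce ((S.erase v : Finset V) : Set V))
      ⟨x, hx'⟩ ⟨y, hy'⟩ ≃g G.induce (S : Set V)) by
    obtain ⟨e⟩ := hs
    refine h.trans (.step (u := ⟨x, hx'⟩) (v := ⟨y, hy'⟩) ?_ (.iso e))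
    rw [induce_adj]
    exact (addE_adj hxy).2 (Or.inr (Or.inl ⟨rfl, rfl⟩))
  · let f : Option (((S.erase v : Finset V) : Set V)) → ((S : Set V)) := fun w =>
      match w with
      | none => ⟨v, by simpa using hv⟩
      | some w => ⟨w.1, by simpa using ((hmem _).1 w.2).2⟩
    have hf0 : (f none).1 = v := rfl
    have hf1 : ∀ w, (f (some w)).1 = w.1 := fun _ => rfl
    have hinj : Function.Injective f := by
      rintro (_ | a) (_ | b) hab
      · rfl
      · have := congrArg Subtype.val hab
        rw [hf0, hf1] at this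
        exact absurd this.symm ((hmem _).1 b.2).1
      · have := congrArg Subtype.val hab
        rw [hf0, hf1] at this
        exact absurd this ((hmem _).1 a.2).1
      · have := congrArg Subtype.val hab
        rw [hf1, hf1] at this
        rw [Subtype.ext this]
    have hsurj : Function.Surjective f := by
      rintro ⟨w, hw⟩
      by_cases hwv : w = v
      · exact ⟨none, Subtype.ext hwv.symm⟩
      · exact ⟨some ⟨w, (hmem _).2 ⟨hwv, by simpa using hw⟩⟩, rfl⟩
    obtain ⟨e, he⟩ : ∃ e : Option (((S.erase v : Finset V) : Set V)) ≃ ((S : Set V)),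
        ∀ w, e w = f w := ⟨Equiv.ofBijective f ⟨hinj, hsurj⟩, fun _ => rfl⟩
    refine ⟨⟨e, ?_⟩⟩
    have hva : ∀ a : ((S.erase v : Finset V) : Set V), G.Adj v a.1 ↔ a.1 = x ∨ a.1 = y :=
      fun a => hnb a.1 ((hmem _).1 a.2).2
    rintro (_ | a) (_ | b)
    · simp
    · rw [sub_none_some]
      rw [induce_adj, he, he, hf0, hf1, hva b]
      constructor
      · rintro (h | h)
        · exact Or.inl (Subtype.ext h)
        · exact Or.inr (Subtype.ext h)
      · rintro (h | h)
        · exact Or.inl (congrArg Subtype.val h)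
        · exact Or.inr (congrArg Subtype.val h)
    · rw [sub_some_none]
      rw [induce_adj, he, he, hf0, hf1, G.adj_comm, hva a]
      constructor
      · rintro (h | h)
        · exact Or.inl (Subtype.ext h)
        · exact Or.inr (Subtype.ext h)
      · rintro (h | h)
        · exact Or.inl (congrArg Subtype.val h)
        · exact Or.inr (congrArg Subtype.val h)
    · rw [sub_some_some]
      rw [induce_adj, induce_adj, he, he, hf1, hf1, addE_adj hxy]
      constructor
      · intro h
        refine ⟨Or.inl h, ?_⟩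
        intro he
        rw [Sym2.eq_iff] at he
        rcases he with ⟨h1, h2⟩ | ⟨h1, h2⟩
        · rw [h1, h2] at h
          exact hnadj h
        · rw [h1, h2] at h
          exact hnadj h.symm
      · rintro ⟨h | h | h, he⟩
        · exact h
        · exfalso; apply he
          rw [Sym2.eq_iff]
          exact Or.inl ⟨Subtype.ext h.1, Subtype.ext h.2⟩
        · exfalso; apply he
          rw [Sym2.eq_iff]
          exact Or.inr ⟨Subtype.ext h.1, Subtype.ext h.2⟩

lemma dg_supp {G : SimpleGraph V} {S : Finset V} {v x y w : V}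
    (hx : x ∈ S) (hy : y ∈ S) (hxy : x ≠ y) (hnb : ∀ z ∈ S, (G.Adj v z ↔ z = x ∨ z = y))
    (hv : v ∈ S) (hnadj : ¬ G.Adj x y) (hw : w ∈ S.erase v) :
    dg (addE G x y) (S.erase v) w = dg G S w := by
  have hvx : v ≠ x := ((hnb x hx).2 (Or.inl rfl)).ne
  have hvy : v ≠ y := ((hnb y hy).2 (Or.inr rfl)).ne
  obtain ⟨hwv, hwS⟩ := mem_erase.1 hw
  have key : ∀ x y : V, x ∈ S → y ∈ S → x ≠ y → G.Adj x v → ¬ G.Adj x y → v ≠ y →
      (∀ z, (addE G x y).Adj x z ↔ G.Adj x z ∨ z = y) → dg (addE G x y) (S.erase v) x = dg G S x := by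
    intro x y hx hy hxy hxv hnadj hvy hz
    unfold dg
    have e : (S.erase v).filter (fun z => (addE G x y).Adj x z) =
        insert y ((S.filter (fun z => G.Adj x z)).erase v) := by
      ext z
      simp only [mem_filter, mem_erase, mem_insert, hz]
      constructor
      · rintro ⟨⟨h1, h2⟩, h3 | h3⟩
        · exact Or.inr ⟨h1, h2, h3⟩
        · exact Or.inl h3
      · rintro (rfl | ⟨h1, h2, h3⟩)
        · exact ⟨⟨hvy.symm, hy⟩, Or.inr rfl⟩
        · exact ⟨⟨h1, h2⟩, Or.inl h3⟩
    rw [e, card_insert_of_notMem, card_erase_of_mem]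
    · have : 0 < (S.filter (fun z => G.Adj x z)).card := card_pos.2 ⟨v, mem_filter.2 ⟨hv, hxv⟩⟩
      omega
    · exact mem_filter.2 ⟨hv, hxv⟩
    · simp [hnadj]
  by_cases h1 : w = x
  · subst h1
    refine key w y hx hy hxy ((hnb w hx).2 (Or.inl rfl)).symm hnadj hvy ?_
    intro z
    rw [addE_adj hxy]
    constructor
    · rintro (h | h | h)
      · exact Or.inl h
      · exact Or.inr h.2
      · exact absurd h.1 hxy
    · rintro (h | h)
      · exact Or.inl h
      · exact Or.inr (Or.inl ⟨rfl, h⟩)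
  · by_cases h2 : w = y
    · subst h2
      have hs : addE G x w = addE G w x := by
        ext a b
        rw [addE_adj hxy, addE_adj hxy.symm]
        tauto
      rw [hs]
      refine key w x hy hx hxy.symm ((hnb w hy).2 (Or.inr rfl)).symm
        (fun h => hnadj h.symm) hvx ?_
      intro z
      rw [addE_adj hxy.symm]
      constructor
      · rintro (h | h | h)
        · exact Or.inl h
        · exact Or.inr h.2
        · exact absurd h.1 h1
      · rintro (h | h)
        · exact Or.inl h
        · exact Or.inr (Or.inl ⟨rfl, h⟩)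
    · unfold dg
      congr 1
      ext z
      simp only [mem_filter, mem_erase, addE_adj hxy, h1, h2, false_and, or_false]
      constructor
      · rintro ⟨⟨h3, h4⟩, h5⟩
        exact ⟨h4, h5⟩
      · rintro ⟨h4, h5⟩
        refine ⟨⟨?_, h4⟩, h5⟩
        rintro rfl
        rcases (hnb w hwS).1 h5.symm with h | h
        · exact h1 h
        · exact h2 h

lemma cn_supp {G : SimpleGraph V} {R : Finset V} {v x y : V} (hxy : x ≠ y)
    (hnb : ∀ z ∈ R, G.Adj v z → z = x ∨ z = y) (hv : v ∈ R) (hne : (R.erase v).Nonempty)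
    (hc : Cn G R) : Cn (addE G x y) (R.erase v) := by
  refine ⟨hne, fun T hT hTn hTc => ?_⟩
  have hsub : T ⊆ R := hT.trans (erase_subset _ _)
  have hvT : v ∉ T := fun h => by simpa using hT h
  by_cases h : ∃ u ∈ T, G.Adj v u
  · obtain ⟨u, hu, hvu⟩ := h
    obtain ⟨p, hp, q, hq, hpq⟩ := hc.2 (insert v T) (insert_subset hv hsub) (insert_nonempty _ _) (by
      obtain ⟨z, hz⟩ := hTc
      simp only [mem_sdiff, mem_erase] at hz
      exact ⟨z, by simp [hz]⟩)
    simp only [mem_sdiff, mem_insert, not_or] at hq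
    rcases mem_insert.1 hp with rfl | hpT
    · refine ⟨u, hu, q, by simp [hq], ?_⟩
      have h1 := hnb u (hsub hu) hvu
      have h2 := hnb q hq.1 hpq
      have hne : u ≠ q := by rintro rfl; exact hq.2.2 hu
      rw [addE_adj hxy]
      rcases h1 with rfl | rfl <;> rcases h2 with rfl | rfl
      · exact absurd rfl hne
      · exact Or.inr (Or.inl ⟨rfl, rfl⟩)
      · exact Or.inr (Or.inr ⟨rfl, rfl⟩)
      · exact absurd rfl hne
    · exact ⟨p, hpT, q, by simp [hq], (addE_adj hxy).2 (Or.inl hpq)⟩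
  · push Not at h
    obtain ⟨p, hp, q, hq, hpq⟩ := hc.2 T hsub hTn ⟨v, by simp [hv, hvT]⟩
    rw [mem_sdiff] at hq
    refine ⟨p, hp, q, ?_, (addE_adj hxy).2 (Or.inl hpq)⟩
    rw [mem_sdiff, mem_erase]
    refine ⟨⟨?_, hq.1⟩, hq.2⟩
    rintro rfl
    exact h p hp hpq.symm

/-- the configuration: connected, no cut vertex among `a`, `b`, degrees `3, 3, 2, 2, ...` -/
structure Theta (G : SimpleGraph V) (S : Finset V) (a b : V) : Prop where
  ha : a ∈ S
  hb : b ∈ S
  hab : a ≠ b
  ta : dg G S a = 3
  tb : dg G S b = 3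
  tw : ∀ w ∈ S, w ≠ a → w ≠ b → dg G S w = 2
  c : Cn G S
  ca : Cn G (S.erase a)
  cb : Cn G (S.erase b)

lemma Theta.symm {G : SimpleGraph V} {S : Finset V} {a b : V} (h : Theta G S a b) :
    Theta G S b a :=
  ⟨h.hb, h.ha, h.hab.symm, h.tb, h.ta, fun w hw h1 h2 => h.tw w hw h2 h1, h.c, h.cb, h.ca⟩

lemma dg_two {G : SimpleGraph V} {S : Finset V} {w : V} (h : dg G S w = 2) :
    ∃ x ∈ S, ∃ y ∈ S, x ≠ y ∧ ∀ z ∈ S, (G.Adj w z ↔ z = x ∨ z = y) := by
  obtain ⟨x, y, hxy, he⟩ := card_eq_two.1 h
  have hx : x ∈ S.filter (fun z => G.Adj w z) := by rw [he]; simp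
  have hy : y ∈ S.filter (fun z => G.Adj w z) := by rw [he]; simp
  refine ⟨x, (mem_filter.1 hx).1, y, (mem_filter.1 hy).1, hxy, fun z hz => ?_⟩
  have : z ∈ S.filter (fun z => G.Adj w z) ↔ z = x ∨ z = y := by rw [he]; simp
  rw [← this, mem_filter]
  tauto

/-- if the two neighbours of `w` contain `p ≠ q`, they are `p, q`. -/
lemma dg_two' {G : SimpleGraph V} {S : Finset V} {w p q : V} (h : dg G S w = 2) (hp : p ∈ S)
    (hq : q ∈ S) (hpq : p ≠ q) (h1 : G.Adj w p) (h2 : G.Adj w q) :
    ∀ z ∈ S, G.Adj w z → z = p ∨ z = q := by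
  intro z hz hwz
  obtain ⟨x, _, y, _, hxy, hn⟩ := dg_two h
  have e1 := (hn p hp).1 h1
  have e2 := (hn q hq).1 h2
  have e3 := (hn z hz).1 hwz
  rcases e1 with rfl | rfl <;> rcases e2 with rfl | rfl <;> rcases e3 with rfl | rfl <;> tauto

lemma theta_base_aux {G : SimpleGraph V} {S : Finset V} {a b : V} (h : Theta G S a b)
    {v x y : V} (hv : v ∈ S) (hva : v ≠ a) (hx : x ∈ S) (hy : y ∈ S) (hxy : x ≠ y)
    (hnb : ∀ z ∈ S, (G.Adj v z ↔ z = x ∨ z = y)) (hadj : G.Adj x y) (hvb : v ≠ b) :
    x = a ∨ x = b := by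
  by_contra hcon
  push Not at hcon
  have hvx := (hnb x hx).2 (Or.inl rfl)
  have hvy := (hnb y hy).2 (Or.inr rfl)
  have nx := dg_two' (h.tw x hx hcon.1 hcon.2) hv hy hvy.ne hvx.symm hadj
  by_cases hya : y = a
  · subst hya
    obtain ⟨p, hp, q, hq, hpq⟩ := h.ca.2 {v, x} (by
        intro z hz
        simp only [mem_insert, mem_singleton] at hz
        rcases hz with rfl | rfl
        · exact mem_erase.2 ⟨hva, hv⟩
        · exact mem_erase.2 ⟨hcon.1, hx⟩) (by simp)
      ⟨b, by simp [h.hab.symm, h.hb, hvb.symm, hcon.2.symm]⟩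
    simp only [mem_insert, mem_singleton, mem_sdiff, mem_erase, not_or] at hp hq
    rcases hp with rfl | rfl
    · rcases (hnb q hq.1.2).1 hpq with h | h
      · exact hq.2.2 h
      · exact hq.1.1 h
    · rcases nx q hq.1.2 hpq with h | h
      · exact hq.2.1 h
      · exact hq.1.1 h
  · by_cases hyb : y = b
    · subst hyb
      obtain ⟨p, hp, q, hq, hpq⟩ := h.cb.2 {v, x} (by
          intro z hz
          simp only [mem_insert, mem_singleton] at hz
          rcases hz with rfl | rfl
          · exact mem_erase.2 ⟨hvb, hv⟩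
          · exact mem_erase.2 ⟨hcon.2, hx⟩) (by simp)
        ⟨a, by simp [h.hab, h.ha, hva.symm, hcon.1.symm]⟩
      simp only [mem_insert, mem_singleton, mem_sdiff, mem_erase, not_or] at hp hq
      rcases hp with rfl | rfl
      · rcases (hnb q hq.1.2).1 hpq with h | h
        · exact hq.2.2 h
        · exact hq.1.1 h
      · rcases nx q hq.1.2 hpq with h | h
        · exact hq.2.1 h
        · exact hq.1.1 h
    · have ny := dg_two' (h.tw y hy hya hyb) hv hx hvx.ne hvy.symm hadj.symm
      obtain ⟨p, hp, q, hq, hpq⟩ := h.c.2 {v, x, y} (by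
          intro z hz
          simp only [mem_insert, mem_singleton] at hz
          rcases hz with rfl | rfl | rfl <;> assumption) (by simp)
        ⟨a, by simp [h.ha, hva.symm, hcon.1.symm, Ne.symm hya]⟩
      simp only [mem_insert, mem_singleton, mem_sdiff, not_or] at hp hq
      rcases hp with rfl | rfl | rfl
      · rcases (hnb q hq.1).1 hpq with h | h
        · exact hq.2.2.1 h
        · exact hq.2.2.2 h
      · rcases nx q hq.1 hpq with h | h
        · exact hq.2.1 h
        · exact hq.2.2.2 h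
      · rcases ny q hq.1 hpq with h | h
        · exact hq.2.1 h
        · exact hq.2.2.1 h

theorem theta_sub : ∀ (n : ℕ) (G : SimpleGraph V) (S : Finset V) (a b : V), S.card ≤ n →
    Theta G S a b → IsSubdivision diamond (G.induce (S : Set V)) := by
  intro n
  induction n with
  | zero =>
    intro G S a b hn h
    have := card_pos.2 ⟨a, h.ha⟩
    omega
  | succ n ih =>
    intro G S a b hn h
    by_cases hex : ∃ v ∈ S, v ≠ a ∧ v ≠ b ∧ ∃ x ∈ S, ∃ y ∈ S, x ≠ y ∧
        (∀ z ∈ S, (G.Adj v z ↔ z = x ∨ z = y)) ∧ ¬ G.Adj x y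
    · obtain ⟨v, hv, hva, hvb, x, hx, y, hy, hxy, hnb, hnadj⟩ := hex
      refine suppress hv hx hy hxy hnb hnadj (ih _ _ a b ?_ ?_)
      · rw [card_erase_of_mem hv]; omega
      · have hd := fun w hw => dg_supp hx hy hxy hnb hv hnadj (w := w) hw
        have ha' : a ∈ S.erase v := mem_erase.2 ⟨hva.symm, h.ha⟩
        have hb' : b ∈ S.erase v := mem_erase.2 ⟨hvb.symm, h.hb⟩
        refine ⟨ha', hb', h.hab, by rw [hd a ha']; exact h.ta, by rw [hd b hb']; exact h.tb,
          ?_, ?_, ?_, ?_⟩
        · intro w hw h1 h2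
          rw [hd w hw]
          exact h.tw w (mem_erase.1 hw).2 h1 h2
        · exact cn_supp hxy (fun z hz => (hnb z hz).1) hv ⟨a, ha'⟩ h.c
        · rw [erase_right_comm]
          refine cn_supp hxy (fun z hz => (hnb z (mem_erase.1 hz).2).1) (mem_erase.2 ⟨hva, hv⟩)
            ⟨b, ?_⟩ h.ca
          simp [hvb.symm, h.hab.symm, h.hb]
        · rw [erase_right_comm]
          refine cn_supp hxy (fun z hz => (hnb z (mem_erase.1 hz).2).1) (mem_erase.2 ⟨hvb, hv⟩)
            ⟨a, ?_⟩ h.cb
          simp [hva.symm, h.hab, h.ha]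
    · push Not at hex
      have hN : ∀ v ∈ S, v ≠ a → v ≠ b → (∀ z ∈ S, (G.Adj v z ↔ z = a ∨ z = b)) ∧ G.Adj a b := by
        intro v hv hva hvb
        obtain ⟨x, hx, y, hy, hxy, hnb⟩ := dg_two (h.tw v hv hva hvb)
        have hadj := hex v hv hva hvb x hx y hy hxy hnb
        have e1 := theta_base_aux h hv hva hx hy hxy hnb hadj hvb
        have e2 := theta_base_aux h hv hva hy hx hxy.symm
          (fun z hz => by rw [hnb z hz]; tauto) hadj.symm hvb
        rcases e1 with rfl | rfl <;> rcases e2 with rfl | rfl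
        · exact absurd rfl hxy
        · exact ⟨hnb, hadj⟩
        · exact ⟨fun z hz => by rw [hnb z hz]; tauto, hadj.symm⟩
        · exact absurd rfl hxy
      -- a common vertex
      have h2 : 2 ≤ ((S.filter (fun z => G.Adj a z)).erase b).card := by
        have h3 : (S.filter (fun z => G.Adj a z)).card = 3 := h.ta
        by_cases hbm : b ∈ S.filter (fun z => G.Adj a z)
        · rw [card_erase_of_mem hbm]; omega
        · rw [erase_eq_of_notMem hbm]; omega
      obtain ⟨v0, hv0⟩ : ((S.filter (fun z => G.Adj a z)).erase b).Nonempty :=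
        card_pos.1 (by omega)
      rw [mem_erase, mem_filter] at hv0
      have hadj : G.Adj a b := (hN v0 hv0.2.1 hv0.2.2.ne' hv0.1).2
      have h3 : ((S.filter (fun z => G.Adj a z)).erase b).card = 2 := by
        have h3 := h.ta
        unfold dg at h3
        rw [card_erase_of_mem (mem_filter.2 ⟨h.hb, hadj⟩), h3]
      obtain ⟨c, d, hcd, he⟩ := card_eq_two.1 h3
      have hc : c ∈ (S.filter (fun z => G.Adj a z)).erase b := by rw [he]; simp
      have hd : d ∈ (S.filter (fun z => G.Adj a z)).erase b := by rw [he]; simp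
      rw [mem_erase, mem_filter] at hc hd
      have hcN := (hN c hc.2.1 hc.2.2.ne' hc.1).1
      have hdN := (hN d hd.2.1 hd.2.2.ne' hd.1).1
      have hS : ∀ z ∈ S, z = a ∨ z = b ∨ z = c ∨ z = d := by
        intro z hz
        by_cases hza : z = a
        · exact Or.inl hza
        · by_cases hzb : z = b
          · exact Or.inr (Or.inl hzb)
          · have h4 := ((hN z hz hza hzb).1 a h.ha).2 (Or.inl rfl)
            have : z ∈ (S.filter (fun z => G.Adj a z)).erase b :=
              mem_erase.2 ⟨hzb, mem_filter.2 ⟨hz, h4.symm⟩⟩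
            rw [he] at this
            simp only [mem_insert, mem_singleton] at this
            tauto
      have hac : G.Adj a c := hc.2.2
      have had : G.Adj a d := hd.2.2
      have hbc : G.Adj b c := ((hcN b h.hb).2 (Or.inr rfl)).symm
      have hbd : G.Adj b d := ((hdN b h.hb).2 (Or.inr rfl)).symm
      have hncd : ¬ G.Adj c d := by
        intro h5
        rcases (hcN d hd.2.1).1 h5 with h6 | h6
        · exact had.ne h6.symm
        · exact hbd.ne h6.symm
      have n1 := h.hab
      have n2 := hac.ne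
      have n3 := had.ne
      have n4 := hbc.ne
      have n5 := hbd.ne
      refine iso_of ![a, b, c, d] ?_ ?_ ?_ ?_
      · intro i j hij
        fin_cases i <;> fin_cases j <;> simp at hij ⊢ <;> simp_all
      · intro i
        fin_cases i <;> simp [h.ha, h.hb, hc.2.1, hd.2.1]
      · intro z hz
        rcases hS z hz with rfl | rfl | rfl | rfl
        · exact ⟨0, rfl⟩
        · exact ⟨1, rfl⟩
        · exact ⟨2, rfl⟩
        · exact ⟨3, rfl⟩
      · intro i j
        fin_cases i <;> fin_cases j <;>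
          simp [diamond, hadj, hadj.symm, hac, hac.symm, had, had.symm, hbc, hbc.symm, hbd,
            hbd.symm, hncd, G.adj_comm d c]

lemma Theta.itm {G : SimpleGraph V} {S : Finset V} {a b : V} (h : Theta G S a b) :
    IsITM diamond G :=
  ⟨_, _, theta_sub S.card G S a b le_rfl h, ⟨Embedding.induce (S : Set V)⟩⟩

/-! ### the paw -/

structure PawC (G : SimpleGraph V) (C : Finset V) (v u : V) : Prop where
  c : Cn G C
  tw : ∀ w ∈ C, dg G C w = 2
  hu : u ∈ C
  hv : v ∉ C
  nb : ∀ z ∈ C, (G.Adj v z ↔ z = u)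

theorem paw_sub : ∀ (n : ℕ) (G : SimpleGraph V) (C : Finset V) (v u : V), C.card ≤ n →
    PawC G C v u → IsSubdivision paw (G.induce ((insert v C : Finset V) : Set V)) := by
  intro n
  induction n with
  | zero =>
    intro G C v u hn h
    have := card_pos.2 ⟨u, h.hu⟩
    omega
  | succ n ih =>
    intro G C v u hn h
    by_cases hex : ∃ w ∈ C, w ≠ u ∧ ∃ x ∈ C, ∃ y ∈ C, x ≠ y ∧
        (∀ z ∈ C, (G.Adj w z ↔ z = x ∨ z = y)) ∧ ¬ G.Adj x y
    · obtain ⟨w, hw, hwu, x, hx, y, hy, hxy, hnb, hnadj⟩ := hex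
      have hxv : x ≠ v := by rintro rfl; exact h.hv hx
      have hyv : y ≠ v := by rintro rfl; exact h.hv hy
      have hwv : w ≠ v := by rintro rfl; exact h.hv hw
      have hnb' : ∀ z ∈ insert v C, (G.Adj w z ↔ z = x ∨ z = y) := by
        intro z hz
        rcases mem_insert.1 hz with rfl | hz
        · constructor
          · intro h1
            exact absurd ((h.nb w hw).1 h1.symm) hwu
          · rintro (h1 | h1)
            · exact absurd h1.symm hxv
            · exact absurd h1.symm hyv
        · exact hnb z hz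
      refine suppress (mem_insert_of_mem hw) (mem_insert_of_mem hx) (mem_insert_of_mem hy) hxy hnb'
        hnadj ?_
      rw [erase_insert_of_ne hwv.symm]
      refine ih _ _ v u ?_ ?_
      · rw [card_erase_of_mem hw]; omega
      · refine ⟨?_, ?_, ?_, ?_, ?_⟩
        · refine cn_supp hxy (fun z hz => (hnb z hz).1) hw ⟨u, mem_erase.2 ⟨hwu.symm, h.hu⟩⟩ h.c
        · intro z hz
          rw [dg_supp hx hy hxy hnb hw hnadj hz]
          exact h.tw z (mem_erase.1 hz).2
        · exact mem_erase.2 ⟨hwu.symm, h.hu⟩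
        · intro h1; exact h.hv (mem_erase.1 h1).2
        · intro z hz
          rw [addE_adj hxy, ← h.nb z (mem_erase.1 hz).2]
          constructor
          · rintro (h1 | h1 | h1)
            · exact h1
            · exact absurd h1.1.symm hxv
            · exact absurd h1.1.symm hyv
          · exact Or.inl
    · push Not at hex
      -- the triangle
      have hcc : 2 ≤ (C.filter (fun z => G.Adj u z)).card := le_of_eq (h.tw u h.hu).symm
      obtain ⟨w, hw⟩ : (C.filter (fun z => G.Adj u z)).Nonempty := card_pos.1 (by omega)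
      rw [mem_filter] at hw
      obtain ⟨x, hx, y, hy, hxy, hnb⟩ := dg_two (h.tw w hw.1)
      have hadj := hex w hw.1 hw.2.ne' x hx y hy hxy hnb
      -- another vertex
      obtain ⟨t, ht, hwt, htu, htadj⟩ : ∃ t ∈ C, G.Adj w t ∧ t ≠ u ∧ G.Adj t u := by
        rcases (hnb u h.hu).1 hw.2.symm with h1 | h1
        · subst h1
          exact ⟨y, hy, (hnb y hy).2 (Or.inr rfl), hxy.symm, hadj.symm⟩
        · subst h1
          exact ⟨x, hx, (hnb x hx).2 (Or.inl rfl), hxy, hadj⟩
      have k1 := dg_two' (h.tw w hw.1) h.hu ht (Ne.symm htu) hw.2.symm hwt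
      have k2 := dg_two' (h.tw u h.hu) hw.1 ht hwt.ne hw.2 htadj.symm
      have k3 := dg_two' (h.tw t ht) hw.1 h.hu hw.2.ne' hwt.symm htadj
      have hC : ∀ z ∈ C, z = u ∨ z = w ∨ z = t := by
        by_contra hcon
        push Not at hcon
        obtain ⟨z, hz, hz1, hz2, hz3⟩ := hcon
        obtain ⟨p, hp, q, hq, hpq⟩ := h.c.2 {u, w, t} (by
          intro z hz
          simp only [mem_insert, mem_singleton] at hz
          rcases hz with rfl | rfl | rfl
          · exact h.hu
          · exact hw.1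
          · exact ht) (by simp) ⟨z, by simp [hz, hz1, hz2, hz3]⟩
        simp only [mem_insert, mem_singleton, mem_sdiff, not_or] at hp hq
        rcases hp with rfl | rfl | rfl
        · rcases k2 q hq.1 hpq with h | h
          · exact hq.2.2.1 h
          · exact hq.2.2.2 h
        · rcases k1 q hq.1 hpq with h | h
          · exact hq.2.1 h
          · exact hq.2.2.2 h
        · rcases k3 q hq.1 hpq with h | h
          · exact hq.2.2.1 h
          · exact hq.2.1 h
      have hvu : G.Adj v u := (h.nb u h.hu).2 rfl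
      have hvw : ¬ G.Adj v w := fun h1 => hw.2.ne' ((h.nb w hw.1).1 h1)
      have hvt : ¬ G.Adj v t := fun h1 => htu ((h.nb t ht).1 h1)
      have n1 : u ≠ w := hw.2.ne
      have n2 : u ≠ t := Ne.symm htu
      have n3 : u ≠ v := hvu.ne'
      have n4 : w ≠ t := hwt.ne
      have n5 : w ≠ v := by rintro rfl; exact h.hv hw.1
      have n6 : t ≠ v := by rintro rfl; exact h.hv ht
      refine iso_of ![u, w, t, v] ?_ ?_ ?_ ?_
      · intro i j hij
        fin_cases i <;> fin_cases j <;> simp at hij ⊢ <;> simp_all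
      · intro i
        fin_cases i <;> simp [h.hu, hw.1, ht]
      · intro z hz
        rcases mem_insert.1 hz with rfl | hz
        · exact ⟨3, rfl⟩
        · rcases hC z hz with rfl | rfl | rfl
          · exact ⟨0, rfl⟩
          · exact ⟨1, rfl⟩
          · exact ⟨2, rfl⟩
      · intro i j
        fin_cases i <;> fin_cases j <;>
          simp [paw, hw.2, hw.2.symm, hwt, hwt.symm, htadj, htadj.symm, hvu, hvu.symm, hvw, hvt,
            G.adj_comm w v, G.adj_comm t v]

lemma PawC.itm {G : SimpleGraph V} {C : Finset V} {v u : V} (h : PawC G C v u) :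
    IsITM paw G :=
  ⟨_, _, paw_sub C.card G C v u le_rfl h, ⟨Embedding.induce _⟩⟩

end Q109.ITM
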