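import Pool.Agent.H175R2.Defs

/-! Induced topological minors. -/

namespace Q109.ITM

/-- The graph obtained from `G` by subdividing the edge `uv` once: the edge `uv` is deleted and a
new vertex `none` is joined to `u` and to `v`. -/
def subdivideEdge {V : Type} (G : SimpleGraph V) (u v : V) : SimpleGraph (Option V) :=
  SimpleGraph.fromRel (fun x y =>
    (∃ a b, x = some a ∧ y = some b ∧ G.Adj a b ∧ s(a, b) ≠ s(u, v)) ∨
    (x = none ∧ (y = some u ∨ y = some v)))

/-- `IsSubdivision G X`: the graph `X` is (isomorphic to) a graph obtained from `G` by a sequence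
of zero or more subdivisions of edges. -/
inductive IsSubdivision : ∀ {V W : Type}, SimpleGraph V → SimpleGraph W → Prop
  | iso {V W : Type} {G : SimpleGraph V} {X : SimpleGraph W} (e : G ≃g X) : IsSubdivision G X
  | step {V W : Type} {G : SimpleGraph V} {X : SimpleGraph W} {u v : V} (huv : G.Adj u v)
      (h : IsSubdivision (subdivideEdge G u v) X) : IsSubdivision G X

/-- `H` is an induced topological minor of `G`: some subdivision of `H` is isomorphic to an
induced subgraph of `G`. -/
def IsITM {W V : Type} (H : SimpleGraph W) (G : SimpleGraph V) : Prop :=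
  ∃ (U : Type) (X : SimpleGraph U), IsSubdivision H X ∧ Nonempty (X ↪g G)

/-- Clique-width is bounded on the class of finite graphs that do not contain `H` as an induced
topological minor. -/
def BoundedCliqueWidth {W : Type} (H : SimpleGraph W) : Prop :=
  ∃ c : ℕ, ∀ (V : Type) [Finite V] (G : SimpleGraph V), ¬ IsITM H G →
    Pool.Agent.H175R2.cliqueWidth G ≤ c

/-- the path on four vertices -/
def P4 : SimpleGraph (Fin 4) := SimpleGraph.fromRel (fun x y => x.val + 1 = y.val)

end Q109.ITM
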