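import Pool.Agent.Q109.ITM.Paths
import Pool.Agent.Q109.ITM.Blocks

/-! Structure of graphs without an induced subdivision of the diamond. -/

namespace Q109.ITM

open SimpleGraph Finset Classical Pool.Agent.H175R2

variable {V W : Type}

/-- a cycle with a chord -/
lemma chord_theta {G : SimpleGraph V} {m j : ℕ} {p : ℕ → V} {y : V} (h : IPath G m p) (h0 : 0 < j)
    (hj : j < m) (hy : ∀ i ≤ m, p i ≠ y)
    (hadj : ∀ i ≤ m, (G.Adj y (p i) ↔ i = 0 ∨ i = j ∨ i = m)) : IsITM diamond G := by
  have hyP : y ∉ pset p m := by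
    rw [mem_pset]
    rintro ⟨i, hi, he⟩
    exact hy i hi he
  have hdis : Disjoint {y} (pset p m) := by simpa using hyP
  have hm0 : p 0 ∈ pset p m := mem_pset.2 ⟨0, by omega, rfl⟩
  have hmj : p j ∈ pset p m := mem_pset.2 ⟨j, by omega, rfl⟩
  have hmm : p m ∈ pset p m := mem_pset.2 ⟨m, by omega, rfl⟩
  have hne : ∀ a b, a ≤ m → b ≤ m → a ≠ b → p a ≠ p b := fun a b ha hb hab he =>
    hab ((h a ha b hb).1 he)
  have dy : ∀ i ≤ m, dg G {y} (p i) = if i = 0 ∨ i = j ∨ i = m then 1 else 0 := by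
    intro i hi
    split_ifs with hc
    · refine dg_eq_one (mem_singleton_self y) ?_
      intro z hz
      rw [mem_singleton] at hz
      subst hz
      rw [G.adj_comm, hadj i hi]
      simp [hc]
    · apply dg_eq_zero
      intro z hz
      rw [mem_singleton] at hz
      subst hz
      rw [G.adj_comm, hadj i hi]
      exact hc
  have hyj : G.Adj y (p j) := (hadj j (by omega)).2 (Or.inr (Or.inl rfl))
  have hy0 : G.Adj y (p 0) := (hadj 0 (by omega)).2 (Or.inl rfl)
  have hym : G.Adj y (p m) := (hadj m (by omega)).2 (Or.inr (Or.inr rfl))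
  refine Theta.itm (S := {y} ∪ pset p m) (a := y) (b := p j) ⟨?_, ?_, ?_, ?_, ?_, ?_, ?_, ?_, ?_⟩
  · simp
  · exact mem_union_right _ hmj
  · exact (hy j (by omega)).symm
  · rw [dg_union hdis]
    have e1 : dg G {y} y = 0 := dg_eq_zero (by intro z hz; rw [mem_singleton] at hz; subst hz; simp)
    have e2 : dg G (pset p m) y = 3 := by
      refine dg_eq_three hm0 hmj hmm (hne _ _ (by omega) (by omega) (by omega))
        (hne _ _ (by omega) (by omega) (by omega)) (hne _ _ (by omega) (by omega) (by omega)) ?_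
      intro z hz
      obtain ⟨i, hi, rfl⟩ := mem_pset.1 hz
      rw [hadj i hi]
      constructor
      · rintro (rfl | rfl | rfl) <;> simp
      · rintro (h1 | h1 | h1)
        · exact Or.inl ((h _ hi _ (by omega)).1 h1)
        · exact Or.inr (Or.inl ((h _ hi _ (by omega)).1 h1))
        · exact Or.inr (Or.inr ((h _ hi _ (by omega)).1 h1))
    rw [e1, e2]
  · rw [dg_union hdis, dy j (by omega), h.dg_int h0 hj, if_pos (Or.inr (Or.inl rfl))]
  · intro w hw hwy hwj
    rcases mem_union.1 hw with hw | hw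
    · exact absurd (mem_singleton.1 hw) hwy
    · obtain ⟨i, hi, rfl⟩ := mem_pset.1 hw
      have hij : i ≠ j := fun he => hwj (by rw [he])
      rw [dg_union hdis, dy i hi]
      by_cases hi0 : i = 0
      · subst hi0
        rw [h.dg_zero (by omega), if_pos (Or.inl rfl)]
      · by_cases him : i = m
        · subst him
          rw [h.dg_last (by omega), if_pos (Or.inr (Or.inr rfl))]
        · rw [h.dg_int (by omega) (by omega), if_neg (by tauto)]
  · exact (Cn.singleton y).union h.cn (Or.inl ⟨y, by simp, p 0, hm0, hy0⟩)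
  · have e : ({y} ∪ pset p m).erase y = pset p m := by
      ext z
      simp only [mem_erase, mem_union, mem_singleton]
      constructor
      · rintro ⟨h1, h2 | h2⟩
        · exact absurd h2 h1
        · exact h2
      · intro h2
        exact ⟨by rintro rfl; exact hyP h2, Or.inr h2⟩
    rw [e]
    exact h.cn
  · have e : ({y} ∪ pset p m).erase (p j) =
        ({y} ∪ pset (fun t => p (0 + t)) (j - 1)) ∪ pset (fun t => p (j + 1 + t)) (m - j - 1) := by
      ext z
      simp only [mem_erase, mem_union, mem_singleton, mem_pset]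
      constructor
      · rintro ⟨h1, h2 | ⟨i, hi, rfl⟩⟩
        · exact Or.inl (Or.inl h2)
        · have hij : i ≠ j := fun he => h1 (by rw [he])
          by_cases h3 : i < j
          · exact Or.inl (Or.inr ⟨i, by omega, by simp⟩)
          · exact Or.inr ⟨i - (j + 1), by omega, by rw [show j + 1 + (i - (j + 1)) = i by omega]⟩
      · rintro ((rfl | ⟨i, hi, rfl⟩) | ⟨i, hi, rfl⟩)
        · exact ⟨fun he => hy j (by omega) he.symm, Or.inl rfl⟩
        · exact ⟨hne _ _ (by omega) (by omega) (by omega), Or.inr ⟨0 + i, by omega, rfl⟩⟩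
        · exact ⟨hne _ _ (by omega) (by omega) (by omega), Or.inr ⟨j + 1 + i, by omega, rfl⟩⟩
    rw [e]
    refine ((Cn.singleton y).union (h.sub (i := 0) (by omega)).cn
      (Or.inl ⟨y, by simp, p (0 + 0), mem_pset.2 ⟨0, by omega, rfl⟩, hy0⟩)).union
      (h.sub (i := j + 1) (by omega)).cn (Or.inl ⟨y, by simp, p m, mem_pset.2 ⟨m - j - 1, le_rfl, ?_⟩, hym⟩)
    rw [show j + 1 + (m - j - 1) = m by omega]

lemma three_sorted {G : SimpleGraph V} {m : ℕ} {p : ℕ → V} {y : V} (h : IPath G m p)
    (hy : ∀ i ≤ m, p i ≠ y) {a b c : ℕ} (hab : a < b) (hbc : b < c) (hc : c ≤ m)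
    (ha' : G.Adj y (p a)) (hb' : G.Adj y (p b)) (hc' : G.Adj y (p c)) : IsITM diamond G := by
  have e1 : ∃ t, G.Adj y (p t) := ⟨a, ha'⟩
  set i := Nat.find e1 with hi
  have hia : i ≤ a := Nat.find_min' e1 ha'
  have e2 : ∃ t, i < t ∧ G.Adj y (p t) := ⟨b, by omega, hb'⟩
  set j := Nat.find e2 with hj
  have hjb : j ≤ b := Nat.find_min' e2 ⟨by omega, hb'⟩
  have e3 : ∃ t, j < t ∧ G.Adj y (p t) := ⟨c, by omega, hc'⟩
  set k := Nat.find e3 with hk
  have hkc : k ≤ c := Nat.find_min' e3 ⟨by omega, hc'⟩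
  have si := Nat.find_spec e1
  obtain ⟨sj1, sj2⟩ := Nat.find_spec e2
  obtain ⟨sk1, sk2⟩ := Nat.find_spec e3
  rw [← hi] at si
  rw [← hj] at sj1 sj2
  rw [← hk] at sk1 sk2
  refine chord_theta (m := k - i) (j := j - i) (p := fun t => p (i + t)) (y := y)
    (h.sub (by omega)) (by omega) (by omega) (fun t ht => hy _ (by omega)) ?_
  intro t ht
  constructor
  · intro hadj
    by_contra hcon
    push Not at hcon
    have h1 : ¬ t < 0 := by omega
    by_cases h2 : i + t < j
    · exact Nat.find_min e2 h2 ⟨by omega, hadj⟩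
    · exact Nat.find_min e3 (show i + t < k by omega) ⟨by omega, hadj⟩
  · rintro (rfl | rfl | rfl)
    · exact si
    · rw [show i + (j - i) = j by omega]; exact sj2
    · rw [show i + (k - i) = k by omega]; exact sk2

lemma three_nbrs {G : SimpleGraph V} {m : ℕ} {p : ℕ → V} {y : V} (h : IPath G m p)
    (hy : ∀ i ≤ m, p i ≠ y) (hc : 3 ≤ dg G (pset p m) y) : IsITM diamond G := by
  unfold dg at hc
  obtain ⟨a', ha, b', hb, c', hc, hab, hac, hbc⟩ := Finset.two_lt_card.1 hc
  rw [mem_filter, mem_pset] at ha hb hc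
  obtain ⟨⟨a, ha, rfl⟩, ha'⟩ := ha
  obtain ⟨⟨b, hb, rfl⟩, hb'⟩ := hb
  obtain ⟨⟨c, hc, rfl⟩, hc'⟩ := hc
  have nab : a ≠ b := fun he => hab (by rw [he])
  have nac : a ≠ c := fun he => hac (by rw [he])
  have nbc : b ≠ c := fun he => hbc (by rw [he])
  rcases lt_or_gt_of_ne nab with h1 | h1
  · rcases lt_or_gt_of_ne nbc with h2 | h2
    · exact three_sorted h hy h1 h2 hc ha' hb' hc'
    · rcases lt_or_gt_of_ne nac with h3 | h3
      · exact three_sorted h hy h3 h2 hb ha' hc' hb'
      · exact three_sorted h hy h3 h1 hb hc' ha' hb'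
  · rcases lt_or_gt_of_ne nac with h2 | h2
    · exact three_sorted h hy h1 h2 hc hb' ha' hc'
    · rcases lt_or_gt_of_ne nbc with h3 | h3
      · exact three_sorted h hy h3 h2 ha hb' hc' ha'
      · exact three_sorted h hy h3 h1 ha hc' hb' ha'

/-- a cycle and a path attached to it -/
lemma cyc_theta {G : SimpleGraph V} {n m : ℕ} {c p : ℕ → V} {x y : V} (hc : ICyc G n c)
    (h : IPath G m p) (hout : ∀ i ≤ m, p i ∉ cset c n) (hx : x ∈ cset c n) (hy : y ∈ cset c n)
    (hxy : x ≠ y)
    (hadj : ∀ i ≤ m, ∀ z ∈ cset c n, (G.Adj (p i) z ↔ (i = 0 ∧ z = x) ∨ (i = m ∧ z = y))) :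
    IsITM diamond G := by
  have hdis : Disjoint (cset c n) (pset p m) := by
    rw [Finset.disjoint_left]
    intro z hz hz'
    obtain ⟨i, hi, rfl⟩ := mem_pset.1 hz'
    exact hout i hi hz
  have hm0 : p 0 ∈ pset p m := mem_pset.2 ⟨0, by omega, rfl⟩
  have hmm : p m ∈ pset p m := mem_pset.2 ⟨m, by omega, rfl⟩
  have h0x : G.Adj (p 0) x := (hadj 0 (by omega) x hx).2 (Or.inl ⟨rfl, rfl⟩)
  have hmy : G.Adj (p m) y := (hadj m (by omega) y hy).2 (Or.inr ⟨rfl, rfl⟩)
  have hxP : x ∉ pset p m := fun h => (Finset.disjoint_left.1 hdis) hx h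
  have hyP : y ∉ pset p m := fun h => (Finset.disjoint_left.1 hdis) hy h
  have er : ∀ z, z ∈ cset c n → (cset c n ∪ pset p m).erase z = (cset c n).erase z ∪ pset p m := by
    intro z hz
    rw [erase_union_distrib, erase_eq_of_notMem (s := pset p m)]
    exact fun h => (Finset.disjoint_left.1 hdis) hz h
  refine Theta.itm (S := cset c n ∪ pset p m) (a := x) (b := y) ⟨mem_union_left _ hx,
    mem_union_left _ hy, hxy, ?_, ?_, ?_, ?_, ?_, ?_⟩
  · rw [dg_union hdis, hc.dg hx, dg_eq_one (u := p 0) hm0]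
    intro z hz
    obtain ⟨i, hi, rfl⟩ := mem_pset.1 hz
    rw [G.adj_comm, hadj i hi x hx]
    constructor
    · rintro (⟨rfl, _⟩ | ⟨_, h1⟩)
      · rfl
      · exact absurd h1 hxy
    · intro h1
      exact Or.inl ⟨(h _ hi _ (by omega)).1 h1, rfl⟩
  · rw [dg_union hdis, hc.dg hy, dg_eq_one (u := p m) hmm]
    intro z hz
    obtain ⟨i, hi, rfl⟩ := mem_pset.1 hz
    rw [G.adj_comm, hadj i hi y hy]
    constructor
    · rintro (⟨_, h1⟩ | ⟨rfl, _⟩)
      · exact absurd h1.symm hxy
      · rfl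
    · intro h1
      exact Or.inr ⟨(h _ hi _ (by omega)).1 h1, rfl⟩
  · intro w hw hwx hwy
    rcases mem_union.1 hw with hw | hw
    · rw [dg_union hdis, hc.dg hw, dg_eq_zero]
      intro z hz
      obtain ⟨i, hi, rfl⟩ := mem_pset.1 hz
      rw [G.adj_comm, hadj i hi w hw]
      tauto
    · obtain ⟨i, hi, rfl⟩ := mem_pset.1 hw
      rw [dg_union hdis]
      by_cases hm : m = 0
      · subst hm
        have hi0 : i = 0 := by omega
        subst hi0
        rw [IPath.dg_single, dg_eq_two (u := x) (t := y) hx hy hxy]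
        intro z hz
        rw [hadj 0 le_rfl z hz]
        tauto
      · by_cases hi0 : i = 0
        · subst hi0
          rw [h.dg_zero (by omega), dg_eq_one (u := x) hx]
          intro z hz
          rw [hadj 0 (by omega) z hz]
          have : ¬ 0 = m := fun he => hm he.symm
          tauto
        · by_cases him : i = m
          · subst him
            rw [h.dg_last (by omega), dg_eq_one (u := y) hy]
            intro z hz
            rw [hadj i (by omega) z hz]
            tauto
          · rw [h.dg_int (by omega) (by omega), dg_eq_zero]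
            intro z hz
            rw [hadj i hi z hz]
            tauto
  · exact hc.cn.union h.cn (Or.inl ⟨x, hx, p 0, hm0, h0x.symm⟩)
  · rw [er x hx]
    exact (hc.cn_erase hx).union h.cn (Or.inl ⟨y, mem_erase.2 ⟨hxy.symm, hy⟩, p m, hmm, hmy.symm⟩)
  · rw [er y hy]
    exact (hc.cn_erase hy).union h.cn (Or.inl ⟨x, mem_erase.2 ⟨hxy, hx⟩, p 0, hm0, h0x.symm⟩)

lemma ICyc.card {G : SimpleGraph V} {n : ℕ} {c : ℕ → V} (h : ICyc G n c) :
    (cset c n).card = n := by
  unfold cset
  rw [card_image_of_injOn, card_range]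
  intro i hi j hj hij
  have := (h.2 i j).1.1 hij
  rw [coe_range, Set.mem_Iio] at hi hj
  rwa [Nat.mod_eq_of_lt hi, Nat.mod_eq_of_lt hj] at this

/-- a vertex with three neighbours on a cycle of length at least four -/
lemma cyc_three {G : SimpleGraph V} {n : ℕ} {c : ℕ → V} (hc : ICyc G n c) (hn : 4 ≤ n) {v : V}
    (hv : v ∉ cset c n) (h3 : 3 ≤ dg G (cset c n) v) : IsITM diamond G := by
  obtain ⟨z, hz, hz3⟩ : ∃ z ∈ cset c n, 3 ≤ dg G ((cset c n).erase z) v := by
    have key : ∀ z, dg G ((cset c n).erase z) v =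
        (((cset c n).filter (fun w => G.Adj v w)).erase z).card := by
      intro z
      unfold dg
      congr 1
      ext w
      simp only [mem_filter, mem_erase]
      tauto
    by_cases h4 : 4 ≤ dg G (cset c n) v
    · obtain ⟨z, hz⟩ : ((cset c n).filter (fun w => G.Adj v w)).Nonempty :=
        card_pos.1 (by unfold dg at h4; omega)
      refine ⟨z, (mem_filter.1 hz).1, ?_⟩
      rw [key, card_erase_of_mem hz]
      unfold dg at h4
      omega
    · have hlt : ((cset c n).filter (fun w => G.Adj v w)).card < (cset c n).card := by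
        rw [hc.card]
        unfold dg at h4
        omega
      obtain ⟨z, hz, hz'⟩ := exists_mem_notMem_of_card_lt_card hlt
      refine ⟨z, hz, ?_⟩
      rw [key, erase_eq_of_notMem hz']
      exact h3
  obtain ⟨i, rfl⟩ := (mem_cset hc).1 hz
  rw [hc.erase i] at hz3
  refine three_nbrs (hc.path (i + 1)) ?_ hz3
  intro t _ he
  exact hv (he ▸ (mem_cset hc).2 ⟨_, rfl⟩)

/-- main structural step -/
lemma cyc_all [Fintype V] {G : SimpleGraph V} (h2 : TwoConn G) (hno : ¬ IsITM diamond G) {n : ℕ}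
    {c : ℕ → V} (hc : ICyc G n c) (hn : 4 ≤ n) : ∀ v, v ∈ cset c n := by
  by_contra hcon
  push Not at hcon
  obtain ⟨v1, hv1⟩ := hcon
  have hex : ∃ m : ℕ, ∃ (p : ℕ → V) (x y : V), IPath G m p ∧ (∀ i ≤ m, p i ∉ cset c n) ∧
      x ∈ cset c n ∧ y ∈ cset c n ∧ x ≠ y ∧ G.Adj (p 0) x ∧ G.Adj (p m) y := by
    obtain ⟨x, hx, v0, hv0, hadj⟩ := h2.conn.2 (cset c n) (subset_univ _)
      ⟨c 0, (mem_cset hc).2 ⟨0, rfl⟩⟩ ⟨v1, by simp [hv1]⟩
    rw [mem_sdiff] at hv0
    obtain ⟨x', hx', hxx⟩ : ∃ x' ∈ cset c n, x' ≠ x := by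
      have : 1 < (cset c n).card := by rw [hc.card]; omega
      obtain ⟨a, ha, b, hb, hab⟩ := one_lt_card.1 this
      by_cases h : a = x
      · exact ⟨b, hb, fun hb' => hab (h.trans hb'.symm)⟩
      · exact ⟨a, ha, h⟩
    have hv0x : v0 ≠ x := by rintro rfl; exact hv0.2 hx
    obtain ⟨M, p, hp, hp0, hpM, hpD⟩ := exists_ipath (h2.del x) (x := v0) (z := x')
      (mem_erase.2 ⟨hv0x, mem_univ _⟩) (mem_erase.2 ⟨hxx, mem_univ _⟩)
    have hext : ∃ t, p t ∈ cset c n := ⟨M, by rw [hpM]; exact hx'⟩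
    set t := Nat.find hext with ht
    have ht1 := Nat.find_spec hext
    rw [← ht] at ht1
    have htM : t ≤ M := Nat.find_min' hext (by rw [hpM]; exact hx')
    have ht0 : t ≠ 0 := by
      intro h0
      rw [h0, hp0] at ht1
      exact hv0.2 ht1
    refine ⟨t - 1, fun s => p (0 + s), x, p t, hp.sub (by omega), ?_, hx, ht1, ?_, ?_, ?_⟩
    · intro i hi
      show p (0 + i) ∉ cset c n
      rw [zero_add]
      exact Nat.find_min hext (by omega)
    · exact (mem_erase.1 (hpD t htM)).1.symm
    · simp only [Nat.add_zero, hp0]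
      exact hadj.symm
    · simp only [zero_add]
      exact (hp _ (by omega) _ htM).2.2 (Or.inl (by omega))
  set m := Nat.find hex with hm
  obtain ⟨p, x, y, hp, hout, hx, hy, hxy, h0, h1⟩ := Nat.find_spec hex
  rw [← hm] at hp hout h1
  have hmin : ∀ m' < m, ¬ ∃ (p : ℕ → V) (x y : V), IPath G m' p ∧ (∀ i ≤ m', p i ∉ cset c n) ∧
      x ∈ cset c n ∧ y ∈ cset c n ∧ x ≠ y ∧ G.Adj (p 0) x ∧ G.Adj (p m') y :=
    fun m' h => Nat.find_min hex h
  have hsingle : ∀ i ≤ m, IPath G 0 (fun t => p (i + t)) := fun i hi => hp.sub (by omega)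
  refine hno (cyc_theta hc hp hout hx hy hxy ?_)
  intro i hi z hz
  constructor
  · intro hadj
    by_cases hm0 : m = 0
    · have hi0 : i = 0 := by omega
      subst hi0
      have : z = x ∨ z = y := by
        by_contra hcon
        push Not at hcon
        apply hno
        refine cyc_three hc hn (hout 0 (by omega)) ?_
        unfold dg
        have h1' : G.Adj (p 0) y := by rwa [hm0] at h1
        exact Finset.two_lt_card.2 ⟨x, mem_filter.2 ⟨hx, h0⟩, y, mem_filter.2 ⟨hy, h1'⟩, z,
          mem_filter.2 ⟨hz, hadj⟩, hxy, hcon.1.symm, hcon.2.symm⟩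
      rcases this with h | h
      · exact Or.inl ⟨rfl, h⟩
      · exact Or.inr ⟨hm0.symm, h⟩
    · by_cases hzx : z = x
      · left
        refine ⟨?_, hzx⟩
        by_contra hi0
        apply hmin (m - i) (by omega)
        refine ⟨fun t => p (i + t), z, y, hp.sub (by omega), fun t ht => hout _ (by omega), hz, hy,
          by rw [hzx]; exact hxy, hadj, ?_⟩
        simp only
        rw [show i + (m - i) = m by omega]
        exact h1
      · right
        have him : i = m := by
          by_contra him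
          apply hmin i (by omega)
          exact ⟨fun t => p (0 + t), x, z, hp.sub (by omega), fun t ht => hout _ (by omega), hx, hz,
            Ne.symm hzx, h0, by simpa using hadj⟩
        refine ⟨him, ?_⟩
        by_contra hzy
        apply hmin 0 (by omega)
        exact ⟨fun t => p (i + t), z, y, hsingle i hi, fun t ht => hout _ (by omega), hz, hy,
          hzy, hadj, by rw [him]; simpa using h1⟩
  · rintro (⟨rfl, rfl⟩ | ⟨rfl, rfl⟩)
    · exact h0
    · exact h1

lemma diam_struct [Fintype V] {G : SimpleGraph V} (h2 : TwoConn G) (hno : ¬ IsITM diamond G) :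
    (∀ x y : V, x ≠ y → G.Adj x y) ∨ ∀ x, dg G univ x ≤ 2 := by
  by_cases hcomp : ∀ x y : V, x ≠ y → G.Adj x y
  · exact Or.inl hcomp
  push Not at hcomp
  obtain ⟨a, b, hab, hnab⟩ := hcomp
  right
  obtain ⟨m, p, hp, hp0, hpm, _⟩ := exists_ipath h2.conn (mem_univ a) (mem_univ b)
  have hm : 2 ≤ m := by
    by_contra hcon
    have : m = 0 ∨ m = 1 := by omega
    rcases this with h | h
    · rw [h, hp0] at hpm
      exact hab hpm
    · apply hnab
      rw [← hp0, ← hpm, h]
      exact (hp 0 (by omega) 1 (by omega)).2.2 (Or.inl rfl)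
  have h01 : G.Adj (p 1) (p 0) := (hp 1 (by omega) 0 (by omega)).2.2 (Or.inr rfl)
  have h12 : G.Adj (p 1) (p 2) := (hp 1 (by omega) 2 (by omega)).2.2 (Or.inl rfl)
  have n02 : p 0 ≠ p 2 := fun he => by
    have := (hp 0 (by omega) 2 (by omega)).1 he
    omega
  have nadj02 : ¬ G.Adj (p 0) (p 2) := fun he => by
    have := (hp 0 (by omega) 2 (by omega)).2.1 he
    omega
  obtain ⟨k, q, hq, hq0, hqk, hqD⟩ := exists_ipath (h2.del (p 1)) (x := p 0) (z := p 2)
    (mem_erase.2 ⟨h01.ne', mem_univ _⟩) (mem_erase.2 ⟨h12.ne', mem_univ _⟩)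
  have hk : 2 ≤ k := by
    by_contra hcon
    have : k = 0 ∨ k = 1 := by omega
    rcases this with h | h
    · rw [h, hq0] at hqk
      exact n02 hqk
    · apply nadj02
      rw [← hq0, ← hqk, h]
      exact (hq 0 (by omega) 1 (by omega)).2.2 (Or.inl rfl)
  have hqy : ∀ i ≤ k, q i ≠ p 1 := fun i hi => (mem_erase.1 (hqD i hi)).1
  have hcyc : ICyc G (k + 2) (fun t => if t % (k + 2) = k + 1 then p 1 else q (t % (k + 2))) := by
    refine ICyc.of_path hq (by omega) hqy ?_
    intro i hi
    constructor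
    · intro hadj
      by_contra hcon
      push Not at hcon
      refine hno (three_sorted hq hqy (a := 0) (b := i) (c := k) (by omega) (by omega) le_rfl ?_ hadj ?_)
      · rw [hq0]; exact h01
      · rw [hqk]; exact h12
    · rintro (rfl | rfl)
      · rw [hq0]; exact h01
      · rw [hqk]; exact h12
  have hall := cyc_all h2 hno hcyc (by omega)
  intro x
  have e : (univ : Finset V) = cset (fun t => if t % (k + 2) = k + 1 then p 1 else q (t % (k + 2)))
      (k + 2) := by
    ext z
    exact ⟨fun _ => hall z, fun _ => mem_univ _⟩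
  rw [e, hcyc.dg (hall x)]

lemma IsITM.comap {U V W : Type} {H : SimpleGraph W} (e : U ↪ V) (G : SimpleGraph V)
    (h : IsITM H (G.comap e)) : IsITM H G :=
  h.mono_right (SimpleGraph.Embedding.comap e G)

lemma dt_complete [Fintype V] [Nonempty V] {G : SimpleGraph V}
    (h : P4Free G univ) : DT G 2 univ univ :=
  (dt_cograph _ univ univ le_rfl univ_nonempty (Subset.refl _) h
    (fun _ _ _ _ _ hz hz' => absurd hz hz')).mono (by omega)

lemma dt_two [Fintype V] {G : SimpleGraph V} (hc : Cn G univ)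
    (h : ∀ x, dg G univ x ≤ 2) : DT G 2 univ univ :=
  dt_deg_two (fun x _ => h x) _ univ (Subset.refl _) le_rfl hc

theorem dt_diamond [Fintype V] [Nonempty V] {G : SimpleGraph V} (h : ¬ IsITM diamond G) :
    DT G 3 univ univ := by
  refine dt_of_conn (fun V G => ¬ IsITM diamond G) (fun U V e G h h' => h (h'.comap e G)) 3 ?_ V G h
  intro V _ G hc hG
  refine dt_of_blocks' (fun V G => ¬ IsITM diamond G) (fun U V e G h h' => h (h'.comap e G)) 2 ?_
    (Fintype.card V) V G le_rfl hc hG
  intro V _ G h2 hG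
  have hne : Nonempty V := Fintype.card_pos_iff.1 (by have := h2.card; omega)
  rcases diam_struct h2 hG with h | h
  · apply dt_complete
    intro a _ b _ c _ d _ hac _ _ _ _ _
    exact Or.inl (h a c hac)
  · exact dt_two h2.conn h

end Q109.ITM
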