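import Pool.Agent.Q109.ITM.Inv
import Pool.Agent.H175R2.Cut

/-! A family of claw-free, diamond-free cubic graphs of unbounded clique-width. -/

namespace Q109.ITM

open SimpleGraph Pool.Agent.H175R2

/-- the external edges -/
def Ext {n : ℕ} (x y : Bool × Fin n × Fin n × Fin 3) : Prop :=
  (x.1 = y.1 ∧ x.2.1 = y.2.1 ∧ x.2.2.1.val + 1 = y.2.2.1.val ∧ x.2.2.2 = 2 ∧ y.2.2.2 = 0) ∨
  (y.1 = x.1 ∧ y.2.1 = x.2.1 ∧ y.2.2.1.val + 1 = x.2.2.1.val ∧ y.2.2.2 = 2 ∧ x.2.2.2 = 0) ∨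
  (x.1 ≠ y.1 ∧ x.2.1 = y.2.2.1 ∧ x.2.2.1 = y.2.1 ∧ x.2.2.2 = 1 ∧ y.2.2.2 = 1)

/-- same cell -/
def Same {n : ℕ} (x y : Bool × Fin n × Fin n × Fin 3) : Prop :=
  x.1 = y.1 ∧ x.2.1 = y.2.1 ∧ x.2.2.1 = y.2.2.1

lemma Ext.symm {n : ℕ} {x y : Bool × Fin n × Fin n × Fin 3} (h : Ext x y) : Ext y x := by
  rcases h with h | h | ⟨h1, h2, h3, h4, h5⟩
  · exact Or.inr (Or.inl h)
  · exact Or.inl h
  · exact Or.inr (Or.inr ⟨h1.symm, h3.symm, h2.symm, h5, h4⟩)

lemma Same.symm {n : ℕ} {x y : Bool × Fin n × Fin n × Fin 3} (h : Same x y) : Same y x :=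
  ⟨h.1.symm, h.2.1.symm, h.2.2.symm⟩

lemma Same.trans {n : ℕ} {x y z : Bool × Fin n × Fin n × Fin 3} (h : Same x y) (h' : Same y z) :
    Same x z := ⟨h.1.trans h'.1, h.2.1.trans h'.2.1, h.2.2.trans h'.2.2⟩

/-- the external neighbour is unique -/
lemma Ext.uniq {n : ℕ} {x y z : Bool × Fin n × Fin n × Fin 3} (h : Ext x y) (h' : Ext x z) :
    y = z := by
  obtain ⟨s, i, j, t⟩ := x
  obtain ⟨s1, i1, j1, t1⟩ := y
  obtain ⟨s2, i2, j2, t2⟩ := z
  unfold Ext at h h'
  simp only at h h'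
  rcases h with ⟨rfl, rfl, h3, rfl, rfl⟩ | ⟨rfl, rfl, h3, rfl, rfl⟩ | ⟨h1, rfl, rfl, rfl, rfl⟩
  · rcases h' with ⟨rfl, rfl, h3', _, rfl⟩ | ⟨_, _, _, _, h⟩ | ⟨_, _, _, h, _⟩
    · have : j1 = j2 := Fin.ext (by omega)
      rw [this]
    · exact absurd h (by decide)
    · exact absurd h (by decide)
  · rcases h' with ⟨_, _, _, h, _⟩ | ⟨rfl, rfl, h3', rfl, _⟩ | ⟨_, _, _, h, _⟩
    · exact absurd h (by decide)
    · have : j1 = j2 := Fin.ext (by omega)
      rw [this]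
    · exact absurd h (by decide)
  · rcases h' with ⟨_, _, _, h, _⟩ | ⟨_, _, _, _, h⟩ | ⟨h1', rfl, rfl, _, rfl⟩
    · exact absurd h (by decide)
    · exact absurd h (by decide)
    · have : s1 = s2 := by
        revert h1 h1'
        revert s s1 s2
        decide
      rw [this]

lemma Ext.not_same {n : ℕ} {x y : Bool × Fin n × Fin n × Fin 3} (h : Ext x y) : ¬ Same x y := by
  rintro ⟨h1, h2, h3⟩
  rcases h with ⟨_, _, h, _⟩ | ⟨_, _, h, _⟩ | ⟨h, _⟩
  · rw [h3] at h; omega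
  · rw [h3] at h; omega
  · exact h h1

/-- the family -/
def fam (n : ℕ) : SimpleGraph (Bool × Fin n × Fin n × Fin 3) where
  Adj x y := x ≠ y ∧ (Same x y ∨ Ext x y)
  symm := ⟨fun _ _ h => ⟨h.1.symm, h.2.elim (fun h => Or.inl h.symm) (fun h => Or.inr h.symm)⟩⟩
  loopless := ⟨fun _ h => h.1 rfl⟩

lemma fam_adj {n : ℕ} {x y : Bool × Fin n × Fin n × Fin 3} :
    (fam n).Adj x y ↔ x ≠ y ∧ (Same x y ∨ Ext x y) := Iff.rfl

/-- four elements of a cell -/
lemma same_four {n : ℕ} {a b c d : Bool × Fin n × Fin n × Fin 3} (hab : Same a b) (hac : Same a c)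
    (had : Same a d) (h1 : a ≠ b) (h2 : a ≠ c) (h3 : a ≠ d) (h4 : b ≠ c) (h5 : b ≠ d)
    (h6 : c ≠ d) : False := by
  obtain ⟨s, i, j, t⟩ := a
  obtain ⟨s1, i1, j1, t1⟩ := b
  obtain ⟨s2, i2, j2, t2⟩ := c
  obtain ⟨s3, i3, j3, t3⟩ := d
  unfold Same at hab hac had
  simp only at hab hac had
  obtain ⟨rfl, rfl, rfl⟩ := hab
  obtain ⟨rfl, rfl, rfl⟩ := hac
  obtain ⟨rfl, rfl, rfl⟩ := had
  simp only [ne_eq, Prod.mk.injEq, true_and, Fin.ext_iff] at h1 h2 h3 h4 h5 h6
  omega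

/-- three distinct neighbours: two of them are in the cell -/
lemma fam_three {n : ℕ} {x a b c : Bool × Fin n × Fin n × Fin 3} (ha : (fam n).Adj x a)
    (hb : (fam n).Adj x b) (hc : (fam n).Adj x c) (hab : a ≠ b) (hac : a ≠ c) (hbc : b ≠ c) :
    (Same x a ∧ Same x b) ∨ (Same x a ∧ Same x c) ∨ (Same x b ∧ Same x c) := by
  rcases ha.2 with ha | ha
  · rcases hb.2 with hb | hb
    · exact Or.inl ⟨ha, hb⟩
    · rcases hc.2 with hc | hc
      · exact Or.inr (Or.inl ⟨ha, hc⟩)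
      · exact absurd (hb.uniq hc) hbc
  · rcases hb.2 with hb | hb
    · rcases hc.2 with hc | hc
      · exact Or.inr (Or.inr ⟨hb, hc⟩)
      · exact absurd (ha.uniq hc) hac
    · exact absurd (ha.uniq hb) hab

lemma fam_clawFree (n : ℕ) : ClawFree (fam n) := by
  intro x a b c ha hb hc hab hac hbc
  rcases fam_three ha hb hc hab hac hbc with h | h | h
  · exact Or.inl ⟨hab, Or.inl (h.1.symm.trans h.2)⟩
  · exact Or.inr (Or.inl ⟨hac, Or.inl (h.1.symm.trans h.2)⟩)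
  · exact Or.inr (Or.inr ⟨hbc, Or.inl (h.1.symm.trans h.2)⟩)

lemma fam_deg (n : ℕ) (x) : ¬ Deg 4 (fam n) x := by
  rintro ⟨f, hf, hadj⟩
  have n01 : f 0 ≠ f 1 := fun h => absurd (hf h) (by decide)
  have n02 : f 0 ≠ f 2 := fun h => absurd (hf h) (by decide)
  have n03 : f 0 ≠ f 3 := fun h => absurd (hf h) (by decide)
  have n12 : f 1 ≠ f 2 := fun h => absurd (hf h) (by decide)
  have n13 : f 1 ≠ f 3 := fun h => absurd (hf h) (by decide)
  have n23 : f 2 ≠ f 3 := fun h => absurd (hf h) (by decide)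
  have g : ∀ a b c, (fam n).Adj x a → (fam n).Adj x b → (fam n).Adj x c → a ≠ b → a ≠ c → b ≠ c →
      Same x a → Same x b → Same x c → False := by
    intro a b c ha hb hc hab hac hbc sa sb sc
    exact same_four sa sb sc ha.1 hb.1 hc.1 hab hac hbc
  by_cases h0 : Same x (f 0)
  · by_cases h1 : Same x (f 1)
    · by_cases h2 : Same x (f 2)
      · exact g _ _ _ (hadj 0) (hadj 1) (hadj 2) n01 n02 n12 h0 h1 h2
      · by_cases h3 : Same x (f 3)
        · exact g _ _ _ (hadj 0) (hadj 1) (hadj 3) n01 n03 n13 h0 h1 h3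
        · exact n23 (((hadj 2).2.resolve_left h2).uniq ((hadj 3).2.resolve_left h3))
    · by_cases h2 : Same x (f 2)
      · by_cases h3 : Same x (f 3)
        · exact g _ _ _ (hadj 0) (hadj 2) (hadj 3) n02 n03 n23 h0 h2 h3
        · exact n13 (((hadj 1).2.resolve_left h1).uniq ((hadj 3).2.resolve_left h3))
      · exact n12 (((hadj 1).2.resolve_left h1).uniq ((hadj 2).2.resolve_left h2))
  · by_cases h1 : Same x (f 1)
    · by_cases h2 : Same x (f 2)
      · by_cases h3 : Same x (f 3)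
        · exact g _ _ _ (hadj 1) (hadj 2) (hadj 3) n12 n13 n23 h1 h2 h3
        · exact n03 (((hadj 0).2.resolve_left h0).uniq ((hadj 3).2.resolve_left h3))
      · exact n02 (((hadj 0).2.resolve_left h0).uniq ((hadj 2).2.resolve_left h2))
    · exact n01 (((hadj 0).2.resolve_left h0).uniq ((hadj 1).2.resolve_left h1))

lemma fam_noDia (n : ℕ) : NoDia (fam n) := by
  -- a triangle lies in one cell
  have tri : ∀ x y a, (fam n).Adj x y → (fam n).Adj x a → (fam n).Adj y a → Same x y ∧ Same x a := by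
    intro x y a hxy hxa hya
    by_cases h1 : Same x y
    · refine ⟨h1, ?_⟩
      by_contra h2
      have e1 := hxa.2.resolve_left h2
      have h3 : ¬ Same y a := fun h => h2 (h1.trans h)
      have e2 := hya.2.resolve_left h3
      exact hxy.1 (e1.symm.uniq e2.symm)
    · exfalso
      have e1 := hxy.2.resolve_left h1
      by_cases h2 : Same x a
      · have h3 : ¬ Same y a := fun h => h1 (h2.trans h.symm)
        have e2 := hya.2.resolve_left h3
        exact hxa.1 (e1.symm.uniq e2)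
      · have e2 := hxa.2.resolve_left h2
        exact hya.1 (e1.uniq e2)
  intro x y a b hxy hxa hya hxb hyb
  by_contra hab
  obtain ⟨h1, h2⟩ := tri _ _ _ hxy hxa hya
  obtain ⟨_, h3⟩ := tri _ _ _ hxy hxb hyb
  exact same_four h1 h2 h3 hxy.1 hxa.1 hxb.1 hya.1 hyb.1 hab

/-! ### cuts -/

lemma card_vert (n : ℕ) : Nat.card (Bool × Fin n × Fin n × Fin 3) = 6 * (n * n) := by
  simp; ring

/-- the boundary of `A` -/
def bd {n : ℕ} (A : Set (Bool × Fin n × Fin n × Fin 3)) : Set (Bool × Fin n × Fin n × Fin 3) :=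
  {x | x ∈ A ∧ ∃ z, z ∉ A ∧ (fam n).Adj x z}

lemma bd_card {n k : ℕ} {A : Set (Bool × Fin n × Fin n × Fin 3)} (h : Types (fam n) A k) :
    (bd A).ncard ≤ 3 * k := by
  classical
  obtain ⟨l, hl⟩ := h
  by_contra hcon
  push Not at hcon
  have e : (bd A).ncard = (bd A).toFinset.card := Set.ncard_eq_toFinset_card' _
  rw [e] at hcon
  have hcard : (Finset.univ : Finset (Fin k)).card * 3 < (bd A).toFinset.card := by
    simp only [Finset.card_univ, Fintype.card_fin]; omega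
  obtain ⟨t, _, ht⟩ := Finset.exists_lt_card_fiber_of_mul_lt_card_of_maps_to
    (f := l) (s := (bd A).toFinset) (t := Finset.univ) (fun _ _ => Finset.mem_univ _) hcard
  obtain ⟨S, hS, hS4⟩ := Finset.exists_subset_card_eq (Nat.succ_le_of_lt ht)
  have hmem : ∀ x ∈ S, (x ∈ A ∧ ∃ z, z ∉ A ∧ (fam n).Adj x z) ∧ l x = t := by
    intro x hx
    have := hS hx
    rw [Finset.mem_filter, Set.mem_toFinset] at this
    exact this
  obtain ⟨x0, hx0⟩ : S.Nonempty := Finset.card_pos.1 (by omega)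
  obtain ⟨⟨hx0A, z, hz, hxz⟩, hxt⟩ := hmem x0 hx0
  apply fam_deg n z
  have f := S.equivFinOfCardEq hS4
  refine ⟨fun i => (f.symm i).1, fun i j hij => f.symm.injective (Subtype.ext hij), fun i => ?_⟩
  obtain ⟨⟨hA, _⟩, hi⟩ := hmem _ (f.symm i).2
  exact ((hl _ hx0A _ hA (hxt.trans hi.symm) z hz).1 hxz).symm

/-- the row -/
def InRow {n : ℕ} (r : Bool × Fin n) (x : Bool × Fin n × Fin n × Fin 3) : Prop :=
  x.1 = r.1 ∧ x.2.1 = r.2

lemma mixed_bd {n : ℕ} {A : Set (Bool × Fin n × Fin n × Fin 3)} {r : Bool × Fin n}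
    (h1 : ∃ x, InRow r x ∧ x ∈ A) (h2 : ∃ x, InRow r x ∧ x ∉ A) : ∃ x ∈ bd A, InRow r x := by
  by_contra hcon
  push Not at hcon
  have hcell : ∀ x y, InRow r x → InRow r y → Same x y → x ∈ A → y ∈ A := by
    intro x y hx hy hxy hxA
    by_contra hyA
    refine hcon x ⟨hxA, y, hyA, ?_, Or.inl hxy⟩ hx
    rintro rfl
    exact hyA hxA
  obtain ⟨⟨s, i, j, t⟩, ⟨hx1, hx2⟩, hxA⟩ := h1
  obtain ⟨⟨s', i', j', t'⟩, ⟨hy1, hy2⟩, hyA⟩ := h2
  simp only at hx1 hx2 hy1 hy2
  subst hx1; subst hx2; subst hy1; subst hy2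
  have hr : ∀ j t, InRow r (r.1, r.2, j, t) := fun _ _ => ⟨rfl, rfl⟩
  obtain ⟨a, b, ha, hb, hab⟩ := CutAux.step_exists (fun j : Fin n => (r.1, r.2, j, (0 : Fin 3)) ∈ A)
    ⟨j, hcell (r.1, r.2, j, t) (r.1, r.2, j, 0) (hr _ _) (hr _ _) ⟨rfl, rfl, rfl⟩ hxA⟩
    ⟨j', fun h => hyA (hcell (r.1, r.2, j', 0) (r.1, r.2, j', t') (hr _ _) (hr _ _) ⟨rfl, rfl, rfl⟩ h)⟩
  rcases hab with hab | hab
  · have h2 : (r.1, r.2, a, (2 : Fin 3)) ∈ A :=
      hcell (r.1, r.2, a, 0) (r.1, r.2, a, 2) (hr _ _) (hr _ _) ⟨rfl, rfl, rfl⟩ ha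
    refine hcon _ ⟨h2, _, hb, ?_, Or.inr (Or.inl ⟨rfl, rfl, hab, rfl, rfl⟩)⟩ (hr _ _)
    simp
  · have h2 : (r.1, r.2, b, (2 : Fin 3)) ∉ A :=
      fun h => hb (hcell (r.1, r.2, b, 2) (r.1, r.2, b, 0) (hr _ _) (hr _ _) ⟨rfl, rfl, rfl⟩ h)
    refine hcon _ ⟨ha, _, h2, ?_, Or.inr (Or.inr (Or.inl ⟨rfl, rfl, hab, rfl, rfl⟩))⟩ (hr _ _)
    simp

open Classical in
/-- the mixed rows -/
noncomputable def mix {n : ℕ} (A : Set (Bool × Fin n × Fin n × Fin 3)) : Finset (Bool × Fin n) :=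
  Finset.univ.filter (fun r => (∃ x, InRow r x ∧ x ∈ A) ∧ ∃ x, InRow r x ∧ x ∉ A)

lemma mix_card {n k : ℕ} {A : Set (Bool × Fin n × Fin n × Fin 3)} (h : Types (fam n) A k) :
    (mix A).card ≤ 3 * k := by
  classical
  have hch : ∀ r, r ∈ mix A → ∃ x ∈ bd A, InRow r x := by
    intro r hr
    simp only [mix, Finset.mem_filter, Finset.mem_univ, true_and] at hr
    exact mixed_bd hr.1 hr.2
  rcases (mix A).eq_empty_or_nonempty with h0 | ⟨r0, hr0⟩
  · rw [h0]; simp
  have : Nonempty (Bool × Fin n × Fin n × Fin 3) := ⟨(hch r0 hr0).choose⟩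
  choose! f hf hf' using hch
  refine le_trans ?_ (bd_card h)
  rw [← Set.ncard_coe_finset]
  refine Set.ncard_le_ncard_of_injOn f hf ?_ (Set.toFinite _)
  intro r hr r' hr' hrr
  have e1 := hf' r hr
  have e2 := hf' r' hr'
  rw [hrr] at e1
  exact Prod.ext (e1.1.symm.trans e2.1) (e1.2.symm.trans e2.2)

/-- if every row meeting `B` is in `M` then `B` is small -/
lemma card_le_rows {n : ℕ} (B : Set (Bool × Fin n × Fin n × Fin 3)) (M : Finset (Bool × Fin n))
    (h : ∀ x ∈ B, (x.1, x.2.1) ∈ M) : B.ncard ≤ M.card * (3 * n) := by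
  classical
  have h1 : B.ncard ≤ ((M ×ˢ (Finset.univ : Finset (Fin n × Fin 3)) : Finset _) :
      Set ((Bool × Fin n) × (Fin n × Fin 3))).ncard := by
    refine Set.ncard_le_ncard_of_injOn (fun x => ((x.1, x.2.1), (x.2.2.1, x.2.2.2))) ?_ ?_
      (Finset.finite_toSet _)
    · intro x hx
      simp only [Finset.coe_product, Finset.coe_univ, Set.mem_prod, Finset.mem_coe, Set.mem_univ,
        and_true]
      exact h x hx
    · rintro ⟨a, b, c, d⟩ _ ⟨a', b', c', d'⟩ _ hxy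
      simp only [Prod.mk.injEq] at hxy
      obtain ⟨⟨rfl, rfl⟩, rfl, rfl⟩ := hxy
      rfl
  rw [Set.ncard_coe_finset, Finset.card_product] at h1
  refine h1.trans (le_of_eq ?_)
  simp
  left; ring

/-- full rows and empty columns -/
lemma cross_card {n k : ℕ} {A : Set (Bool × Fin n × Fin n × Fin 3)} (h : Types (fam n) A k)
    (s : Bool) (R C : Finset (Fin n)) (hR : ∀ i ∈ R, ∀ x, InRow (s, i) x → x ∈ A)
    (hC : ∀ j ∈ C, ∀ x, InRow (!s, j) x → x ∉ A) : R.card * C.card ≤ 3 * k := by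
  classical
  refine le_trans ?_ (bd_card h)
  rw [← Finset.card_product, ← Set.ncard_coe_finset]
  refine Set.ncard_le_ncard_of_injOn (fun p => (s, p.1, p.2, (1 : Fin 3))) ?_ ?_ (Set.toFinite _)
  · rintro ⟨i, j⟩ hij
    simp only [Finset.coe_product, Set.mem_prod, Finset.mem_coe] at hij
    refine ⟨hR i hij.1 _ ⟨rfl, rfl⟩, (!s, j, i, (1 : Fin 3)), hC j hij.2 _ ⟨rfl, rfl⟩, ?_,
      Or.inr (Or.inr (Or.inr ⟨?_, rfl, rfl, rfl, rfl⟩))⟩
    · simp
    · simp
  · rintro ⟨i, j⟩ _ ⟨i', j'⟩ _ hij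
    simp only [Prod.mk.injEq, true_and, and_true] at hij
    obtain ⟨rfl, rfl⟩ := hij
    rfl

lemma no_cut {n k : ℕ} (hn : 9 * k < n) (A : Set (Bool × Fin n × Fin n × Fin 3))
    (h : Types (fam n) A k) (h1 : 6 * (n * n) ≤ 3 * A.ncard)
    (h2 : 3 * A.ncard ≤ 2 * (6 * (n * n))) : False := by
  classical
  have hcompl : A.ncard + Aᶜ.ncard = 6 * (n * n) := by
    rw [Set.ncard_add_ncard_compl, card_vert]
  set m := 3 * k with hm
  have hmix := mix_card h
  set R1 : Bool → Finset (Fin n) := fun s => Finset.univ.filter (fun i => ∀ x, InRow (s, i) x → x ∈ A) with hR1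
  set R0 : Bool → Finset (Fin n) := fun s => Finset.univ.filter (fun i => ∀ x, InRow (s, i) x → x ∉ A) with hR0
  have hsum : ∀ s, n ≤ (R1 s).card + (R0 s).card + m := by
    intro s
    have hM : ((Finset.univ : Finset (Fin n)).filter (fun i => (s, i) ∈ mix A)).card ≤ m := by
      refine le_trans ?_ hmix
      refine Finset.card_le_card_of_injOn (fun i => (s, i)) ?_ ?_
      · intro i hi
        simpa using hi
      · intro i _ j _ hij
        simpa using hij
    have hcov : (Finset.univ : Finset (Fin n)) ⊆ (R1 s ∪ R0 s) ∪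
        (Finset.univ : Finset (Fin n)).filter (fun i => (s, i) ∈ mix A) := by
      intro i _
      simp only [hR1, hR0, mix, Finset.mem_union, Finset.mem_filter, Finset.mem_univ, true_and]
      by_contra hcon
      push Not at hcon
      obtain ⟨⟨⟨x, hx, hxA⟩, ⟨y, hy, hyA⟩⟩, hcon⟩ := hcon
      exact hxA (hcon ⟨y, hy, hyA⟩ x hx)
    have := (Finset.card_le_card hcov).trans (Finset.card_union_le _ _)
    have := Finset.card_union_le (R1 s) (R0 s)
    simp only [Finset.card_univ, Fintype.card_fin] at *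
    omega
  have hc : ∀ s, (R1 s).card * (R0 (!s)).card ≤ m := by
    intro s
    apply cross_card h s
    · intro i hi
      simpa [hR1] using hi
    · intro i hi
      simpa [hR0] using hi
  have hcf := hc false
  have hct := hc true
  have hsf := hsum false
  have hst := hsum true
  simp only [Bool.not_false, Bool.not_true] at hcf hct
  have z : ∀ a b : ℕ, a * b ≤ m → m < a → b = 0 := by
    intro a b hab ha
    by_contra hb
    have : a * 1 ≤ a * b := Nat.mul_le_mul_left _ (Nat.pos_of_ne_zero hb)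
    omega
  have z' : ∀ a b : ℕ, a * b ≤ m → m < b → a = 0 := by
    intro a b hab ha
    exact z b a (by rw [mul_comm]; exact hab) ha
  have fin : ∀ B : Set (Bool × Fin n × Fin n × Fin 3), 2 * (n * n) ≤ B.ncard →
      (∀ x ∈ B, (x.1, x.2.1) ∈ mix A) → False := by
    intro B hB hBm
    have h3 := card_le_rows B _ hBm
    have h4 : (mix A).card * (3 * n) ≤ m * (3 * n) := Nat.mul_le_mul_right _ hmix
    have h5 : 2 * (n * n) ≤ 9 * k * n := by
      calc 2 * (n * n) ≤ m * (3 * n) := by omega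
        _ = 9 * k * n := by rw [hm]; ring
    have h6 : 9 * k * n < n * n := Nat.mul_lt_mul_of_pos_right hn (by omega)
    omega
  by_cases c1 : m < (R1 false).card
  · have e1 := z _ _ hcf c1
    have e2 := z _ _ hct (by omega)
    apply fin Aᶜ (by omega)
    rintro ⟨s, i, j, t⟩ hx
    simp only [mix, Finset.mem_filter, Finset.mem_univ, true_and]
    refine ⟨?_, ⟨_, ⟨rfl, rfl⟩, hx⟩⟩
    by_contra hcon
    push Not at hcon
    have : i ∈ R0 s := by
      simp only [hR0, Finset.mem_filter, Finset.mem_univ, true_and]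
      exact hcon
    rw [Finset.card_eq_zero] at e1 e2
    cases s
    · rw [e2] at this; simp at this
    · rw [e1] at this; simp at this
  · have e1 := z' _ _ hct (by omega)
    have e2 := z' _ _ hcf (by omega)
    apply fin A (by omega)
    rintro ⟨s, i, j, t⟩ hx
    simp only [mix, Finset.mem_filter, Finset.mem_univ, true_and]
    refine ⟨⟨_, ⟨rfl, rfl⟩, hx⟩, ?_⟩
    by_contra hcon
    push Not at hcon
    have : i ∈ R1 s := by
      simp only [hR1, Finset.mem_filter, Finset.mem_univ, true_and]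
      exact hcon
    rw [Finset.card_eq_zero] at e1 e2
    cases s
    · rw [e2] at this; simp at this
    · rw [e1] at this; simp at this

lemma types_compl {V : Type} {G : SimpleGraph V} {A : Set V} {k : ℕ} (h : Types Gᶜ A k) :
    Types G A k := by
  obtain ⟨l, hl⟩ := h
  refine ⟨l, fun x hx y hy hxy z hz => ?_⟩
  have := hl x hx y hy hxy z hz
  have h1 : x ≠ z := by rintro rfl; exact hz hx
  have h2 : y ≠ z := by rintro rfl; exact hz hy
  simp only [compl_adj, ne_eq, h1, h2, not_false_eq_true, true_and] at this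
  exact not_iff_not.1 this

theorem fam_unbounded : ∀ c : ℕ, ∃ n > 0, ∀ k ≤ c, ¬ CwLE (fam n) k ∧ ¬ CwLE (fam n)ᶜ k := by
  intro c
  refine ⟨9 * c + 1, by omega, fun k hk => ?_⟩
  have hW : (Set.univ : Set (Bool × Fin (9 * c + 1) × Fin (9 * c + 1) × Fin 3)).ncard =
      6 * ((9 * c + 1) * (9 * c + 1)) := by
    rw [Set.ncard_univ, card_vert]
  have h2 : 2 ≤ (Set.univ : Set (Bool × Fin (9 * c + 1) × Fin (9 * c + 1) × Fin 3)).ncard := by
    rw [hW]; nlinarith
  constructor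
  · intro hcw
    obtain ⟨A, hA, h3, h4⟩ := balanced_cut _ k hcw Set.univ h2
    rw [Set.inter_univ, hW] at h3 h4
    exact no_cut (by omega) A hA h3 h4
  · intro hcw
    obtain ⟨A, hA, h3, h4⟩ := balanced_cut _ k hcw Set.univ h2
    rw [Set.inter_univ, hW] at h3 h4
    exact no_cut (by omega) A (types_compl hA) h3 h4

end Q109.ITM
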