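import Pool.Agent.Q109.ITM.Basic

/-! Properties that pass from a graph to its subdivisions. -/

namespace Q109.ITM

open SimpleGraph

variable {V W U : Type}

/-! ### three pairwise nonadjacent vertices -/

def Three (G : SimpleGraph V) : Prop :=
  ∃ a b c : V, a ≠ b ∧ a ≠ c ∧ b ≠ c ∧ ¬ G.Adj a b ∧ ¬ G.Adj a c ∧ ¬ G.Adj b c

lemma Three.emb {G : SimpleGraph V} {X : SimpleGraph W} (f : G ↪g X) (h : Three G) : Three X := by
  obtain ⟨a, b, c, h1, h2, h3, h4, h5, h6⟩ := h
  exact ⟨f a, f b, f c, by simpa using h1, by simpa using h2, by simpa using h3,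
    by simpa using h4, by simpa using h5, by simpa using h6⟩

lemma Three.itm {H : SimpleGraph W} {G : SimpleGraph V} (hH : Three H) (h : IsITM H G) :
    Three G := by
  obtain ⟨T, X, hX, ⟨g⟩⟩ := h
  refine Three.emb g (hX.invariant Three (fun e => Three.emb e.toEmbedding) ?_ hH)
  rintro V G u v _ ⟨a, b, c, h1, h2, h3, h4, h5, h6⟩
  exact ⟨some a, some b, some c, by simpa using h1, by simpa using h2, by simpa using h3,
    by simp [h4], by simp [h5], by simp [h6]⟩

/-! ### split graphs -/

def Split (G : SimpleGraph V) : Prop :=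
  ∃ K : V → Prop, (∀ a b, K a → K b → a ≠ b → G.Adj a b) ∧ ∀ a b, ¬ K a → ¬ K b → ¬ G.Adj a b

lemma Split.emb {G : SimpleGraph V} {X : SimpleGraph W} (f : G ↪g X) (h : Split X) : Split G := by
  obtain ⟨K, h1, h2⟩ := h
  refine ⟨fun a => K (f a), fun a b ha hb hab => ?_, fun a b ha hb hab => ?_⟩
  · exact f.map_adj_iff.1 (h1 _ _ ha hb (by simpa using hab))
  · exact h2 _ _ ha hb (f.map_adj_iff.2 hab)

lemma Split.of_sub {G : SimpleGraph V} {u v : V} (huv : G.Adj u v)
    (h : Split (subdivideEdge G u v)) : Split G := by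
  obtain ⟨K, h1, h2⟩ := h
  have hnadj : ¬ (subdivideEdge G u v).Adj (some u) (some v) := by simp
  have key : ∀ u v : V, G.Adj u v → K none → ¬ K (some v) →
      (∀ a b, K a → K b → a ≠ b → (subdivideEdge G u v).Adj a b) →
      (∀ a b, ¬ K a → ¬ K b → ¬ (subdivideEdge G u v).Adj a b) → Split G := by
    intro u v huv hn hv h1 h2
    refine ⟨fun a => a = u ∨ a = v, ?_, ?_⟩
    · rintro a b (rfl | rfl) (rfl | rfl) hab
      · exact absurd rfl hab
      · exact huv
      · exact huv.symm
      · exact absurd rfl hab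
    · intro a b ha hb hab
      push Not at ha hb
      have ka : ¬ K (some a) := by
        intro hk
        have := h1 none (some a) hn hk (by simp)
        rw [sub_none_some] at this
        exact this.elim ha.1 ha.2
      have kb : ¬ K (some b) := by
        intro hk
        have := h1 none (some b) hn hk (by simp)
        rw [sub_none_some] at this
        exact this.elim hb.1 hb.2
      apply h2 _ _ ka kb
      rw [sub_some_some]
      refine ⟨hab, ?_⟩
      intro h
      rw [Sym2.eq_iff] at h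
      rcases h with ⟨h, _⟩ | ⟨h, _⟩
      · exact ha.1 h
      · exact ha.2 h
  by_cases hn : K none
  · by_cases hv : K (some v)
    · by_cases hu : K (some u)
      · exact absurd (h1 _ _ hu hv (by simpa using huv.ne)) hnadj
      · have hs : subdivideEdge G u v = subdivideEdge G v u := by
          unfold subdivideEdge
          congr 1
          ext x y
          rw [Sym2.eq_swap (a := u) (b := v), or_comm (a := y = some u)]
        rw [hs] at h1 h2
        exact key v u huv.symm hn hu h1 h2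
    · exact key u v huv hn hv h1 h2
  · have hu : K (some u) := by
      by_contra hu
      exact h2 _ _ hn hu (by simp)
    have hv : K (some v) := by
      by_contra hv
      exact h2 _ _ hn hv (by simp)
    exact absurd (h1 _ _ hu hv (by simpa using huv.ne)) hnadj

lemma split_itm {H : SimpleGraph W} {G : SimpleGraph V} (hG : Split G) (h : IsITM H G) :
    Split H := by
  obtain ⟨T, X, hX, ⟨g⟩⟩ := h
  by_contra hH
  refine (hX.invariant (fun G => ¬ Split G) ?_ ?_ hH) (hG.emb g)
  · intro V W G X e h h'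
    exact h (h'.emb e.toEmbedding)
  · intro V G u v huv h h'
    exact h (h'.of_sub huv)

/-! ### a vertex with four neighbours -/

def Deg (m : ℕ) (G : SimpleGraph V) (x : V) : Prop :=
  ∃ f : Fin m → V, Function.Injective f ∧ ∀ i, G.Adj x (f i)

lemma Deg.emb {m : ℕ} {G : SimpleGraph V} {X : SimpleGraph W} (g : G ↪g X) {x : V}
    (h : Deg m G x) : Deg m X (g x) := by
  obtain ⟨f, h1, h2⟩ := h
  exact ⟨fun i => g (f i), g.injective.comp h1, fun i => g.map_adj_iff.2 (h2 i)⟩

lemma Deg.sub {m : ℕ} {G : SimpleGraph V} {x u v : V} (h : Deg m G x) :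
    Deg m (subdivideEdge G u v) (some x) := by
  classical
  obtain ⟨f, h1, h2⟩ := h
  refine ⟨fun i => if s(x, f i) = s(u, v) then none else some (f i), ?_, ?_⟩
  · intro i j hij
    simp only at hij
    by_cases hi : s(x, f i) = s(u, v) <;> by_cases hj : s(x, f j) = s(u, v)
    · apply h1
      have := hi.trans hj.symm
      rw [Sym2.eq_iff] at this
      rcases this with ⟨_, h⟩ | ⟨h, h'⟩
      · exact h
      · exact h'.trans h
    · rw [if_pos hi, if_neg hj] at hij; cases hij
    · rw [if_neg hi, if_pos hj] at hij; cases hij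
    · rw [if_neg hi, if_neg hj] at hij
      exact h1 (by simpa using hij)
  · intro i
    simp only
    split_ifs with hi
    · rw [sub_some_none]
      rw [Sym2.eq_iff] at hi
      rcases hi with ⟨h, _⟩ | ⟨h, _⟩
      · exact Or.inl h
      · exact Or.inr h
    · rw [sub_some_some]
      exact ⟨h2 i, hi⟩

lemma four_itm {H : SimpleGraph W} {G : SimpleGraph V} (hH : ∃ x, Deg 4 H x) (h : IsITM H G) :
    ∃ x, Deg 4 G x := by
  obtain ⟨T, X, hX, ⟨g⟩⟩ := h
  have : ∃ x, Deg 4 X x := hX.invariant (fun G => ∃ x, Deg 4 G x)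
    (fun e ⟨x, hx⟩ => ⟨e x, hx.emb e.toEmbedding⟩) (fun G u v _ ⟨x, hx⟩ => ⟨some x, hx.sub⟩) hH
  obtain ⟨x, hx⟩ := this
  exact ⟨g x, hx.emb g⟩

/-! ### the complete graph on four vertices -/

def K4like (G : SimpleGraph V) : Prop :=
  ∃ D : Fin 4 → V, Function.Injective D ∧ (∀ i, Deg 3 G (D i)) ∧
    ∀ x y z, G.Adj x y → G.Adj x z → G.Adj y z → ∃ i, D i = x

def ClawFree (G : SimpleGraph V) : Prop :=
  ∀ x a b c, G.Adj x a → G.Adj x b → G.Adj x c → a ≠ b → a ≠ c → b ≠ c →
    G.Adj a b ∨ G.Adj a c ∨ G.Adj b c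

def NoDia (G : SimpleGraph V) : Prop :=
  ∀ x y a b, G.Adj x y → G.Adj x a → G.Adj y a → G.Adj x b → G.Adj y b → a = b

lemma K4like.contra {G : SimpleGraph V} (h : K4like G) (h1 : ClawFree G) (h2 : NoDia G) :
    False := by
  obtain ⟨D, hD, h3, h4⟩ := h
  have key : ∀ i, ∃ j k, j ≠ k ∧ G.Adj (D i) (D j) ∧ G.Adj (D i) (D k) ∧ G.Adj (D j) (D k) := by
    intro i
    obtain ⟨f, hf, hf'⟩ := h3 i
    have n01 : f 0 ≠ f 1 := fun h => absurd (hf h) (by decide)
    have n02 : f 0 ≠ f 2 := fun h => absurd (hf h) (by decide)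
    have n12 : f 1 ≠ f 2 := fun h => absurd (hf h) (by decide)
    have fin : ∀ a b, G.Adj (D i) a → G.Adj (D i) b → G.Adj a b →
        ∃ j k, j ≠ k ∧ G.Adj (D i) (D j) ∧ G.Adj (D i) (D k) ∧ G.Adj (D j) (D k) := by
      intro a b ha hb hab
      obtain ⟨j, rfl⟩ := h4 a (D i) b ha.symm hab hb
      obtain ⟨k, rfl⟩ := h4 b (D i) (D j) hb.symm hab.symm ha
      exact ⟨j, k, fun h => hab.ne (by rw [h]), ha, hb, hab⟩
    rcases h1 (D i) _ _ _ (hf' 0) (hf' 1) (hf' 2) n01 n02 n12 with h | h | h
    · exact fin _ _ (hf' 0) (hf' 1) h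
    · exact fin _ _ (hf' 0) (hf' 2) h
    · exact fin _ _ (hf' 1) (hf' 2) h
  -- adjacency matrix
  classical
  have fin : ∀ A : Fin 4 → Fin 4 → Bool, (∀ i j, A i j = A j i) → (∀ i, A i i = false) →
      (∀ i, ∃ j k, j ≠ k ∧ A i j = true ∧ A i k = true ∧ A j k = true) →
      ∃ x y a b, A x y = true ∧ A x a = true ∧ A y a = true ∧ A x b = true ∧ A y b = true ∧
        a ≠ b := by
    intro A hs hi hA
    have c : ∀ b01 b02 b03 b12 b13 b23 : Bool,
        (∀ i, ∃ j k, j ≠ k ∧
          (![![false, b01, b02, b03], ![b01, false, b12, b13], ![b02, b12, false, b23], ![b03, b13, b23, false]] i j = true) ∧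
          (![![false, b01, b02, b03], ![b01, false, b12, b13], ![b02, b12, false, b23], ![b03, b13, b23, false]] i k = true) ∧
          (![![false, b01, b02, b03], ![b01, false, b12, b13], ![b02, b12, false, b23], ![b03, b13, b23, false]] j k = true)) →
        ∃ x y a b : Fin 4,
          (![![false, b01, b02, b03], ![b01, false, b12, b13], ![b02, b12, false, b23], ![b03, b13, b23, false]] x y = true) ∧
          (![![false, b01, b02, b03], ![b01, false, b12, b13], ![b02, b12, false, b23], ![b03, b13, b23, false]] x a = true) ∧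
          (![![false, b01, b02, b03], ![b01, false, b12, b13], ![b02, b12, false, b23], ![b03, b13, b23, false]] y a = true) ∧
          (![![false, b01, b02, b03], ![b01, false, b12, b13], ![b02, b12, false, b23], ![b03, b13, b23, false]] x b = true) ∧
          (![![false, b01, b02, b03], ![b01, false, b12, b13], ![b02, b12, false, b23], ![b03, b13, b23, false]] y b = true) ∧
          a ≠ b := by decide
    have e : A = ![![false, A 0 1, A 0 2, A 0 3], ![A 0 1, false, A 1 2, A 1 3],
        ![A 0 2, A 1 2, false, A 2 3], ![A 0 3, A 1 3, A 2 3, false]] := by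
      funext i j
      fin_cases i <;> fin_cases j <;> simp [hi, hs 1 0, hs 2 0, hs 3 0, hs 2 1, hs 3 1, hs 3 2]
    have := c (A 0 1) (A 0 2) (A 0 3) (A 1 2) (A 1 3) (A 2 3)
    rw [← e] at this
    exact this hA
  obtain ⟨x, y, a, b, hxy, hxa, hya, hxb, hyb, hab⟩ := fin
    (fun i j => decide (G.Adj (D i) (D j))) (fun i j => by simp [G.adj_comm]) (fun i => by simp)
    (fun i => by
      obtain ⟨j, k, hjk, ha, hb, hc⟩ := key i
      exact ⟨j, k, hjk, by simpa using ha, by simpa using hb, by simpa using hc⟩)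
  simp only [decide_eq_true_eq] at hxy hxa hya hxb hyb
  exact hab (hD (h2 _ _ _ _ hxy hxa hya hxb hyb))

lemma K4like.sub {G : SimpleGraph V} {u v : V} (h : K4like G) :
    K4like (subdivideEdge G u v) := by
  obtain ⟨D, hD, h3, h4⟩ := h
  refine ⟨fun i => some (D i), fun i j hij => hD (by simpa using hij), fun i => (h3 i).sub, ?_⟩
  have hn : ∀ y z : Option V, (subdivideEdge G u v).Adj none y → (subdivideEdge G u v).Adj none z →
      ¬ (subdivideEdge G u v).Adj y z := by
    rintro (_ | y) (_ | z) hy hz hyz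
    · exact absurd hy (SimpleGraph.irrefl _)
    · exact absurd hy (SimpleGraph.irrefl _)
    · exact absurd hz (SimpleGraph.irrefl _)
    · rw [sub_none_some] at hy hz
      rw [sub_some_some] at hyz
      rcases hy with rfl | rfl <;> rcases hz with rfl | rfl
      · exact absurd hyz.1 (SimpleGraph.irrefl _)
      · exact hyz.2 rfl
      · exact hyz.2 Sym2.eq_swap
      · exact absurd hyz.1 (SimpleGraph.irrefl _)
  rintro (_ | x) (_ | y) (_ | z) hxy hxz hyz
  · exact absurd hxy (SimpleGraph.irrefl _)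
  · exact absurd hxy (SimpleGraph.irrefl _)
  · exact absurd hxz (SimpleGraph.irrefl _)
  · exact absurd hyz (hn _ _ hxy hxz)
  · exact absurd hyz (SimpleGraph.irrefl _)
  · exact absurd hxz (hn _ _ hxy.symm hyz)
  · exact absurd hxy (hn _ _ hxz.symm hyz.symm)
  · rw [sub_some_some] at hxy hxz hyz
    obtain ⟨i, hi⟩ := h4 x y z hxy.1 hxz.1 hyz.1
    exact ⟨i, congrArg some hi⟩

lemma K4like.iso {G : SimpleGraph V} {X : SimpleGraph W} (e : G ≃g X) (h : K4like G) :
    K4like X := by
  obtain ⟨D, hD, h3, h4⟩ := h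
  refine ⟨fun i => e (D i), e.injective.comp hD, fun i => (h3 i).emb e.toEmbedding, ?_⟩
  intro x y z hxy hxz hyz
  obtain ⟨i, hi⟩ := h4 (e.symm x) (e.symm y) (e.symm z) (e.symm.map_adj_iff.2 hxy)
    (e.symm.map_adj_iff.2 hxz) (e.symm.map_adj_iff.2 hyz)
  exact ⟨i, by simp [hi]⟩

lemma ClawFree.emb {G : SimpleGraph V} {X : SimpleGraph W} (g : G ↪g X) (h : ClawFree X) :
    ClawFree G := by
  intro x a b c ha hb hc hab hac hbc
  have := h (g x) (g a) (g b) (g c) (g.map_adj_iff.2 ha) (g.map_adj_iff.2 hb) (g.map_adj_iff.2 hc)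
    (by simpa using hab) (by simpa using hac) (by simpa using hbc)
  simpa [g.map_adj_iff] using this

lemma NoDia.emb {G : SimpleGraph V} {X : SimpleGraph W} (g : G ↪g X) (h : NoDia X) :
    NoDia G := by
  intro x y a b h1 h2 h3 h4 h5
  exact g.injective (h _ _ _ _ (g.map_adj_iff.2 h1) (g.map_adj_iff.2 h2) (g.map_adj_iff.2 h3)
    (g.map_adj_iff.2 h4) (g.map_adj_iff.2 h5))

lemma k4_itm {H : SimpleGraph W} {G : SimpleGraph V} (hH : K4like H) (h : IsITM H G)
    (h1 : ClawFree G) (h2 : NoDia G) : False := by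
  obtain ⟨T, X, hX, ⟨g⟩⟩ := h
  exact (hX.invariant K4like K4like.iso (fun G u v _ h => h.sub) hH).contra (h1.emb g) (h2.emb g)

/-! ### a triangle and an isolated vertex -/

/-- an isolated vertex `p` and either a triangle or four more vertices -/
def TriIso (G : SimpleGraph V) : Prop :=
  ∃ p, (∀ x, ¬ G.Adj p x) ∧ ((∃ a b c, G.Adj a b ∧ G.Adj a c ∧ G.Adj b c) ∨
    ∃ f : Fin 4 → V, Function.Injective f ∧ ∀ i, f i ≠ p)

lemma TriIso.iso {G : SimpleGraph V} {X : SimpleGraph W} (e : G ≃g X) (h : TriIso G) :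
    TriIso X := by
  obtain ⟨p, hp, h⟩ := h
  refine ⟨e p, fun x hx => hp (e.symm x) (e.map_adj_iff.1 (by simpa using hx)), ?_⟩
  rcases h with ⟨a, b, c, h1, h2, h3⟩ | ⟨f, hf, hf'⟩
  · exact Or.inl ⟨e a, e b, e c, e.map_adj_iff.2 h1, e.map_adj_iff.2 h2, e.map_adj_iff.2 h3⟩
  · exact Or.inr ⟨fun i => e (f i), e.injective.comp hf, fun i => by simpa using hf' i⟩

lemma TriIso.sub {G : SimpleGraph V} {u v : V} (huv : G.Adj u v) (h : TriIso G) :
    TriIso (subdivideEdge G u v) := by
  obtain ⟨p, hp, h⟩ := h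
  refine ⟨some p, ?_, Or.inr ?_⟩
  · rintro (_ | x) hx
    · rw [sub_some_none] at hx
      rcases hx with rfl | rfl
      · exact hp _ huv
      · exact hp _ huv.symm
    · rw [sub_some_some] at hx
      exact hp _ hx.1
  · rcases h with ⟨a, b, c, h1, h2, h3⟩ | ⟨f, hf, hf'⟩
    · have hap : a ≠ p := by rintro rfl; exact hp _ h1
      have hbp : b ≠ p := by rintro rfl; exact hp _ h3
      have hcp : c ≠ p := by rintro rfl; exact hp _ h3.symm
      refine ⟨![some a, some b, some c, none], ?_, ?_⟩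
      · have n1 := h1.ne
        have n2 := h2.ne
        have n3 := h3.ne
        intro i j hij
        fin_cases i <;> fin_cases j <;> simp_all
      · intro i
        fin_cases i <;> simp [hap, hbp, hcp]
    · exact ⟨fun i => some (f i), fun i j hij => hf (by simpa using hij),
        fun i => by simpa using hf' i⟩

lemma tri_itm {H : SimpleGraph W} {G : SimpleGraph V} (hH : TriIso H) (h : IsITM H Gᶜ)
    (h1 : ClawFree G) (h2 : ∀ x, ¬ Deg 4 G x) : False := by
  obtain ⟨T, X, hX, ⟨g⟩⟩ := h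
  obtain ⟨p, hp, hX'⟩ := hX.invariant TriIso TriIso.iso (fun G u v huv h => h.sub huv) hH
  have hadj : ∀ x, x ≠ p → G.Adj (g p) (g x) := by
    intro x hx
    by_contra hcon
    apply hp x
    rw [← g.map_adj_iff, compl_adj]
    exact ⟨by simpa using hx.symm, hcon⟩
  rcases hX' with ⟨a, b, c, h3, h4, h5⟩ | ⟨f, hf, hf'⟩
  · have hap : a ≠ p := by rintro rfl; exact hp _ h3
    have hbp : b ≠ p := by rintro rfl; exact hp _ h5
    have hcp : c ≠ p := by rintro rfl; exact hp _ h5.symm
    have k1 := g.map_adj_iff.2 h3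
    have k2 := g.map_adj_iff.2 h4
    have k3 := g.map_adj_iff.2 h5
    rw [compl_adj] at k1 k2 k3
    rcases h1 (g p) _ _ _ (hadj a hap) (hadj b hbp) (hadj c hcp) k1.1 k2.1 k3.1 with h | h | h
    · exact k1.2 h
    · exact k2.2 h
    · exact k3.2 h
  · exact h2 (g p) ⟨fun i => g (f i), g.injective.comp hf, fun i => hadj _ (hf' i)⟩

end Q109.ITM
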