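import Pool.Agent.Q109.ITM.Inv

/-! Classification of the small graphs. -/

namespace Q109.ITM

/-! ### patterns on four vertices -/

def q3 (A : Fin 4 → Fin 4 → Bool) : Prop :=
  ∃ a b c, (a ≠ b ∧ a ≠ c ∧ b ≠ c) ∧ A a b = false ∧ A a c = false ∧ A b c = false

def q22 (A : Fin 4 → Fin 4 → Bool) : Prop :=
  ∃ a b c d, (A a b = true ∧ A c d = true) ∧ (A a c = false ∧ A a d = false) ∧
    A b c = false ∧ A b d = false

def qC (A : Fin 4 → Fin 4 → Bool) : Prop :=
  ∃ a b c d, (a ≠ c ∧ b ≠ d) ∧ (A a b = true ∧ A b c = true) ∧ (A c d = true ∧ A d a = true) ∧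
    A a c = false ∧ A b d = false

def qK (A : Fin 4 → Fin 4 → Bool) : Prop :=
  ∃ a b c d, (A a b = true ∧ A a c = true) ∧ (A a d = true ∧ A b c = true) ∧
    A b d = true ∧ A c d = true

def qT (A : Fin 4 → Fin 4 → Bool) : Prop :=
  ∃ a b c d, (A a b = true ∧ A a c = true) ∧ (A b c = true ∧ A a d = false) ∧
    A b d = false ∧ A c d = false

def qP (A : Fin 4 → Fin 4 → Bool) : Prop :=
  ∃ a b c d, (A a b = true ∧ A b c = true) ∧ (A c d = true ∧ A a c = false) ∧
    A a d = false ∧ A b d = false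

def qW (A : Fin 4 → Fin 4 → Bool) : Prop :=
  ∃ a b c d, (A a b = true ∧ A a c = true) ∧ (A b c = true ∧ A a d = true) ∧
    A b d = false ∧ A c d = false

def qD (A : Fin 4 → Fin 4 → Bool) : Prop :=
  ∃ a b c d, c ≠ d ∧ (A a b = true ∧ A a c = true) ∧ (A a d = true ∧ A b c = true) ∧
    A b d = true ∧ A c d = false

instance (A : Fin 4 → Fin 4 → Bool) : Decidable (q3 A) := by unfold q3; infer_instance
instance (A : Fin 4 → Fin 4 → Bool) : Decidable (q22 A) := by unfold q22; infer_instance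
instance (A : Fin 4 → Fin 4 → Bool) : Decidable (qC A) := by unfold qC; infer_instance
instance (A : Fin 4 → Fin 4 → Bool) : Decidable (qK A) := by unfold qK; infer_instance
instance (A : Fin 4 → Fin 4 → Bool) : Decidable (qT A) := by unfold qT; infer_instance
instance (A : Fin 4 → Fin 4 → Bool) : Decidable (qP A) := by unfold qP; infer_instance
instance (A : Fin 4 → Fin 4 → Bool) : Decidable (qW A) := by unfold qW; infer_instance
instance (A : Fin 4 → Fin 4 → Bool) : Decidable (qD A) := by unfold qD; infer_instance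

/-- the matrix of a graph on four vertices -/
def mat (b01 b02 b03 b12 b13 b23 : Bool) : Fin 4 → Fin 4 → Bool :=
  ![![false, b01, b02, b03], ![b01, false, b12, b13], ![b02, b12, false, b23],
    ![b03, b13, b23, false]]

lemma four_decide : ∀ b01 b02 b03 b12 b13 b23 : Bool,
    (q3 (mat b01 b02 b03 b12 b13 b23) ∨ q22 (mat b01 b02 b03 b12 b13 b23) ∨
    qC (mat b01 b02 b03 b12 b13 b23) ∨ qK (mat b01 b02 b03 b12 b13 b23)) ∨
    qT (mat b01 b02 b03 b12 b13 b23) ∨ qP (mat b01 b02 b03 b12 b13 b23) ∨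
    qW (mat b01 b02 b03 b12 b13 b23) ∨ qD (mat b01 b02 b03 b12 b13 b23) := by
  decide

lemma three_decide : ∀ b01 b02 b12 : Bool, (b01 = false ∧ b02 = false ∧ b12 = false) ∨
    ∃ x y z : Fin 4, (x ≠ y ∧ x ≠ z ∧ y ≠ z) ∧
    (((mat true false false true false true x y = b01 ∧ mat true false false true false true x z = b02 ∧
      mat true false false true false true y z = b12)) ∨
    ((mat true true true true false false x y = b01 ∧ mat true true true true false false x z = b02 ∧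
      mat true true true true false false y z = b12))) := by
  decide

open SimpleGraph Finset Classical Pool.Agent.H175R2

variable {V W : Type}

/-- the disjoint union of a triangle and a vertex -/
def K3P1 : SimpleGraph (Fin 4) := SimpleGraph.fromRel (fun x y => x ≠ 3 ∧ y ≠ 3)

lemma emb_of_fin {n : ℕ} {H : SimpleGraph W} {T : SimpleGraph (Fin 4)} (e : W ≃ Fin n)
    (g : Fin n → Fin 4) (hinj : Function.Injective g)
    (hadj : ∀ i j, T.Adj (g i) (g j) ↔ H.Adj (e.symm i) (e.symm j)) : Nonempty (H ↪g T) := by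
  refine ⟨⟨⟨fun w => g (e w), hinj.comp e.injective⟩, ?_⟩⟩
  intro a b
  simp only [Function.Embedding.coeFn_mk]
  rw [hadj]
  simp

/-- embeddings of four-vertex graphs from a matrix -/
lemma emb4 {H : SimpleGraph W} {T : SimpleGraph (Fin 4)} (g : Fin 4 → W)
    (hinj : Function.Injective g) (hadj : ∀ i j, H.Adj (g i) (g j) ↔ T.Adj i j) :
    Nonempty (T ↪g H) := ⟨⟨⟨g, hinj⟩, fun {i j} => hadj i j⟩⟩

lemma emb_of_perm {H : SimpleGraph W} {T : SimpleGraph (Fin 4)} (hc : Nat.card W = 4)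
    (h : Nonempty (T ↪g H)) : Nonempty (H ↪g T) := by
  obtain ⟨f⟩ := h
  have : Finite W := Nat.finite_of_card_ne_zero (by omega)
  have hb : Function.Bijective f := by
    have := Fintype.ofFinite W
    refine (Fintype.bijective_iff_injective_and_card f).2 ⟨f.injective, ?_⟩
    rw [← Nat.card_eq_fintype_card, ← Nat.card_eq_fintype_card, hc]
    simp
  have e : T ≃g H := ⟨Equiv.ofBijective f hb, fun {i j} => f.map_adj_iff⟩
  exact ⟨e.symm.toEmbedding⟩

lemma not_split_22 {H : SimpleGraph W} {a b c d : W} (hab : H.Adj a b) (hcd : H.Adj c d)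
    (hac : ¬ H.Adj a c) (had : ¬ H.Adj a d) (hbc : ¬ H.Adj b c) (hbd : ¬ H.Adj b d) :
    ¬ Split H := by
  rintro ⟨K, h1, h2⟩
  have nac : a ≠ c := by rintro rfl; exact had hcd
  have nad : a ≠ d := by rintro rfl; exact hac hcd.symm
  have nbc : b ≠ c := by rintro rfl; exact hbd hcd
  have nbd : b ≠ d := by rintro rfl; exact hbc hcd.symm
  by_cases ka : K a
  · have kc : ¬ K c := fun h => hac (h1 _ _ ka h nac)
    have kd : ¬ K d := fun h => had (h1 _ _ ka h nad)
    exact h2 _ _ kc kd hcd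
  · by_cases kb : K b
    · have kc : ¬ K c := fun h => hbc (h1 _ _ kb h nbc)
      have kd : ¬ K d := fun h => hbd (h1 _ _ kb h nbd)
      exact h2 _ _ kc kd hcd
    · exact h2 _ _ ka kb hab

lemma not_split_C {H : SimpleGraph W} {a b c d : W} (hac : a ≠ c) (hbd : b ≠ d)
    (hab : H.Adj a b) (hbc : H.Adj b c) (hcd : H.Adj c d) (hda : H.Adj d a)
    (nac : ¬ H.Adj a c) (nbd : ¬ H.Adj b d) : ¬ Split H := by
  rintro ⟨K, h1, h2⟩
  by_cases ka : K a
  · have kc : ¬ K c := fun h => nac (h1 _ _ ka h hac)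
    by_cases kb : K b
    · have kd : ¬ K d := fun h => nbd (h1 _ _ kb h hbd)
      exact h2 _ _ kc kd hcd
    · exact h2 _ _ kb kc hbc
  · by_cases kb : K b
    · have kd : ¬ K d := fun h => nbd (h1 _ _ kb h hbd)
      exact h2 _ _ kd ka hda
    · exact h2 _ _ ka kb hab

lemma K4_emb {H : SimpleGraph W} {a b c d : W} (hab : H.Adj a b) (hac : H.Adj a c)
    (had : H.Adj a d) (hbc : H.Adj b c) (hbd : H.Adj b d) (hcd : H.Adj c d) :
    Nonempty ((⊤ : SimpleGraph (Fin 4)) ↪g H) := by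
  have n1 := hab.ne
  have n2 := hac.ne
  have n3 := had.ne
  have n4 := hbc.ne
  have n5 := hbd.ne
  have n6 := hcd.ne
  refine emb4 ![a, b, c, d] ?_ ?_
  · intro i j hij
    fin_cases i <;> fin_cases j <;> simp at hij ⊢ <;> simp_all
  · intro i j
    fin_cases i <;> fin_cases j <;> simp [hab, hab.symm, hac, hac.symm, had, had.symm, hbc,
      hbc.symm, hbd, hbd.symm, hcd, hcd.symm]

lemma T_emb {H : SimpleGraph W} {a b c d : W} (hab : H.Adj a b) (hac : H.Adj a c)
    (hbc : H.Adj b c) (had : ¬ H.Adj a d) (hbd : ¬ H.Adj b d) (hcd : ¬ H.Adj c d) :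
    Nonempty (K3P1 ↪g H) := by
  have n1 := hab.ne
  have n2 := hac.ne
  have n3 : a ≠ d := by rintro rfl; exact hbd hab.symm
  have n4 := hbc.ne
  have n5 : b ≠ d := by rintro rfl; exact had hab
  have n6 : c ≠ d := by rintro rfl; exact had hac
  refine emb4 ![a, b, c, d] ?_ ?_
  · intro i j hij
    fin_cases i <;> fin_cases j <;> simp at hij ⊢ <;> simp_all
  · intro i j
    fin_cases i <;> fin_cases j <;> simp [K3P1, hab, hab.symm, hac, hac.symm, had, hbc,
      hbc.symm, hbd, hcd, H.adj_comm d a, H.adj_comm d b, H.adj_comm d c]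

lemma P_emb {H : SimpleGraph W} {a b c d : W} (hab : H.Adj a b) (hbc : H.Adj b c)
    (hcd : H.Adj c d) (hac : ¬ H.Adj a c) (had : ¬ H.Adj a d) (hbd : ¬ H.Adj b d) :
    Nonempty (P4 ↪g H) := by
  have n1 := hab.ne
  have n2 : a ≠ c := by rintro rfl; exact had hcd
  have n3 : a ≠ d := by rintro rfl; exact hac hcd.symm
  have n4 := hbc.ne
  have n5 : b ≠ d := by rintro rfl; exact had hab
  have n6 := hcd.ne
  refine emb4 ![a, b, c, d] ?_ ?_
  · intro i j hij
    fin_cases i <;> fin_cases j <;> simp at hij ⊢ <;> simp_all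
  · intro i j
    fin_cases i <;> fin_cases j <;> simp [P4, hab, hab.symm, hac, had, hbc,
      hbc.symm, hbd, hcd, hcd.symm, H.adj_comm d a, H.adj_comm d b, H.adj_comm c a]

lemma W_emb {H : SimpleGraph W} {a b c d : W} (hab : H.Adj a b) (hac : H.Adj a c)
    (hbc : H.Adj b c) (had : H.Adj a d) (hbd : ¬ H.Adj b d) (hcd : ¬ H.Adj c d) :
    Nonempty (paw ↪g H) := by
  have n1 := hab.ne
  have n2 := hac.ne
  have n3 := had.ne
  have n4 := hbc.ne
  have n5 : b ≠ d := by rintro rfl; exact hcd hbc.symm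
  have n6 : c ≠ d := by rintro rfl; exact hbd hbc
  refine emb4 ![a, b, c, d] ?_ ?_
  · intro i j hij
    fin_cases i <;> fin_cases j <;> simp at hij ⊢ <;> simp_all
  · intro i j
    fin_cases i <;> fin_cases j <;> simp [paw, hab, hab.symm, hac, hac.symm, had, had.symm, hbc,
      hbc.symm, hbd, hcd, H.adj_comm d b, H.adj_comm d c]

lemma D_emb {H : SimpleGraph W} {a b c d : W} (n6 : c ≠ d) (hab : H.Adj a b) (hac : H.Adj a c)
    (had : H.Adj a d) (hbc : H.Adj b c) (hbd : H.Adj b d) (hcd : ¬ H.Adj c d) :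
    Nonempty (diamond ↪g H) := by
  have n1 := hab.ne
  have n2 := hac.ne
  have n3 := had.ne
  have n4 := hbc.ne
  have n5 := hbd.ne
  refine emb4 ![a, b, c, d] ?_ ?_
  · intro i j hij
    fin_cases i <;> fin_cases j <;> simp at hij ⊢ <;> simp_all
  · intro i j
    fin_cases i <;> fin_cases j <;> simp [diamond, hab, hab.symm, hac, hac.symm, had, had.symm, hbc,
      hbc.symm, hbd, hbd.symm, hcd, H.adj_comm d c]

/-- graphs on at least five vertices -/
lemma big_case [Fintype W] {H : SimpleGraph W} (h5 : 5 ≤ Fintype.card W) (h3 : ¬ Three H)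
    (hs : Split H) (h4 : ¬ Nonempty ((⊤ : SimpleGraph (Fin 4)) ↪g H))
    (ht : ¬ Nonempty (K3P1 ↪g H)) (hd : ∀ x, ¬ Deg 4 H x) : False := by
  obtain ⟨K, hK1, hK2⟩ := hs
  set A := (univ : Finset W).filter (fun w => K w) with hA
  set B := (univ : Finset W).filter (fun w => ¬ K w) with hB
  have hAB : A.card + B.card = Fintype.card W := by
    rw [hA, hB, card_filter_add_card_filter_not, card_univ]
  have hBc : B.card ≤ 2 := by
    by_contra hcon
    push Not at hcon
    obtain ⟨a, b, c, ha, hb, hc, hab, hac, hbc⟩ := Finset.two_lt_card_iff.1 hcon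
    simp only [hB, mem_filter, mem_univ, true_and] at ha hb hc
    exact h3 ⟨a, b, c, hab, hac, hbc, hK2 _ _ ha hb, hK2 _ _ ha hc, hK2 _ _ hb hc⟩
  have hAc : A.card ≤ 3 := by
    by_contra hcon
    push Not at hcon
    obtain ⟨S, hS, hS4⟩ := Finset.exists_subset_card_eq (show 4 ≤ A.card by omega)
    have hmem : ∀ x ∈ S, K x := by
      intro x hx
      have := hS hx
      simpa [hA] using this
    have f := S.equivFinOfCardEq hS4
    apply h4
    refine emb4 (fun i => (f.symm i).1) (fun i j hij => f.symm.injective (Subtype.ext hij)) ?_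
    intro i j
    rw [top_adj]
    constructor
    · rintro h rfl
      exact absurd h (SimpleGraph.irrefl _)
    · intro hij
      exact hK1 _ _ (hmem _ (f.symm i).2) (hmem _ (f.symm j).2)
        (fun he => hij (f.symm.injective (Subtype.ext he)))
  obtain ⟨a, b, c, hab, hac, hbc, hAe⟩ := Finset.card_eq_three.1 (show A.card = 3 by omega)
  obtain ⟨d, e, hde, hBe⟩ := Finset.card_eq_two.1 (show B.card = 2 by omega)
  have ka : K a := by
    have : a ∈ A := by rw [hAe]; simp
    simpa [hA] using this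
  have kb : K b := by
    have : b ∈ A := by rw [hAe]; simp
    simpa [hA] using this
  have kc : K c := by
    have : c ∈ A := by rw [hAe]; simp
    simpa [hA] using this
  have kd : ¬ K d := by
    have : d ∈ B := by rw [hBe]; simp
    simpa [hB] using this
  have ke : ¬ K e := by
    have : e ∈ B := by rw [hBe]; simp
    simpa [hB] using this
  have ab := hK1 _ _ ka kb hab
  have ac := hK1 _ _ ka kc hac
  have bc := hK1 _ _ kb kc hbc
  have de := hK2 _ _ kd ke
  -- no vertex of the triangle sees both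
  have nboth : ∀ x y z : W, H.Adj x y → H.Adj x z → H.Adj y z → K x → K y → K z → H.Adj x d →
      H.Adj x e → False := by
    intro x y z hxy hxz hyz kx ky kz hxd hxe
    apply hd x
    have m1 : y ≠ d := by rintro rfl; exact kd ky
    have m2 : y ≠ e := by rintro rfl; exact ke ky
    have m3 : z ≠ d := by rintro rfl; exact kd kz
    have m4 : z ≠ e := by rintro rfl; exact ke kz
    have m5 := hyz.ne
    refine ⟨![y, z, d, e], ?_, ?_⟩
    · intro i j hij
      fin_cases i <;> fin_cases j <;> simp at hij ⊢ <;> simp_all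
    · intro i
      fin_cases i <;> simp [hxy, hxz, hxd, hxe]
  have ndall : ∀ w, w = d ∨ w = e → H.Adj a w ∨ H.Adj b w ∨ H.Adj c w := by
    intro w hw
    by_contra hcon
    push Not at hcon
    exact ht (T_emb ab ac bc hcon.1 hcon.2.1 hcon.2.2)
  have hda := ndall d (Or.inl rfl)
  have hea := ndall e (Or.inr rfl)
  have na : ¬ (H.Adj a d ∧ H.Adj a e) := fun h => nboth a b c ab ac bc ka kb kc h.1 h.2
  have nb : ¬ (H.Adj b d ∧ H.Adj b e) := fun h => nboth b a c ab.symm bc ac kb ka kc h.1 h.2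
  have nc : ¬ (H.Adj c d ∧ H.Adj c e) := fun h =>
    nboth c a b ac.symm bc.symm ab kc ka kb h.1 h.2
  -- every vertex of the triangle sees one of them
  have n3 : ∀ x, K x → H.Adj x d ∨ H.Adj x e := by
    intro x kx
    by_contra hcon
    push Not at hcon
    have m1 : x ≠ d := by rintro rfl; exact kd kx
    have m2 : x ≠ e := by rintro rfl; exact ke kx
    exact h3 ⟨x, d, e, m1, m2, hde, hcon.1, hcon.2, de⟩
  have sa := n3 a ka
  have sb := n3 b kb
  have sc := n3 c kc
  -- triangle through `e` or `d` missing the other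
  have fin : ∀ x y w w', (w = d ∧ w' = e) ∨ (w = e ∧ w' = d) → H.Adj x y → H.Adj x w → H.Adj y w →
      ¬ H.Adj x w' → ¬ H.Adj y w' → False := by
    intro x y w w' hw hxy hxw hyw hxw' hyw'
    refine ht (T_emb hxy hxw hyw hxw' hyw' ?_)
    rcases hw with ⟨rfl, rfl⟩ | ⟨rfl, rfl⟩
    · exact de
    · exact fun h => de h.symm
  by_cases a1 : H.Adj a d <;> by_cases b1 : H.Adj b d <;> by_cases c1 : H.Adj c d
  · rcases hea with h | h | h
    · exact na ⟨a1, h⟩
    · exact nb ⟨b1, h⟩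
    · exact nc ⟨c1, h⟩
  · exact fin a b d e (Or.inl ⟨rfl, rfl⟩) ab a1 b1 (fun h => na ⟨a1, h⟩) (fun h => nb ⟨b1, h⟩)
  · exact fin a c d e (Or.inl ⟨rfl, rfl⟩) ac a1 c1 (fun h => na ⟨a1, h⟩) (fun h => nc ⟨c1, h⟩)
  · exact fin b c e d (Or.inr ⟨rfl, rfl⟩) bc (sb.resolve_left b1) (sc.resolve_left c1) b1 c1
  · exact fin b c d e (Or.inl ⟨rfl, rfl⟩) bc b1 c1 (fun h => nb ⟨b1, h⟩) (fun h => nc ⟨c1, h⟩)
  · exact fin a c e d (Or.inr ⟨rfl, rfl⟩) ac (sa.resolve_left a1) (sc.resolve_left c1) a1 c1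
  · exact fin a b e d (Or.inr ⟨rfl, rfl⟩) ab (sa.resolve_left a1) (sb.resolve_left b1) a1 b1
  · rcases hda with h | h | h
    · exact a1 h
    · exact b1 h
    · exact c1 h

lemma mat_eq {H : SimpleGraph (Fin 4)} : (fun i j => decide (H.Adj i j)) =
    mat (decide (H.Adj 0 1)) (decide (H.Adj 0 2)) (decide (H.Adj 0 3)) (decide (H.Adj 1 2))
      (decide (H.Adj 1 3)) (decide (H.Adj 2 3)) := by
  funext i j
  fin_cases i <;> fin_cases j <;>
    simp [mat, H.adj_comm 1 0, H.adj_comm 2 0, H.adj_comm 3 0, H.adj_comm 2 1, H.adj_comm 3 1,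
      H.adj_comm 3 2]

lemma four_case {H : SimpleGraph (Fin 4)} (h3 : ¬ Three H)
    (hs : Split H) (h4 : ¬ Nonempty ((⊤ : SimpleGraph (Fin 4)) ↪g H))
    (ht : ¬ Nonempty (K3P1 ↪g H)) :
    Nonempty (H ↪g P4) ∨ Nonempty (H ↪g paw) ∨ Nonempty (H ↪g diamond) := by
  have key := four_decide (decide (H.Adj 0 1)) (decide (H.Adj 0 2)) (decide (H.Adj 0 3))
    (decide (H.Adj 1 2)) (decide (H.Adj 1 3)) (decide (H.Adj 2 3))
  rw [← mat_eq] at key
  unfold q3 q22 qC qK qT qP qW qD at key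
  simp only [decide_eq_true_eq, decide_eq_false_iff_not] at key
  have hc : Nat.card (Fin 4) = 4 := by simp
  rcases key with (⟨a, b, c, ⟨h1, h2, h3'⟩, h5, h6, h7⟩ | ⟨a, b, c, d, ⟨h1, h2⟩, ⟨h5, h6⟩, h7, h8⟩ |
    ⟨a, b, c, d, ⟨h1, h2⟩, ⟨h5, h6⟩, ⟨h7, h8⟩, h9, h10⟩ | ⟨a, b, c, d, ⟨h1, h2⟩, ⟨h5, h6⟩, h7, h8⟩) |
    ⟨a, b, c, d, ⟨h1, h2⟩, ⟨h5, h6⟩, h7, h8⟩ | ⟨a, b, c, d, ⟨h1, h2⟩, ⟨h5, h6⟩, h7, h8⟩ |
    ⟨a, b, c, d, ⟨h1, h2⟩, ⟨h5, h6⟩, h7, h8⟩ | ⟨a, b, c, d, h0, ⟨h1, h2⟩, ⟨h5, h6⟩, h7, h8⟩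
  · exact absurd ⟨a, b, c, h1, h2, h3', h5, h6, h7⟩ h3
  · exact absurd hs (not_split_22 h1 h2 h5 h6 h7 h8)
  · exact absurd hs (not_split_C h1 h2 h5 h6 h7 h8 h9 h10)
  · exact absurd (K4_emb h1 h2 h5 h6 h7 h8) h4
  · exact absurd (T_emb h1 h2 h5 h6 h7 h8) ht
  · exact Or.inl (emb_of_perm hc (P_emb h1 h2 h5 h6 h7 h8))
  · exact Or.inr (Or.inl (emb_of_perm hc (W_emb h1 h2 h5 h6 h7 h8)))
  · exact Or.inr (Or.inr (emb_of_perm hc (D_emb h0 h1 h2 h5 h6 h7 h8)))

lemma P4_mat {i j : Fin 4} : P4.Adj i j ↔ mat true false false true false true i j = true := by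
  fin_cases i <;> fin_cases j <;> simp [P4, mat]

lemma paw_mat {i j : Fin 4} : paw.Adj i j ↔ mat true true true true false false i j = true := by
  fin_cases i <;> fin_cases j <;> simp [paw, mat]

lemma three_case {H : SimpleGraph (Fin 3)} (h3 : ¬ Three H) :
    Nonempty (H ↪g P4) ∨ Nonempty (H ↪g paw) := by
  rcases three_decide (decide (H.Adj 0 1)) (decide (H.Adj 0 2)) (decide (H.Adj 1 2)) with
    h | ⟨x, y, z, ⟨hxy, hxz, hyz⟩, h | h⟩
  · simp only [decide_eq_false_iff_not] at h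
    exact absurd ⟨0, 1, 2, by decide, by decide, by decide, h.1, h.2.1, h.2.2⟩ h3
  · left
    refine emb_of_fin (Equiv.refl _) ![x, y, z] ?_ ?_
    · intro i j hij
      fin_cases i <;> fin_cases j <;> simp at hij ⊢ <;> simp_all
    · obtain ⟨h1, h2, h3⟩ := h
      have k1 : P4.Adj x y ↔ H.Adj 0 1 := by rw [P4_mat, h1]; simp
      have k2 : P4.Adj x z ↔ H.Adj 0 2 := by rw [P4_mat, h2]; simp
      have k3 : P4.Adj y z ↔ H.Adj 1 2 := by rw [P4_mat, h3]; simp
      intro i j
      fin_cases i <;> fin_cases j <;>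
        simp [k1, k2, k3, P4.adj_comm y x, P4.adj_comm z x, P4.adj_comm z y, H.adj_comm 1 0,
          H.adj_comm 2 0, H.adj_comm 2 1]
  · right
    refine emb_of_fin (Equiv.refl _) ![x, y, z] ?_ ?_
    · intro i j hij
      fin_cases i <;> fin_cases j <;> simp at hij ⊢ <;> simp_all
    · obtain ⟨h1, h2, h3⟩ := h
      have k1 : paw.Adj x y ↔ H.Adj 0 1 := by rw [paw_mat, h1]; simp
      have k2 : paw.Adj x z ↔ H.Adj 0 2 := by rw [paw_mat, h2]; simp
      have k3 : paw.Adj y z ↔ H.Adj 1 2 := by rw [paw_mat, h3]; simp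
      intro i j
      fin_cases i <;> fin_cases j <;>
        simp [k1, k2, k3, paw.adj_comm y x, paw.adj_comm z x, paw.adj_comm z y, H.adj_comm 1 0,
          H.adj_comm 2 0, H.adj_comm 2 1]

lemma two_case {H : SimpleGraph (Fin 2)} : Nonempty (H ↪g P4) := by
  by_cases h : H.Adj 0 1
  · refine emb_of_fin (Equiv.refl _) ![0, 1] ?_ ?_
    · intro i j hij
      fin_cases i <;> fin_cases j <;> simp at hij ⊢
    · intro i j
      fin_cases i <;> fin_cases j <;> simp [P4, h, h.symm]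
  · refine emb_of_fin (Equiv.refl _) ![0, 2] ?_ ?_
    · intro i j hij
      fin_cases i <;> fin_cases j <;> simp at hij ⊢
    · intro i j
      fin_cases i <;> fin_cases j <;> simp [P4, h, H.adj_comm 1 0]

lemma one_case {H : SimpleGraph (Fin 1)} : Nonempty (H ↪g P4) := by
  refine emb_of_fin (Equiv.refl _) ![0] ?_ ?_
  · intro i j _
    exact Subsingleton.elim _ _
  · intro i j
    fin_cases i; fin_cases j; simp

lemma zero_case {H : SimpleGraph (Fin 0)} : Nonempty (H ↪g P4) :=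
  emb_of_fin (Equiv.refl _) (fun i => i.elim0) (fun i => i.elim0) (fun i => i.elim0)

/-- transfer along an isomorphism with a graph on `Fin n` -/
theorem classify [Finite W] (H : SimpleGraph W) (h3 : ¬ Three H) (hs : Split H)
    (h4 : ¬ Nonempty ((⊤ : SimpleGraph (Fin 4)) ↪g H)) (ht : ¬ Nonempty (K3P1 ↪g H))
    (hd : ∀ x, ¬ Deg 4 H x) :
    Nonempty (H ↪g P4) ∨ Nonempty (H ↪g paw) ∨ Nonempty (H ↪g diamond) := by
  have := Fintype.ofFinite W
  by_cases h5 : 5 ≤ Fintype.card W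
  · exact (big_case h5 h3 hs h4 ht hd).elim
  · obtain ⟨n, hn⟩ : ∃ n, n = Fintype.card W := ⟨_, rfl⟩
    have e : W ≃ Fin n := (Fintype.equivFin W).trans (finCongr hn.symm)
    let H' : SimpleGraph (Fin n) := H.comap e.symm
    have f : H' ≃g H := ⟨e.symm, fun {i j} => Iff.rfl⟩
    have h3' : ¬ Three H' := fun h => h3 (h.emb f.toEmbedding)
    have hs' : Split H' := hs.emb f.toEmbedding
    have h4' : ¬ Nonempty ((⊤ : SimpleGraph (Fin 4)) ↪g H') :=
      fun ⟨g⟩ => h4 ⟨g.trans f.toEmbedding⟩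
    have ht' : ¬ Nonempty (K3P1 ↪g H') := fun ⟨g⟩ => ht ⟨g.trans f.toEmbedding⟩
    have main : Nonempty (H' ↪g P4) ∨ Nonempty (H' ↪g paw) ∨ Nonempty (H' ↪g diamond) := by
      have h5' : n < 5 := by omega
      clear_value H'
      clear f
      clear e
      clear hn
      interval_cases n
      · exact Or.inl zero_case
      · exact Or.inl one_case
      · exact Or.inl two_case
      · rcases three_case h3' with h | h
        · exact Or.inl h
        · exact Or.inr (Or.inl h)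
      · exact four_case h3' hs' h4' ht'
    rcases main with ⟨⟨g⟩⟩ | ⟨⟨g⟩⟩ | ⟨⟨g⟩⟩
    · exact Or.inl ⟨f.symm.toEmbedding.trans g⟩
    · exact Or.inr (Or.inl ⟨f.symm.toEmbedding.trans g⟩)
    · exact Or.inr (Or.inr ⟨f.symm.toEmbedding.trans g⟩)

end Q109.ITM
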