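import Pool.Agent.Q109.ITM.Paw
import Pool.Agent.Q109.ITM.Small
import Pool.Agent.Q109.ITM.Fam
import Pool.Agent.H175R2.Fam

/-! The classification. -/

namespace Q109.ITM

open SimpleGraph Finset Classical Pool.Agent.H175R2

variable {V W : Type}

/-! ### bounds -/

lemma built_nonempty {k : ℕ} {U : Type} {X : SimpleGraph U} {l : U → Fin k}
    (h : CwBuilt k U X l) : Nonempty U := by
  induction h with
  | single => infer_instance
  | union V W G H l m _ _ h1 _ =>
    obtain ⟨x⟩ := h1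
    exact ⟨Sum.inl x⟩
  | join _ _ _ _ _ _ _ h => exact h
  | relabel _ _ _ _ _ _ h => exact h

lemma cw_le {V : Type} [Finite V] {G : SimpleGraph V} {K : ℕ}
    (h : ∀ [Fintype V] [Nonempty V], DT G K univ univ) : cliqueWidth G ≤ 3 * (K + 1) := by
  have := Fintype.ofFinite V
  by_cases hne : Nonempty V
  · exact cliqueWidth_le_of_dt h
  · have : {k | CwLE G k} = ∅ := by
      ext k
      simp only [Set.mem_ofPred_eq, Set.mem_empty_iff_false, iff_false]
      rintro ⟨U, X, l, hb, ⟨e⟩⟩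
      obtain ⟨x⟩ := built_nonempty hb
      exact hne ⟨e.symm x⟩
    unfold cliqueWidth
    rw [this, Nat.sInf_empty]
    exact Nat.zero_le _

lemma exists_cwLE' {V : Type} [Finite V] [Nonempty V] (G : SimpleGraph V) : ∃ k, CwLE G k := by
  have := Fintype.ofFinite V
  exact ⟨_, cwLE_of_dt (dt_of_tame (k := Fintype.card V)
    ⟨univ, by rw [card_univ], fun x hx => by simp at hx⟩)⟩

lemma p4free_of_no {G : SimpleGraph V} [Fintype V] (h : ¬ IsITM P4 G) : P4Free G univ := by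
  intro a _ b _ c _ d _ _ _ _ hab hbc hcd
  by_contra hcon
  push Not at hcon
  obtain ⟨f⟩ := P_emb hab hbc hcd hcon.1 hcon.2.1 hcon.2.2
  exact h (IsITM.of_emb f)

lemma bounded_of_emb {H : SimpleGraph W}
    (h : Nonempty (H ↪g P4) ∨ Nonempty (H ↪g paw) ∨ Nonempty (H ↪g diamond)) :
    BoundedCliqueWidth H := by
  refine ⟨3 * (3 + 1), fun V _ G hG => ?_⟩
  apply cw_le
  intro _ _
  rcases h with ⟨⟨f⟩⟩ | ⟨⟨f⟩⟩ | ⟨⟨f⟩⟩
  · exact (dt_complete (p4free_of_no fun h => hG (h.mono_left f))).mono (by omega)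
  · exact dt_paw fun h => hG (h.mono_left f)
  · exact dt_diamond fun h => hG (h.mono_left f)

/-! ### unboundedness -/

lemma unbounded {H : SimpleGraph W}
    (h : ∀ c : ℕ, ∃ (V : Type) (_ : Finite V) (_ : Nonempty V) (G : SimpleGraph V),
      ¬ IsITM H G ∧ ∀ k ≤ c, ¬ CwLE G k) : ¬ BoundedCliqueWidth H := by
  rintro ⟨c, hc⟩
  obtain ⟨V, _, _, G, h1, h2⟩ := h c
  exact h2 _ (hc V G h1) (Nat.sInf_mem (s := {k | CwLE G k}) (exists_cwLE' G))

lemma cobip_not_three (n : ℕ) : ¬ Three (famCobip n) := by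
  rintro ⟨a, b, c, hab, hac, hbc, h1, h2, h3⟩
  have hl : ∀ i j : Fin n, i ≠ j → (famCobip n).Adj (.inl i) (.inl j) := by
    intro i j hij
    simp only [famCobip, fromRel_adj]
    exact ⟨by simpa using hij, Or.inl (Or.inl ⟨i, j, rfl, rfl⟩)⟩
  have hr : ∀ i j : Fin n × Fin n, i ≠ j → (famCobip n).Adj (.inr i) (.inr j) := by
    intro i j hij
    simp only [famCobip, fromRel_adj]
    exact ⟨by simpa using hij, Or.inl (Or.inr (Or.inl ⟨i, j, rfl, rfl⟩))⟩
  rcases a with a | a <;> rcases b with b | b <;> rcases c with c | c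
  · exact h1 (hl _ _ (by simpa using hab))
  · exact h1 (hl _ _ (by simpa using hab))
  · exact h2 (hl _ _ (by simpa using hac))
  · exact h3 (hr _ _ (by simpa using hbc))
  · exact h3 (hl _ _ (by simpa using hbc))
  · exact h2 (hr _ _ (by simpa using hac))
  · exact h1 (hr _ _ (by simpa using hab))
  · exact h1 (hr _ _ (by simpa using hab))

lemma famSplit_split (n : ℕ) : Split (famSplit n) := by
  refine ⟨fun x => ∃ i, x = .inl i, ?_, ?_⟩
  · rintro _ _ ⟨i, rfl⟩ ⟨j, rfl⟩ hij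
    simp only [famSplit, fromRel_adj]
    exact ⟨hij, Or.inl (Or.inl ⟨i, j, rfl, rfl⟩)⟩
  · intro a b ha hb hab
    rcases a with a | a
    · exact ha ⟨a, rfl⟩
    · rcases b with b | b
      · exact hb ⟨b, rfl⟩
      · simp only [famSplit, fromRel_adj] at hab
        rcases hab with ⟨_, (⟨_, _, h, _⟩ | ⟨_, _, h, _⟩) | (⟨_, _, h, _⟩ | ⟨_, _, h, _⟩)⟩ <;> cases h

lemma k4like_top : K4like (⊤ : SimpleGraph (Fin 4)) := by
  refine ⟨id, fun _ _ h => h, ?_, fun x _ _ _ _ _ => ⟨x, rfl⟩⟩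
  intro i
  fin_cases i
  · exact ⟨![1, 2, 3], by decide, by intro j; fin_cases j <;> simp⟩
  · exact ⟨![0, 2, 3], by decide, by intro j; fin_cases j <;> simp⟩
  · exact ⟨![0, 1, 3], by decide, by intro j; fin_cases j <;> simp⟩
  · exact ⟨![0, 1, 2], by decide, by intro j; fin_cases j <;> simp⟩

lemma triIso_K3P1 : TriIso K3P1 := by
  refine ⟨3, ?_, Or.inl ⟨0, 1, 2, ?_, ?_, ?_⟩⟩
  · intro x
    simp [K3P1]
  · simp [K3P1]
  · simp [K3P1]
  · simp [K3P1]

theorem emb_of_bounded [Finite W] {H : SimpleGraph W} (h : BoundedCliqueWidth H) :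
    Nonempty (H ↪g P4) ∨ Nonempty (H ↪g paw) ∨ Nonempty (H ↪g diamond) := by
  apply classify H
  · intro h3
    refine unbounded (fun c => ?_) h
    obtain ⟨n, hn, hk⟩ := famCobip_unbounded c 1
    exact ⟨_, inferInstance, ⟨.inl ⟨0, by omega⟩⟩, famCobip n,
      fun h => cobip_not_three n (h3.itm h), hk⟩
  · by_contra hs
    refine unbounded (fun c => ?_) h
    obtain ⟨n, hn, hk⟩ := famSplit_unbounded c 1
    exact ⟨_, inferInstance, ⟨.inl ⟨0, by omega⟩⟩, famSplit n,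
      fun h => hs (split_itm (famSplit_split n) h), hk⟩
  · rintro ⟨f⟩
    refine unbounded (fun c => ?_) h
    obtain ⟨n, hn, hk⟩ := fam_unbounded c
    exact ⟨_, inferInstance, ⟨(true, ⟨0, by omega⟩, ⟨0, by omega⟩, 0)⟩, fam n,
      fun h => k4_itm k4like_top (h.mono_left f) (fam_clawFree n) (fam_noDia n),
      fun k hkc => (hk k hkc).1⟩
  · rintro ⟨f⟩
    refine unbounded (fun c => ?_) h
    obtain ⟨n, hn, hk⟩ := fam_unbounded c
    exact ⟨_, inferInstance, ⟨(true, ⟨0, by omega⟩, ⟨0, by omega⟩, 0)⟩, (fam n)ᶜ,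
      fun h => tri_itm triIso_K3P1 (h.mono_left f) (fam_clawFree n) (fam_deg n),
      fun k hkc => (hk k hkc).2⟩
  · intro x hx
    refine unbounded (fun c => ?_) h
    obtain ⟨n, hn, hk⟩ := fam_unbounded c
    refine ⟨_, inferInstance, ⟨(true, ⟨0, by omega⟩, ⟨0, by omega⟩, 0)⟩, fam n,
      fun h => ?_, fun k hkc => (hk k hkc).1⟩
    obtain ⟨y, hy⟩ := four_itm ⟨x, hx⟩ h
    exact fam_deg n y hy

/-- The classification. -/
theorem main [Finite W] (H : SimpleGraph W) : BoundedCliqueWidth H ↔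
    (Nonempty (H ↪g P4) ∨ Nonempty (H ↪g paw) ∨ Nonempty (H ↪g diamond)) :=
  ⟨emb_of_bounded, bounded_of_emb⟩

end Q109.ITM
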