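import Pool.Agent.Q109.ITM.Crit

/-! Induced paths and induced cycles. -/

namespace Q109.ITM

open SimpleGraph Finset Classical Pool.Agent.H175R2

variable {V W : Type}

def IPath (G : SimpleGraph V) (m : ℕ) (p : ℕ → V) : Prop :=
  ∀ i ≤ m, ∀ j ≤ m, (p i = p j → i = j) ∧ (G.Adj (p i) (p j) ↔ (i + 1 = j ∨ j + 1 = i))

def ICyc (G : SimpleGraph V) (n : ℕ) (c : ℕ → V) : Prop :=
  3 ≤ n ∧ ∀ i j, (c i = c j ↔ i % n = j % n) ∧
    (G.Adj (c i) (c j) ↔ ((i + 1) % n = j % n ∨ (j + 1) % n = i % n))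

noncomputable def pset (p : ℕ → V) (m : ℕ) : Finset V := (range (m + 1)).image p

noncomputable def cset (c : ℕ → V) (n : ℕ) : Finset V := (range n).image c

lemma mem_pset {p : ℕ → V} {m : ℕ} {w : V} : w ∈ pset p m ↔ ∃ i ≤ m, p i = w := by
  simp [pset, Nat.lt_succ_iff]

lemma exists_chain {G : SimpleGraph V} {D : Finset V} (hD : Cn G D) {x z : V} (hx : x ∈ D)
    (hz : z ∈ D) : ∃ (m : ℕ) (p : ℕ → V), p 0 = x ∧ p m = z ∧ (∀ i ≤ m, p i ∈ D) ∧
      ∀ i < m, G.Adj (p i) (p (i + 1)) := by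
  by_contra hcon
  set T := D.filter (fun w => ∃ (m : ℕ) (p : ℕ → V), p 0 = x ∧ p m = w ∧ (∀ i ≤ m, p i ∈ D) ∧
      ∀ i < m, G.Adj (p i) (p (i + 1))) with hT
  have hxT : x ∈ T := by
    rw [hT, mem_filter]
    exact ⟨hx, 0, fun _ => x, rfl, rfl, fun _ _ => hx, fun i hi => absurd hi (by omega)⟩
  have hzT : z ∉ T := by
    rw [hT, mem_filter]
    exact fun h => hcon h.2
  obtain ⟨w, hw, u, hu, hwu⟩ := hD.2 T (filter_subset _ _) ⟨x, hxT⟩ ⟨z, mem_sdiff.2 ⟨hz, hzT⟩⟩
  rw [mem_sdiff] at hu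
  apply hu.2
  rw [hT, mem_filter] at hw ⊢
  obtain ⟨_, m, p, h0, hm, hD', hadj⟩ := hw
  refine ⟨hu.1, m + 1, fun t => if t ≤ m then p t else u, ?_, ?_, ?_, ?_⟩
  · simp [h0]
  · simp
  · intro i _
    simp only
    split_ifs with h
    · exact hD' i h
    · exact hu.1
  · intro i hi
    simp only
    by_cases h : i + 1 ≤ m
    · rw [if_pos (by omega), if_pos h]
      exact hadj i (by omega)
    · have : i = m := by omega
      subst this
      rw [if_pos le_rfl, if_neg h, hm]
      exact hwu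

lemma exists_ipath {G : SimpleGraph V} {D : Finset V} (hD : Cn G D) {x z : V} (hx : x ∈ D)
    (hz : z ∈ D) : ∃ (m : ℕ) (p : ℕ → V), IPath G m p ∧ p 0 = x ∧ p m = z ∧
      ∀ i ≤ m, p i ∈ D := by
  have hex : ∃ m : ℕ, ∃ (p : ℕ → V), p 0 = x ∧ p m = z ∧ (∀ i ≤ m, p i ∈ D) ∧
      ∀ i < m, G.Adj (p i) (p (i + 1)) := by
    obtain ⟨m, p, h⟩ := exists_chain hD hx hz
    exact ⟨m, p, h⟩
  set m := Nat.find hex with hm
  obtain ⟨p, h0, hmz, hpD, hadj⟩ := Nat.find_spec hex
  rw [← hm] at hmz hpD hadj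
  have hmin : ∀ m' < m, ¬ ∃ (p : ℕ → V), p 0 = x ∧ p m' = z ∧ (∀ i ≤ m', p i ∈ D) ∧
      ∀ i < m', G.Adj (p i) (p (i + 1)) := fun m' h => Nat.find_min hex h
  have short : ∀ i s, 0 < s → i + s ≤ m → (i + s < m → G.Adj (p i) (p (i + 1 + s))) →
      (i + s = m → p i = z) → False := by
    intro i s hs his h1 h2
    apply hmin (m - s) (by omega)
    refine ⟨fun t => if t ≤ i then p t else p (t + s), ?_, ?_, ?_, ?_⟩
    · simp [h0]
    · simp only
      split_ifs with h
      · have : m - s = i := by omega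
        rw [this]
        exact h2 (by omega)
      · have : m - s + s = m := by omega
        rw [this, hmz]
    · intro t ht
      simp only
      split_ifs with h
      · exact hpD _ (by omega)
      · exact hpD _ (by omega)
    · intro t ht
      simp only
      by_cases h : t + 1 ≤ i
      · rw [if_pos (by omega), if_pos h]
        exact hadj t (by omega)
      · by_cases h' : t ≤ i
        · have : t = i := by omega
          subst this
          rw [if_pos le_rfl, if_neg h]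
          exact h1 (by omega)
        · rw [if_neg h', if_neg (by omega)]
          have := hadj (t + s) (by omega)
          rwa [show t + s + 1 = t + 1 + s by omega] at this
  have hinj : ∀ i j, i < j → j ≤ m → p i ≠ p j := by
    intro i j hij hj he
    refine short i (j - i) (by omega) (by omega) ?_ ?_
    · intro h
      have := hadj j (by omega)
      rw [he, show i + 1 + (j - i) = j + 1 by omega]
      exact this
    · intro h
      have : j = m := by omega
      rw [he, this, hmz]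
  have hnadj : ∀ i j, i + 1 < j → j ≤ m → ¬ G.Adj (p i) (p j) := by
    intro i j hij hj he
    refine short i (j - i - 1) (by omega) (by omega) ?_ ?_
    · intro h
      rw [show i + 1 + (j - i - 1) = j by omega]
      exact he
    · intro h
      omega
  refine ⟨m, p, ?_, h0, hmz, hpD⟩
  have key : ∀ i j, i < j → j ≤ m → (G.Adj (p i) (p j) ↔ i + 1 = j) := by
    intro i j hij hj
    constructor
    · intro h
      by_contra hne
      exact hnadj i j (by omega) hj h
    · rintro rfl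
      exact hadj i (by omega)
  intro i hi j hj
  rcases lt_trichotomy i j with h | h | h
  · refine ⟨fun he => absurd he (hinj i j h hj), ?_⟩
    rw [key i j h hj]
    omega
  · subst h
    refine ⟨fun _ => rfl, iff_of_false (SimpleGraph.irrefl _) (by omega)⟩
  · refine ⟨fun he => absurd he.symm (hinj j i h hi), ?_⟩
    rw [G.adj_comm, key j i h hi]
    omega

lemma IPath.sub {G : SimpleGraph V} {m : ℕ} {p : ℕ → V} (h : IPath G m p) {i k : ℕ}
    (hk : i + k ≤ m) : IPath G k (fun t => p (i + t)) := by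
  intro a ha b hb
  obtain ⟨h1, h2⟩ := h (i + a) (by omega) (i + b) (by omega)
  refine ⟨fun he => by have := h1 he; omega, ?_⟩
  rw [h2]
  omega

lemma cn_pset {G : SimpleGraph V} {m : ℕ} {p : ℕ → V} (h : ∀ i < m, G.Adj (p i) (p (i + 1))) :
    Cn G (pset p m) := by
  induction m with
  | zero =>
    have : pset p 0 = {p 0} := by
      ext w
      rw [mem_pset, mem_singleton]
      constructor
      · rintro ⟨i, hi, rfl⟩
        rw [Nat.le_zero.1 hi]
      · rintro rfl
        exact ⟨0, le_rfl, rfl⟩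
    rw [this]
    exact Cn.singleton _
  | succ m ih =>
    have e : pset p (m + 1) = pset p m ∪ {p (m + 1)} := by
      ext w
      rw [mem_union, mem_pset, mem_pset, mem_singleton]
      constructor
      · rintro ⟨i, hi, rfl⟩
        by_cases h : i ≤ m
        · exact Or.inl ⟨i, h, rfl⟩
        · exact Or.inr (by rw [show i = m + 1 by omega])
      · rintro (⟨i, hi, rfl⟩ | rfl)
        · exact ⟨i, by omega, rfl⟩
        · exact ⟨m + 1, le_rfl, rfl⟩
    rw [e]
    exact (ih fun i hi => h i (by omega)).union (Cn.singleton _)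
      (Or.inl ⟨p m, mem_pset.2 ⟨m, le_rfl, rfl⟩, p (m + 1), by simp, h m (by omega)⟩)

lemma IPath.cn {G : SimpleGraph V} {m : ℕ} {p : ℕ → V} (h : IPath G m p) : Cn G (pset p m) :=
  cn_pset fun i hi => (h i (by omega) (i + 1) (by omega)).2.2 (Or.inl rfl)

lemma dg_union {G : SimpleGraph V} {A B : Finset V} (h : Disjoint A B) (w : V) :
    dg G (A ∪ B) w = dg G A w + dg G B w := by
  unfold dg
  rw [filter_union, card_union_of_disjoint]
  exact disjoint_filter_filter h

lemma dg_eq_zero {G : SimpleGraph V} {A : Finset V} {w : V} (h : ∀ z ∈ A, ¬ G.Adj w z) :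
    dg G A w = 0 := by
  unfold dg
  rw [card_eq_zero, filter_eq_empty_iff]
  intro z hz
  exact h z hz

lemma dg_eq_one {G : SimpleGraph V} {A : Finset V} {w u : V} (hu : u ∈ A)
    (h : ∀ z ∈ A, (G.Adj w z ↔ z = u)) : dg G A w = 1 := by
  unfold dg
  rw [card_eq_one]
  refine ⟨u, ?_⟩
  ext z
  rw [mem_filter, mem_singleton]
  constructor
  · rintro ⟨h1, h2⟩
    exact (h z h1).1 h2
  · rintro rfl
    exact ⟨hu, (h z hu).2 rfl⟩

lemma dg_eq_two {G : SimpleGraph V} {A : Finset V} {w u t : V} (hu : u ∈ A) (ht : t ∈ A)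
    (hut : u ≠ t) (h : ∀ z ∈ A, (G.Adj w z ↔ z = u ∨ z = t)) : dg G A w = 2 := by
  unfold dg
  rw [card_eq_two]
  refine ⟨u, t, hut, ?_⟩
  ext z
  rw [mem_filter, mem_insert, mem_singleton]
  constructor
  · rintro ⟨h1, h2⟩
    exact (h z h1).1 h2
  · rintro (rfl | rfl)
    · exact ⟨hu, (h z hu).2 (Or.inl rfl)⟩
    · exact ⟨ht, (h z ht).2 (Or.inr rfl)⟩

lemma dg_eq_three {G : SimpleGraph V} {A : Finset V} {w u t s : V} (hu : u ∈ A) (ht : t ∈ A)
    (hs : s ∈ A) (hut : u ≠ t) (hus : u ≠ s) (hts : t ≠ s)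
    (h : ∀ z ∈ A, (G.Adj w z ↔ z = u ∨ z = t ∨ z = s)) : dg G A w = 3 := by
  unfold dg
  rw [card_eq_three]
  refine ⟨u, t, s, hut, hus, hts, ?_⟩
  ext z
  rw [mem_filter, mem_insert, mem_insert, mem_singleton]
  constructor
  · rintro ⟨h1, h2⟩
    exact (h z h1).1 h2
  · rintro (rfl | rfl | rfl)
    · exact ⟨hu, (h z hu).2 (Or.inl rfl)⟩
    · exact ⟨ht, (h z ht).2 (Or.inr (Or.inl rfl))⟩
    · exact ⟨hs, (h z hs).2 (Or.inr (Or.inr rfl))⟩

/-- degrees in a path: interior -/
lemma IPath.dg_int {G : SimpleGraph V} {m : ℕ} {p : ℕ → V} (h : IPath G m p) {i : ℕ} (h0 : 0 < i)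
    (hi : i < m) : dg G (pset p m) (p i) = 2 := by
  refine dg_eq_two (u := p (i - 1)) (t := p (i + 1)) (mem_pset.2 ⟨_, by omega, rfl⟩)
    (mem_pset.2 ⟨_, by omega, rfl⟩) ?_ ?_
  · intro he
    have := (h _ (by omega) _ (by omega)).1 he
    omega
  · intro z hz
    obtain ⟨j, hj, rfl⟩ := mem_pset.1 hz
    rw [(h i (by omega) j hj).2]
    constructor
    · rintro (h1 | h1)
      · right; rw [h1]
      · left; rw [show i - 1 = j by omega]
    · rintro (h1 | h1)
      · have := (h _ hj _ (by omega)).1 h1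
        omega
      · have := (h _ hj _ (by omega)).1 h1
        omega

lemma IPath.dg_zero {G : SimpleGraph V} {m : ℕ} {p : ℕ → V} (h : IPath G m p)
    (hm : 0 < m) : dg G (pset p m) (p 0) = 1 := by
  refine dg_eq_one (u := p 1) (mem_pset.2 ⟨_, by omega, rfl⟩) ?_
  intro z hz
  obtain ⟨j, hj, rfl⟩ := mem_pset.1 hz
  rw [(h 0 (by omega) j hj).2]
  constructor
  · rintro (h1 | h1)
    · rw [← h1]
    · omega
  · intro h1
    have := (h _ hj _ (by omega)).1 h1
    omega

lemma IPath.dg_last {G : SimpleGraph V} {m : ℕ} {p : ℕ → V} (h : IPath G m p)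
    (hm : 0 < m) : dg G (pset p m) (p m) = 1 := by
  refine dg_eq_one (u := p (m - 1)) (mem_pset.2 ⟨_, by omega, rfl⟩) ?_
  intro z hz
  obtain ⟨j, hj, rfl⟩ := mem_pset.1 hz
  rw [(h m (by omega) j hj).2]
  constructor
  · rintro (h1 | h1)
    · omega
    · rw [← h1]; rfl
  · intro h1
    have := (h _ hj _ (by omega)).1 h1
    omega

lemma IPath.dg_single {G : SimpleGraph V} {p : ℕ → V} : dg G (pset p 0) (p 0) = 0 := by
  apply dg_eq_zero
  intro z hz
  obtain ⟨j, hj, rfl⟩ := mem_pset.1 hz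
  rw [Nat.le_zero.1 hj]
  exact SimpleGraph.irrefl _

/-! ### cycles -/

lemma mod_succ_eq {n i : ℕ} (hn : 0 < n) :
    (i + 1) % n = if i % n = n - 1 then 0 else i % n + 1 := by
  have h1 := Nat.mod_lt i hn
  rw [Nat.add_mod]
  by_cases h2 : n = 1
  · subst h2; simp [Nat.mod_one]
  · rw [Nat.mod_eq_of_lt (show 1 < n by omega)]
    split_ifs with h
    · rw [h, show n - 1 + 1 = n by omega, Nat.mod_self]
    · exact Nat.mod_eq_of_lt (by omega)

lemma mem_cset {G : SimpleGraph V} {n : ℕ} {c : ℕ → V} (h : ICyc G n c) {w : V} :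
    w ∈ cset c n ↔ ∃ i, c i = w := by
  unfold cset
  rw [mem_image]
  constructor
  · rintro ⟨i, _, rfl⟩
    exact ⟨i, rfl⟩
  · rintro ⟨i, rfl⟩
    refine ⟨i % n, mem_range.2 (Nat.mod_lt _ (by have := h.1; omega)), ?_⟩
    rw [(h.2 _ _).1, Nat.mod_mod]

lemma ICyc.of_path {G : SimpleGraph V} {m : ℕ} {p : ℕ → V} (h : IPath G m p) (hm : 1 ≤ m) {y : V}
    (hy : ∀ i ≤ m, p i ≠ y) (hadj : ∀ i ≤ m, (G.Adj y (p i) ↔ i = 0 ∨ i = m)) :
    ICyc G (m + 2) (fun t => if t % (m + 2) = m + 1 then y else p (t % (m + 2))) := by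
  refine ⟨by omega, fun i j => ?_⟩
  have hi := Nat.mod_lt i (show 0 < m + 2 by omega)
  have hj := Nat.mod_lt j (show 0 < m + 2 by omega)
  rw [mod_succ_eq (i := i) (show 0 < m + 2 by omega), mod_succ_eq (i := j) (show 0 < m + 2 by omega)]
  simp only [show m + 2 - 1 = m + 1 by omega]
  generalize i % (m + 2) = r at *
  generalize j % (m + 2) = s at *
  by_cases hr : r = m + 1 <;> by_cases hs : s = m + 1
  · simp [hr, hs]
  · rw [if_pos hr, if_neg hs, if_pos hr, if_neg hs]
    refine ⟨iff_of_false (fun he => hy s (by omega) he.symm) (by omega), ?_⟩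
    rw [hadj s (by omega)]
    omega
  · rw [if_neg hr, if_pos hs, if_neg hr, if_pos hs]
    refine ⟨iff_of_false (fun he => hy r (by omega) he) (by omega), ?_⟩
    rw [G.adj_comm, hadj r (by omega)]
    omega
  · rw [if_neg hr, if_neg hs, if_neg hr, if_neg hs]
    obtain ⟨h1, h2⟩ := h r (by omega) s (by omega)
    refine ⟨⟨h1, fun he => by rw [he]⟩, ?_⟩
    rw [h2]

lemma ICyc.path {G : SimpleGraph V} {n : ℕ} {c : ℕ → V} (h : ICyc G n c) (i : ℕ) :
    IPath G (n - 2) (fun t => c (i + t)) := by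
  have hn := h.1
  intro a ha b hb
  obtain ⟨h1, h2⟩ := h.2 (i + a) (i + b)
  have key : ∀ x y : ℕ, x < n → y < n → ((i + x) % n = (i + y) % n ↔ x = y) := by
    intro x y hx hy
    constructor
    · intro he
      have h3 : (i + x) ≡ (i + y) [MOD n] := he
      have h4 := Nat.ModEq.add_left_cancel' i h3
      unfold Nat.ModEq at h4
      rwa [Nat.mod_eq_of_lt hx, Nat.mod_eq_of_lt hy] at h4
    · rintro rfl; rfl
  refine ⟨fun he => (key a b (by omega) (by omega)).1 (h1.1 he), ?_⟩
  rw [h2, add_assoc, add_assoc, key (a + 1) b (by omega) (by omega),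
    key (b + 1) a (by omega) (by omega)]

lemma ICyc.erase {G : SimpleGraph V} {n : ℕ} {c : ℕ → V} (h : ICyc G n c) (i : ℕ) :
    (cset c n).erase (c i) = pset (fun t => c (i + 1 + t)) (n - 2) := by
  have hn := h.1
  ext w
  rw [mem_erase, mem_cset h, mem_pset]
  constructor
  · rintro ⟨h1, j, rfl⟩
    have h2 : ¬ j % n = i % n := fun he => h1 ((h.2 _ _).1.2 he)
    -- choose the representative
    have h3 := Nat.mod_lt i (show 0 < n by omega)
    have h4 := Nat.mod_lt j (show 0 < n by omega)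
    refine ⟨(j % n + n - i % n - 1) % n, ?_, ?_⟩
    · by_cases h5 : i % n < j % n
      · have : (j % n + n - i % n - 1) % n = j % n - i % n - 1 := by
          rw [show j % n + n - i % n - 1 = (j % n - i % n - 1) + n by omega, Nat.add_mod_right,
            Nat.mod_eq_of_lt (by omega)]
        omega
      · have : (j % n + n - i % n - 1) % n = j % n + n - i % n - 1 := Nat.mod_eq_of_lt (by omega)
        omega
    · rw [(h.2 _ _).1]
      have h6 : (i + 1 + (j % n + n - i % n - 1) % n) % n =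
          (i % n + 1 + (j % n + n - i % n - 1)) % n := by
        rw [Nat.add_mod, Nat.mod_mod, ← Nat.add_mod, Nat.add_mod (i + 1), Nat.add_mod i 1,
          Nat.add_mod (i % n + 1), Nat.add_mod (i % n) 1, Nat.mod_mod]
      rw [h6, show i % n + 1 + (j % n + n - i % n - 1) = j % n + n by omega, Nat.add_mod_right,
        Nat.mod_mod]
  · rintro ⟨t, ht, rfl⟩
    refine ⟨?_, _, rfl⟩
    intro he
    have := (h.2 _ _).1.1 he
    have h3 : (i + (1 + t)) ≡ (i + 0) [MOD n] := by
      unfold Nat.ModEq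
      rw [← add_assoc, add_zero]; exact this
    have h4 := Nat.ModEq.add_left_cancel' i h3
    unfold Nat.ModEq at h4
    rw [Nat.mod_eq_of_lt (show 1 + t < n by omega), Nat.mod_eq_of_lt (show 0 < n by omega)] at h4
    omega

lemma ICyc.cn_erase {G : SimpleGraph V} {n : ℕ} {c : ℕ → V} (h : ICyc G n c) {x : V}
    (hx : x ∈ cset c n) : Cn G ((cset c n).erase x) := by
  obtain ⟨i, rfl⟩ := (mem_cset h).1 hx
  rw [h.erase i]
  exact (h.path (i + 1)).cn

lemma ICyc.adj_succ {G : SimpleGraph V} {n : ℕ} {c : ℕ → V} (h : ICyc G n c) (i : ℕ) :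
    G.Adj (c i) (c (i + 1)) := (h.2 _ _).2.2 (Or.inl rfl)

lemma ICyc.cn {G : SimpleGraph V} {n : ℕ} {c : ℕ → V} (h : ICyc G n c) :
    Cn G (cset c n) := by
  have : cset c n = pset c (n - 1) := by
    unfold cset pset
    rw [show n - 1 + 1 = n by have := h.1; omega]
  rw [this]
  exact cn_pset fun i _ => h.adj_succ i

lemma ICyc.dg {G : SimpleGraph V} {n : ℕ} {c : ℕ → V} (h : ICyc G n c) {x : V}
    (hx : x ∈ cset c n) : dg G (cset c n) x = 2 := by
  have hn := h.1
  obtain ⟨i, rfl⟩ := (mem_cset h).1 hx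
  have hlast : (i + (n - 1) + 1) % n = i % n := by
    rw [show i + (n - 1) + 1 = i + n by omega, Nat.add_mod_right]
  refine dg_eq_two (u := c (i + 1)) (t := c (i + (n - 1))) ((mem_cset h).2 ⟨_, rfl⟩)
    ((mem_cset h).2 ⟨_, rfl⟩) ?_ ?_
  · intro he
    have h3 : (i + 1) ≡ (i + (n - 1)) [MOD n] := (h.2 _ _).1.1 he
    have h4 := Nat.ModEq.add_left_cancel' i h3
    unfold Nat.ModEq at h4
    rw [Nat.mod_eq_of_lt (show 1 < n by omega), Nat.mod_eq_of_lt (show n - 1 < n by omega)] at h4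
    omega
  · intro z hz
    obtain ⟨j, rfl⟩ := (mem_cset h).1 hz
    rw [(h.2 _ _).2, (h.2 _ _).1, (h.2 _ _).1]
    constructor
    · rintro (h1 | h1)
      · exact Or.inl h1.symm
      · right
        have h3 : (j + 1) ≡ (i + (n - 1) + 1) [MOD n] := by
          unfold Nat.ModEq; rw [h1, hlast]
        exact Nat.ModEq.add_right_cancel' 1 h3
    · rintro (h1 | h1)
      · exact Or.inl h1.symm
      · right
        have h3 : (j + 1) ≡ (i + (n - 1) + 1) [MOD n] := Nat.ModEq.add_right 1 h1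
        unfold Nat.ModEq at h3
        rw [h3, hlast]

end Q109.ITM
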