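import Pool.Agent.Q109.ITM.Diam

/-! Structure of graphs without an induced subdivision of the paw. -/

namespace Q109.ITM

open SimpleGraph Finset Classical Pool.Agent.H175R2

variable {V W : Type}

lemma ICyc.comap {U V : Type} (e : U ↪ V) (G : SimpleGraph V) {n : ℕ} {c : ℕ → U}
    (h : ICyc (G.comap e) n c) : ICyc G n (fun t => e (c t)) := by
  refine ⟨h.1, fun i j => ?_⟩
  obtain ⟨h1, h2⟩ := h.2 i j
  refine ⟨by rw [← h1]; exact e.injective.eq_iff, ?_⟩
  rw [← h2]
  rfl

/-- a 2-connected graph has an induced cycle -/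
lemma exists_icyc [Fintype V] {G : SimpleGraph V} (h2 : TwoConn G) : ∃ n c, ICyc G n c := by
  have hne : Nonempty V := Fintype.card_pos_iff.1 (by have := h2.card; omega)
  obtain ⟨y⟩ := hne
  have h3 : 3 ≤ (univ : Finset V).card := by rw [card_univ]; exact h2.card
  obtain ⟨y', hy', x, hx, hyx⟩ := h2.conn.2 {y} (subset_univ _) (by simp) (by
    rw [← card_pos, card_sdiff_of_subset (subset_univ _), card_singleton]; omega)
  rw [mem_singleton] at hy'
  subst hy'
  obtain ⟨y'', hy'', z, hz, hyz⟩ := (h2.del x).2 {y'} (by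
      rw [singleton_subset_iff, mem_erase]
      exact ⟨hyx.ne, mem_univ _⟩) (by simp) (by
    rw [← card_pos, card_sdiff_of_subset (by
      rw [singleton_subset_iff, mem_erase]
      exact ⟨hyx.ne, mem_univ _⟩), card_singleton, card_erase_of_mem (mem_univ _)]; omega)
  rw [mem_singleton] at hy''
  subst hy''
  rw [mem_sdiff, mem_erase] at hz
  obtain ⟨m, p, hp, hp0, hpm, hpD⟩ := exists_ipath (h2.del y'') (x := x) (z := z)
    (mem_erase.2 ⟨hyx.ne', mem_univ _⟩) (mem_erase.2 ⟨hyz.ne', mem_univ _⟩)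
  have hpy : ∀ i ≤ m, p i ≠ y'' := fun i hi => (mem_erase.1 (hpD i hi)).1
  have hm : 1 ≤ m := by
    by_contra hcon
    have : m = 0 := by omega
    rw [this, hp0] at hpm
    exact hz.1.1 hpm.symm
  have hex : ∃ t, 1 ≤ t ∧ G.Adj y'' (p t) := ⟨m, hm, by rw [hpm]; exact hyz⟩
  set k := Nat.find hex with hk
  obtain ⟨hk1, hk2⟩ := Nat.find_spec hex
  rw [← hk] at hk1 hk2
  have hkm : k ≤ m := Nat.find_min' hex ⟨hm, by rw [hpm]; exact hyz⟩
  refine ⟨_, _, ICyc.of_path (m := k) (p := fun t => p (0 + t)) (hp.sub (by omega)) hk1 (y := y'')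
    (fun i hi => hpy _ (by omega)) ?_⟩
  intro i hi
  simp only [zero_add]
  constructor
  · intro hadj
    by_contra hcon
    push Not at hcon
    exact Nat.find_min hex (show i < k by omega) ⟨by omega, hadj⟩
  · rintro (rfl | rfl)
    · rw [hp0]; exact hyx
    · exact hk2

theorem dt_forest [Fintype V] {G : SimpleGraph V} (hc : Cn G univ)
    (h : ∀ n c, ¬ ICyc G n c) : DT G 3 univ univ :=
  dt_of_blocks' (fun _ G => ∀ n c, ¬ ICyc G n c) (fun _ _ e G h n _ h' => h n _ (h'.comap e G)) 2
    (fun _ _ G h2 hG => by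
      obtain ⟨n, c, h⟩ := exists_icyc h2
      exact absurd h (hG n c)) (Fintype.card V) V G le_rfl hc h

/-- an induced paw -/
lemma paw_tri {G : SimpleGraph V} (hno : ¬ IsITM paw G) {a b c v : V} (hab : G.Adj a b)
    (hac : G.Adj a c) (hbc : G.Adj b c) (hva : G.Adj v a) (hvb : v ≠ b) (hvc : v ≠ c) :
    G.Adj v b ∨ G.Adj v c := by
  by_contra hcon
  push Not at hcon
  obtain ⟨h1, h2⟩ := hcon
  apply hno
  have hinj : Function.Injective (![a, b, c, v] : Fin 4 → V) := by
    have n1 := hab.ne
    have n2 := hac.ne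
    have n3 := hbc.ne
    have n4 := hva.ne'
    intro i j hij
    fin_cases i <;> fin_cases j <;> simp at hij ⊢ <;> simp_all
  refine IsITM.of_emb ⟨⟨![a, b, c, v], hinj⟩, ?_⟩
  intro i j
  simp only [Function.Embedding.coeFn_mk]
  fin_cases i <;> fin_cases j <;>
    simp [paw, hab, hab.symm, hac, hac.symm, hbc, hbc.symm, hva, hva.symm, h1, h2,
      G.adj_comm b v, G.adj_comm c v]

/-- an induced four-cycle and a vertex: not exactly one neighbour -/
lemma paw_c4 {G : SimpleGraph V} (hno : ¬ IsITM paw G)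
    (htri : ∀ x y z, G.Adj x y → G.Adj x z → ¬ G.Adj y z) {a b c d v : V} (hab : G.Adj a b)
    (hbc : G.Adj b c) (hcd : G.Adj c d) (hda : G.Adj d a) (hac : a ≠ c) (hbd : b ≠ d)
    (hva : G.Adj v a) : G.Adj v c := by
  by_contra hvc
  have nac : ¬ G.Adj a c := fun h => htri b a c hab.symm hbc h
  have nbd : ¬ G.Adj b d := fun h => htri a b d hab hda.symm h
  have nvb : ¬ G.Adj v b := fun h => htri v a b hva h hab
  have nvd : ¬ G.Adj v d := fun h => htri v a d hva h hda.symm
  by_cases hvC : v ∈ ({a, b, c, d} : Finset V)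
  · simp only [mem_insert, mem_singleton] at hvC
    rcases hvC with rfl | rfl | rfl | rfl
    · exact hva.ne rfl
    · exact hvc hbc
    · exact nac hva.symm
    · exact hvc hcd.symm
  · apply hno
    refine PawC.itm (C := {a, b, c, d}) (v := v) (u := a) ⟨?_, ?_, by simp, hvC, ?_⟩
    · have e : ({a, b, c, d} : Finset V) = (({a} ∪ {b}) ∪ {c}) ∪ {d} := by
        ext z; simp [or_assoc]
      rw [e]
      refine (((Cn.singleton a).union (Cn.singleton b) (Or.inl ⟨a, by simp, b, by simp, hab⟩)).union
        (Cn.singleton c) (Or.inl ⟨b, by simp, c, by simp, hbc⟩)).union (Cn.singleton d)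
        (Or.inl ⟨c, by simp, d, by simp, hcd⟩)
    · intro w hw
      simp only [mem_insert, mem_singleton] at hw
      rcases hw with rfl | rfl | rfl | rfl
      · refine dg_eq_two (u := b) (t := d) (by simp) (by simp) hbd ?_
        intro z hz
        simp only [mem_insert, mem_singleton] at hz
        rcases hz with rfl | rfl | rfl | rfl
        · simp [hab.ne, hda.ne']
        · simp [hab]
        · simp [nac, hbc.ne', hcd.ne]
        · simp [hda.symm]
      · refine dg_eq_two (u := a) (t := c) (by simp) (by simp) hac ?_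
        intro z hz
        simp only [mem_insert, mem_singleton] at hz
        rcases hz with rfl | rfl | rfl | rfl
        · simp [hab.symm]
        · simp [hab.ne', hbc.ne]
        · simp [hbc]
        · simp [nbd, hda.ne, hcd.ne']
      · refine dg_eq_two (u := b) (t := d) (by simp) (by simp) hbd ?_
        intro z hz
        simp only [mem_insert, mem_singleton] at hz
        rcases hz with rfl | rfl | rfl | rfl
        · simp [G.adj_comm w z, nac, hab.ne, hda.ne']
        · simp [hbc.symm]
        · simp [hbc.ne', hcd.ne]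
        · simp [hcd]
      · refine dg_eq_two (u := a) (t := c) (by simp) (by simp) hac ?_
        intro z hz
        simp only [mem_insert, mem_singleton] at hz
        rcases hz with rfl | rfl | rfl | rfl
        · simp [hda]
        · simp [G.adj_comm w z, nbd, hab.ne', hbc.ne]
        · simp [hcd.symm]
        · simp [hda.ne, hcd.ne']
    · intro z hz
      simp only [mem_insert, mem_singleton] at hz
      rcases hz with rfl | rfl | rfl | rfl
      · simp [hva]
      · simp [nvb, hab.ne']
      · simp [hvc, hac.symm]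
      · simp [nvd, hda.ne]

lemma paw_case_tri [Fintype V] {G : SimpleGraph V} (hc : Cn G univ) (hno : ¬ IsITM paw G)
    {t1 t2 t3 : V} (h12 : G.Adj t1 t2) (h13 : G.Adj t1 t3) (h23 : G.Adj t2 t3) :
    P4Free G univ := by
  -- every vertex has two neighbours in every triangle
  have key : ∀ a b c : V, G.Adj a b → G.Adj a c → G.Adj b c → ∀ v,
      (G.Adj v a ∧ G.Adj v b) ∨ (G.Adj v a ∧ G.Adj v c) ∨ (G.Adj v b ∧ G.Adj v c) := by
    intro a b c hab hac hbc
    by_contra hcon
    push Not at hcon
    obtain ⟨v, hv⟩ := hcon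
    set S := (univ : Finset V).filter (fun v => (G.Adj v a ∧ G.Adj v b) ∨ (G.Adj v a ∧ G.Adj v c) ∨
      (G.Adj v b ∧ G.Adj v c)) with hS
    have hmem : ∀ v, v ∈ S ↔ (G.Adj v a ∧ G.Adj v b) ∨ (G.Adj v a ∧ G.Adj v c) ∨
      (G.Adj v b ∧ G.Adj v c) := by intro v; simp [hS]
    have haS : a ∈ S := (hmem a).2 (Or.inr (Or.inr ⟨hab, hac⟩))
    have hbS : b ∈ S := (hmem b).2 (Or.inr (Or.inl ⟨hab.symm, hbc⟩))
    have hcS : c ∈ S := (hmem c).2 (Or.inl ⟨hac.symm, hbc.symm⟩)
    have hvS : v ∉ S := fun h => by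
      rcases (hmem v).1 h with h | h | h
      · exact hv.1 h.1 h.2
      · exact hv.2.1 h.1 h.2
      · exact hv.2.2 h.1 h.2
    obtain ⟨w, hw, u, hu, hwu⟩ := hc.2 S (subset_univ _) ⟨a, haS⟩ ⟨v, by simp [hvS]⟩
    rw [mem_sdiff] at hu
    have hua : u ≠ a := by rintro rfl; exact hu.2 haS
    have hub : u ≠ b := by rintro rfl; exact hu.2 hbS
    have huc : u ≠ c := by rintro rfl; exact hu.2 hcS
    have hnS : ¬ ((G.Adj u a ∧ G.Adj u b) ∨ (G.Adj u a ∧ G.Adj u c) ∨ (G.Adj u b ∧ G.Adj u c)) :=
      fun h => hu.2 ((hmem u).2 h)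
    have na : ¬ G.Adj u a := fun h => by
      rcases paw_tri hno hab hac hbc h hub huc with h' | h'
      · exact hnS (Or.inl ⟨h, h'⟩)
      · exact hnS (Or.inr (Or.inl ⟨h, h'⟩))
    have nb : ¬ G.Adj u b := fun h => by
      rcases paw_tri hno hab.symm hbc hac h hua huc with h' | h'
      · exact na h'
      · exact hnS (Or.inr (Or.inr ⟨h, h'⟩))
    have nc : ¬ G.Adj u c := fun h => by
      rcases paw_tri hno hac.symm hbc.symm hab h hua hub with h' | h'
      · exact na h'
      · exact nb h'
    rcases (hmem w).1 hw with h | h | h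
    · rcases paw_tri hno h.1 h.2 hab hwu.symm hua hub with h' | h'
      · exact na h'
      · exact nb h'
    · rcases paw_tri hno h.1 h.2 hac hwu.symm hua huc with h' | h'
      · exact na h'
      · exact nc h'
    · rcases paw_tri hno h.1 h.2 hbc hwu.symm hub huc with h' | h'
      · exact nb h'
      · exact nc h'
  -- every edge dominates
  have edge : ∀ a c b : V, G.Adj a c → G.Adj b a ∨ G.Adj b c := by
    intro a c b hac
    have hcom : ∃ t, G.Adj a t ∧ G.Adj c t := by
      have k1 := key _ _ _ h12 h13 h23 a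
      have k2 := key _ _ _ h12 h13 h23 c
      rcases k1 with ⟨p, q⟩ | ⟨p, q⟩ | ⟨p, q⟩ <;> rcases k2 with ⟨r, s⟩ | ⟨r, s⟩ | ⟨r, s⟩
      · exact ⟨_, p, r⟩
      · exact ⟨_, p, r⟩
      · exact ⟨_, q, r⟩
      · exact ⟨_, p, r⟩
      · exact ⟨_, p, r⟩
      · exact ⟨_, q, s⟩
      · exact ⟨_, p, s⟩
      · exact ⟨_, q, s⟩
      · exact ⟨_, p, r⟩
    obtain ⟨t, hat, hct⟩ := hcom
    rcases key a c t hac hat hct b with h | h | h
    · exact Or.inl h.1
    · exact Or.inl h.1
    · exact Or.inr h.1
  intro a _ b _ c _ d _ _ _ _ hab _ _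
  rcases edge a b d hab with h | h
  · exact Or.inr (Or.inl h.symm)
  · exact Or.inr (Or.inr h.symm)

lemma paw_case_c4 [Fintype V] {G : SimpleGraph V} (hcn : Cn G univ) (hno : ¬ IsITM paw G)
    (htri : ∀ x y z, G.Adj x y → G.Adj x z → ¬ G.Adj y z) {a b c d : V} (hab : G.Adj a b)
    (hbc : G.Adj b c) (hcd : G.Adj c d) (hda : G.Adj d a) (hac : a ≠ c) (hbd : b ≠ d) :
    P4Free G univ := by
  have ka : ∀ v, G.Adj v a → G.Adj v c := fun v h => paw_c4 hno htri hab hbc hcd hda hac hbd h
  have kb : ∀ v, G.Adj v b → G.Adj v d := fun v h =>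
    paw_c4 hno htri hbc hcd hda hab hbd hac.symm h
  have kc : ∀ v, G.Adj v c → G.Adj v a := fun v h =>
    paw_c4 hno htri hcd hda hab hbc hac.symm hbd.symm h
  have kd : ∀ v, G.Adj v d → G.Adj v b := fun v h =>
    paw_c4 hno htri hda hab hbc hcd hbd.symm hac h
  have hall : ∀ v, (G.Adj v a ∧ G.Adj v c) ∨ (G.Adj v b ∧ G.Adj v d) := by
    by_contra hcon
    push Not at hcon
    obtain ⟨v, hv⟩ := hcon
    set S := (univ : Finset V).filter (fun v => (G.Adj v a ∧ G.Adj v c) ∨ (G.Adj v b ∧ G.Adj v d))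
      with hS
    have hmem : ∀ v, v ∈ S ↔ (G.Adj v a ∧ G.Adj v c) ∨ (G.Adj v b ∧ G.Adj v d) := by
      intro v; simp [hS]
    obtain ⟨w, hw, u, hu, hwu⟩ := hcn.2 S (subset_univ _)
      ⟨a, (hmem a).2 (Or.inr ⟨hab, hda.symm⟩)⟩ ⟨v, by
        simp only [mem_sdiff, mem_univ, true_and, hmem]
        rintro (h | h)
        · exact hv.1 h.1 h.2
        · exact hv.2 h.1 h.2⟩
    rw [mem_sdiff, hmem] at hu
    have na : ¬ G.Adj u a := fun h => hu.2 (Or.inl ⟨h, ka u h⟩)
    have nb : ¬ G.Adj u b := fun h => hu.2 (Or.inr ⟨h, kb u h⟩)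
    rcases (hmem w).1 hw with ⟨h1, h2⟩ | ⟨h1, h2⟩
    · have hwb : w ≠ b := by rintro rfl; exact nb hwu.symm
      exact nb (paw_c4 hno htri (a := w) (b := a) (c := b) (d := c) h1 hab hbc h2.symm
        hwb hac hwu.symm)
    · have hwa : w ≠ a := by rintro rfl; exact na hwu.symm
      exact na (paw_c4 hno htri (a := w) (b := b) (c := a) (d := d) h1 hab.symm hda.symm h2.symm
        hwa hbd hwu.symm)
  -- the two sides are completely joined
  have join : ∀ p s, G.Adj p a → G.Adj s b → G.Adj p s := by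
    intro p s hpa hsb
    by_cases hpb : p = b
    · subst hpb; exact hsb.symm
    · exact (paw_c4 hno htri (a := b) (b := a) (c := p) (d := c) hab.symm hpa.symm (ka p hpa)
        hbc.symm (Ne.symm hpb) hac hsb).symm
  intro p _ q _ r _ s _ _ _ _ hpq hqr hrs
  right; left
  rcases hall p with hp | hp
  · rcases hall q with hq | hq
    · exact absurd hpq (htri a p q hp.1.symm hq.1.symm)
    · rcases hall r with hr | hr
      · rcases hall s with hs | hs
        · exact absurd hrs (htri a r s hr.1.symm hs.1.symm)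
        · exact join p s hp.1 hs.1
      · exact absurd hqr (htri b q r hq.1.symm hr.1.symm)
  · rcases hall q with hq | hq
    · rcases hall r with hr | hr
      · exact absurd hqr (htri a q r hq.1.symm hr.1.symm)
      · rcases hall s with hs | hs
        · exact (join s p hs.1 hp.1).symm
        · exact absurd hrs (htri b r s hr.1.symm hs.1.symm)
    · exact absurd hpq (htri b p q hp.1.symm hq.1.symm)

lemma paw_case_cyc [Fintype V] {G : SimpleGraph V} (hcn : Cn G univ) (hno : ¬ IsITM paw G)
    (htri : ∀ x y z, G.Adj x y → G.Adj x z → ¬ G.Adj y z)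
    (h4 : ∀ a b c d, G.Adj a b → G.Adj b c → G.Adj c d → G.Adj d a → a ≠ c → b = d)
    {n : ℕ} {c : ℕ → V} (hc : ICyc G n c) : ∀ x, dg G univ x ≤ 2 := by
  have hn := hc.1
  have hall : ∀ v, v ∈ cset c n := by
    by_contra hcon
    push Not at hcon
    obtain ⟨v1, hv1⟩ := hcon
    obtain ⟨x, hx, v, hv, hxv⟩ := hcn.2 (cset c n) (subset_univ _)
      ⟨c 0, (mem_cset hc).2 ⟨0, rfl⟩⟩ ⟨v1, by simp [hv1]⟩
    rw [mem_sdiff] at hv
    obtain ⟨i0, rfl⟩ := (mem_cset hc).1 hx
    by_cases hone : ∀ z ∈ cset c n, G.Adj v z → z = c i0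
    · apply hno
      refine PawC.itm (C := cset c n) (v := v) (u := c i0) ⟨hc.cn, fun w hw => hc.dg hw, hx, hv.2, ?_⟩
      intro z hz
      exact ⟨hone z hz, fun h => by rw [h]; exact hxv.symm⟩
    · push Not at hone
      obtain ⟨z, hz, hvz, hzne⟩ := hone
      have hzE : z ∈ (cset c n).erase (c i0) := mem_erase.2 ⟨hzne, hz⟩
      rw [hc.erase i0] at hzE
      obtain ⟨t, ht, htz⟩ := mem_pset.1 hzE
      have hex : ∃ t, 1 ≤ t ∧ G.Adj v (c (i0 + t)) :=
        ⟨t + 1, by omega, by rw [show i0 + (t + 1) = i0 + 1 + t by omega, htz]; exact hvz⟩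
      set j := Nat.find hex with hj
      obtain ⟨hj1, hj2⟩ := Nat.find_spec hex
      rw [← hj] at hj1 hj2
      have hjt : j ≤ t + 1 := Nat.find_min' hex
        ⟨by omega, by rw [show i0 + (t + 1) = i0 + 1 + t by omega, htz]; exact hvz⟩
      have hj_ne : j ≠ n - 1 := by
        intro he
        refine htri v (c (i0 + j)) (c i0) hj2 hxv.symm ?_
        rw [(hc.2 _ _).2]
        left
        rw [he, show i0 + (n - 1) + 1 = i0 + n by omega, Nat.add_mod_right]
      have hjn : j ≤ n - 2 := by omega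
      have hP : IPath G j (fun t => c (i0 + t)) := by
        have := (hc.path i0).sub (i := 0) (k := j) (by omega)
        simpa using this
      have hvP : ∀ i ≤ j, (fun t => c (i0 + t)) i ≠ v := by
        intro i _ he
        exact hv.2 (he ▸ (mem_cset hc).2 ⟨_, rfl⟩)
      have hadjP : ∀ i ≤ j, (G.Adj v ((fun t => c (i0 + t)) i) ↔ i = 0 ∨ i = j) := by
        intro i hi
        constructor
        · intro hadj
          by_contra hcon
          push Not at hcon
          exact Nat.find_min hex (show i < j by omega) ⟨by omega, hadj⟩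
        · rintro (rfl | rfl)
          · exact hxv.symm
          · exact hj2
      have hC := ICyc.of_path hP hj1 hvP hadjP
      set c' := fun t => if t % (j + 2) = j + 1 then v else (fun t => c (i0 + t)) (t % (j + 2)) with hc'
      have hmemC : ∀ z, z ∈ cset c' (j + 2) → z = v ∨ ∃ t ≤ j, z = c (i0 + t) := by
        intro z hz
        obtain ⟨s, rfl⟩ := (mem_cset hC).1 hz
        have hs := Nat.mod_lt s (show 0 < j + 2 by omega)
        by_cases h : s % (j + 2) = j + 1
        · left; rw [hc']; simp only; rw [if_pos h]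
        · right; exact ⟨s % (j + 2), by omega, by rw [hc']; simp only; rw [if_neg h]⟩
      have hCm : ∀ t ≤ j, c (i0 + t) ∈ cset c' (j + 2) := by
        intro t ht
        refine (mem_cset hC).2 ⟨t, ?_⟩
        rw [hc']
        simp only
        rw [Nat.mod_eq_of_lt (by omega), if_neg (by omega)]
      -- the next vertex
      have hwv : c (i0 + (j + 1)) ≠ v := fun he => hv.2 (he ▸ (mem_cset hc).2 ⟨_, rfl⟩)
      have hjw : G.Adj (c (i0 + (j + 1))) (c (i0 + j)) := (hc.adj_succ (i0 + j)).symm
      have key : ∀ x y : ℕ, x < n → y < n → ((i0 + x) % n = (i0 + y) % n ↔ x = y) := by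
        intro x y hx hy
        constructor
        · intro he
          have h3 : (i0 + x) ≡ (i0 + y) [MOD n] := he
          have h4 := Nat.ModEq.add_left_cancel' i0 h3
          unfold Nat.ModEq at h4
          rwa [Nat.mod_eq_of_lt hx, Nat.mod_eq_of_lt hy] at h4
        · rintro rfl; rfl
      apply hno
      refine PawC.itm (C := cset c' (j + 2)) (v := c (i0 + (j + 1))) (u := c (i0 + j))
        ⟨hC.cn, fun w hw => hC.dg hw, hCm j le_rfl, ?_, ?_⟩
      · intro hmem
        rcases hmemC _ hmem with h | ⟨t, ht, h⟩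
        · exact hwv h
        · have := (key _ _ (by omega) (by omega)).1 ((hc.2 _ _).1.1 h)
          omega
      · intro z hz
        constructor
        · intro hwz
          rcases hmemC z hz with rfl | ⟨t, ht, rfl⟩
          · exact absurd hwz.symm (fun h => htri z _ _ hj2 h hjw.symm)
          · rcases (hc.2 _ _).2.1 hwz with h | h
            · -- t = 0 and a four-cycle
              exfalso
              by_cases hjj : j + 2 < n
              · have := (key (j + 2) t (by omega) (by omega)).1 (by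
                  rw [← h]; congr 1)
                omega
              · have hj2n : j + 2 = n := by omega
                have ht0 : t = 0 := by
                  have h5 : (i0 + 0) % n = (i0 + t) % n := by
                    rw [← h, show i0 + (j + 1) + 1 = i0 + 0 + n by omega, Nat.add_mod_right]
                  exact ((key 0 t (by omega) (by omega)).1 h5).symm
                subst ht0
                have h6 := h4 v (c (i0 + 0)) (c (i0 + (j + 1))) (c (i0 + j)) hxv.symm hwz.symm hjw
                  hj2.symm hwv.symm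
                have := (key _ _ (by omega) (by omega)).1 ((hc.2 _ _).1.1 h6)
                omega
            · have := (key (t + 1) (j + 1) (by omega) (by omega)).1 h
              rw [show t = j by omega]
        · rintro rfl
          exact hjw
  intro x
  have e : (univ : Finset V) = cset c n := by
    ext z
    exact ⟨fun _ => hall z, fun _ => mem_univ _⟩
  rw [e, hc.dg (hall x)]

theorem dt_paw [Fintype V] [Nonempty V] {G : SimpleGraph V} (h : ¬ IsITM paw G) :
    DT G 3 univ univ := by
  refine dt_of_conn (fun V G => ¬ IsITM paw G) (fun U V e G h h' => h (h'.comap e G)) 3 ?_ V G h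
  intro V _ G hcn hno
  have hne : Nonempty V := ⟨hcn.1.choose⟩
  by_cases h3 : ∃ x y z, G.Adj x y ∧ G.Adj x z ∧ G.Adj y z
  · obtain ⟨x, y, z, h1, h2, h3⟩ := h3
    exact (dt_complete (paw_case_tri hcn hno h1 h2 h3)).mono (by omega)
  push Not at h3
  by_cases h4 : ∃ a b c d, G.Adj a b ∧ G.Adj b c ∧ G.Adj c d ∧ G.Adj d a ∧ a ≠ c ∧ b ≠ d
  · obtain ⟨a, b, c, d, k1, k2, k3, k4, k5, k6⟩ := h4
    exact (dt_complete (paw_case_c4 hcn hno h3 k1 k2 k3 k4 k5 k6)).mono (by omega)
  push Not at h4
  by_cases hcyc : ∃ n c, ICyc G n c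
  · obtain ⟨n, c, hc⟩ := hcyc
    exact (dt_two hcn (paw_case_cyc hcn hno h3 h4 hc)).mono (by omega)
  · push Not at hcyc
    exact dt_forest hcn hcyc

end Q109.ITM
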